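import Pool.Agent.StarkS.Stmts
import Pool.Agent.StarkT.CMBT

/-!
# Stark's conjecture up to sign: modules CMBS and CMBSQ
-/

open NumberField IsDedekindDomain
open scoped TensorProduct Classical

namespace StarkC
namespace CMBS

open CMB

section grp

variable {G : Type} [Group G] [Fintype G]

theorem indL_coe (H : Subgroup G) (f : G → ℂ) : MON.indL H (fun h : H => f h) = indFun H f := by
  funext g
  rw [MON.indL_apply]
  unfold indFun
  congr 1

/-- Inflation of a combination of monomial characters. -/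
theorem GS_infl {G' : Type} [Group G'] [Fintype G'] (r : G' →* G)
    (hr : Function.Surjective r) {P : ∀ H : Subgroup G, (H →* ℂˣ) → Prop}
    {P' : ∀ H : Subgroup G', (H →* ℂˣ) → Prop}
    (h : ∀ (H : Subgroup G) (ψ : H →* ℂˣ) (ψ' : H.comap r →* ℂˣ), P H ψ → P' (H.comap r) ψ')
    {f : G → ℂ} (hf : f ∈ GS P) : (fun g => f (r g)) ∈ GS P' := by
  obtain ⟨m, H, ψ, n, hP, hfg⟩ := of_mem_GS hf
  have e : (fun g => f (r g)) =
      ∑ i, n i • indFun ((H i).comap r) (extZ ((ψ i).comp (r.subgroupComap (H i)))) := by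
    funext g
    rw [hfg (r g), Finset.sum_apply]
    refine Finset.sum_congr rfl fun i _ => ?_
    rw [Pi.smul_apply, zsmul_eq_mul, indFun_infl r hr]
    rfl
  rw [e]
  exact Submodule.sum_mem _ fun i _ => Submodule.smul_mem _ _ (mem_GS_of _ _ (h _ _ _ (hP i)))

/-- Induction of combinations of trivial characters. -/
theorem GS_one_ind (A : Subgroup G) {y : A → ℂ}
    (hy : y ∈ GS (G := A) (fun (H : Subgroup A) (ψ : H →* ℂˣ) => ψ = 1)) :
    MON.indL A y ∈ GS (G := G) (fun (H : Subgroup G) (ψ : H →* ℂˣ) => ψ = 1) := by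
  obtain ⟨m, H, ψ, n, hP, hfg⟩ := of_mem_GS hy
  have e : y = ∑ i, n i • indFun (H i) (extZ (ψ i)) := by
    funext a
    rw [hfg a, Finset.sum_apply]
    refine Finset.sum_congr rfl fun i _ => ?_
    rw [Pi.smul_apply, zsmul_eq_mul]
  rw [e, map_sum]
  refine Submodule.sum_mem _ fun i _ => ?_
  rw [map_zsmul, MON.indL_indFun]
  refine Submodule.smul_mem _ _ (mem_GS_of _ _ ?_)
  rw [hP i]
  rfl

end grp

section arith

variable {K L N N' : Type} [Field K] [NumberField K] [Field L] [NumberField L] [Field N]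
  [NumberField N] [Field N'] [NumberField N'] [Algebra K L] [Algebra K N] [Algebra L N]
  [IsScalarTower K L N] [Algebra K N'] [Algebra L N'] [Algebra N N'] [IsScalarTower K L N']
  [IsScalarTower K N N'] [IsScalarTower L N N'] [IsGalois K L] [IsGalois K N] [IsGalois K N']

omit [NumberField K] [NumberField L] [NumberField N] [NumberField N'] [IsGalois K N'] in
theorem res_res (g : N' ≃ₐ[K] N') :
    (AlgEquiv.restrictNormalHom L g : L ≃ₐ[K] L) =
      AlgEquiv.restrictNormalHom L (AlgEquiv.restrictNormalHom N g : N ≃ₐ[K] N) := by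
  ext x
  apply (algebraMap L N').injective
  have h1 : algebraMap L N' ((AlgEquiv.restrictNormalHom L g : L ≃ₐ[K] L) x) =
      g (algebraMap L N' x) := AlgEquiv.restrictNormal_commutes g L x
  have h2 : algebraMap L N ((AlgEquiv.restrictNormalHom L
      (AlgEquiv.restrictNormalHom N g : N ≃ₐ[K] N) : L ≃ₐ[K] L) x) =
      (AlgEquiv.restrictNormalHom N g : N ≃ₐ[K] N) (algebraMap L N x) :=
    AlgEquiv.restrictNormal_commutes _ L x
  have h3 : algebraMap N N' ((AlgEquiv.restrictNormalHom N g : N ≃ₐ[K] N) (algebraMap L N x)) =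
      g (algebraMap N N' (algebraMap L N x)) := AlgEquiv.restrictNormal_commutes g N _
  rw [h1, IsScalarTower.algebraMap_apply L N N', IsScalarTower.algebraMap_apply L N N', h2, h3]

/-- The statement for one quasi-elementary subgroup. -/
theorem per (hQET : Stmt_QET) (hBRA : Stmt_BRA) (hSU : Stmt_SU) (hSIND : Stmt_SIND)
    (hfin : Finite (galEmb K N').P) (hminus : HasMinus (galEmb K N'))
    (hsigns : HasSigns (galEmb K N')
      (AlgEquiv.restrictNormalHom N : (N' ≃ₐ[K] N') →* (N ≃ₐ[K] N)).ker)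
    (hART : ∀ (Φ : N →+* ℂ) (c u : N ≃ₐ[K] N), ComplexEmbedding.IsConj Φ c → u * c = c * u →
        AlgEquiv.restrictNormalHom L u = (1 : L ≃ₐ[K] L) ∨
          AlgEquiv.restrictNormalHom L u = (AlgEquiv.restrictNormalHom L c : L ≃ₐ[K] L))
    (H : Subgroup (N ≃ₐ[K] N)) (hH : IsQuasiElem H)
    (V : Type) [AddCommGroup V] [Module ℂ V] [Module.Finite ℂ V]
    (ρ : Representation ℂ (L ≃ₐ[K] L) V) :
    (∀ t : ℤ, (∀ c : L ≃ₐ[K] L, IsCC c → ρ.character c = (t : ℂ)) →
      (fun g => 2 * (indFun (H.comap (AlgEquiv.restrictNormalHom N : (N' ≃ₐ[K] N') →* _))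
        (fun g => ρ.character (AlgEquiv.restrictNormalHom L g)) g -
        (t : ℂ) * indFun (H.comap (AlgEquiv.restrictNormalHom N : (N' ≃ₐ[K] N') →* _))
          (fun _ => 1) g)) ∈ GS (G := N' ≃ₐ[K] N') (fun H ψ => CMBT.NoCC H ψ)) ∧
    ∃ y ∈ GS (G := N' ≃ₐ[K] N') (fun (H : Subgroup (N' ≃ₐ[K] N')) (ψ : H →* ℂˣ) => ψ = 1),
      (fun g => 2 * (indFun (H.comap (AlgEquiv.restrictNormalHom N : (N' ≃ₐ[K] N') →* _))
        (fun g => ρ.character (AlgEquiv.restrictNormalHom L g)) g - y g)) ∈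
          GS (G := N' ≃ₐ[K] N') (fun H ψ => CMBT.NoCC H ψ) := by
  set r' : (N' ≃ₐ[K] N') →* (N ≃ₐ[K] N) := AlgEquiv.restrictNormalHom N with hr'
  have hsurj : Function.Surjective r' := AlgEquiv.restrictNormalHom_surjective N'
  set A : Subgroup (N' ≃ₐ[K] N') := H.comap r' with hA
  set F' : (N' ≃ₐ[K] N') → ℂ := fun g => ρ.character (AlgEquiv.restrictNormalHom L g) with hF'
  have hF : ∀ g, F' g = ρ.character (AlgEquiv.restrictNormalHom L (r' g)) := by
    intro g
    show ρ.character (AlgEquiv.restrictNormalHom L g) = _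
    rw [res_res (N := N) g]
  have hccr : ∀ c : N' ≃ₐ[K] N', IsCC c → IsCC (r' c) := fun c hc => isCC_restrict hc
  obtain ⟨p, C, hp, hCn, hCc, hpC, hidx⟩ := hH
  rcases hp.eq_two_or_odd' with rfl | hodd
  · -- the prime 2
    have hQ : IsQuasiElemP 2 H := ⟨C, hCn, hCc, hpC, hidx⟩
    let q : A →* H := r'.subgroupComap H
    let r : A →* (L ≃ₐ[K] L) := (AlgEquiv.restrictNormalHom L).comp A.subtype
    have hq : Function.Surjective q := by
      intro x
      obtain ⟨g, hg⟩ := hsurj x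
      exact ⟨⟨g, show r' g ∈ H by rw [hg]; exact x.2⟩, Subtype.ext hg⟩
    have hqv : ∀ a : A, ((q a : H) : N ≃ₐ[K] N) = r' a := fun a => rfl
    have hrv : ∀ a : A, r a = AlgEquiv.restrictNormalHom L (r' a) := fun a => res_res (N := N) _
    have hqM : ∀ a, q a = 1 ↔ A.subtype a ∈ r'.ker := by
      intro a
      rw [MonoidHom.mem_ker]
      constructor
      · intro h
        exact congrArg Subtype.val h
      · intro h
        exact Subtype.ext h
    have hker : r'.ker ≤ A.subtype.range := by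
      intro x hx
      refine ⟨⟨x, ?_⟩, rfl⟩
      show r' x ∈ H
      rw [MonoidHom.mem_ker.1 hx]
      exact H.one_mem
    have hcc : ∀ a : A, CCj (galEmb K N') A.subtype a → IsCC (a : N' ≃ₐ[K] N') := by
      rintro a ⟨P, hP⟩
      refine ⟨P.1, ?_⟩
      have h1 : ComplexEmbedding.IsConj P.1 ((galEmb K N').c P) := P.2.choose_spec
      rw [← hP] at h1
      exact h1
    have hcent : ∀ c u, CCj (galEmb K N') A.subtype c → q (u * c) = q (c * u) →
        r u = 1 ∨ r u = r c := by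
      intro c u hc huc
      obtain ⟨Φ, hΦ⟩ := hccr _ (hcc c hc)
      have h1 : r' u * r' c = r' c * r' u := by
        have := congrArg Subtype.val huc
        rw [← map_mul, ← map_mul]
        exact this
      rw [hrv u, hrv c]
      exact hART Φ (r' c) (r' u) hΦ h1
    obtain ⟨s1, y, hy, s2⟩ := hSU (N' ≃ₐ[K] N') (galEmb K N') r'.ker hminus hsigns (L ≃ₐ[K] L) A H
      A.subtype q r A.subtype_injective hker hq hqM (by
        intro a ha
        rw [hrv a]
        have h1 : r' a = 1 := congrArg Subtype.val ha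
        rw [h1, map_one]) hQ hcent V ρ
    have hind : ∀ f : A → ℂ, f ∈ JJ (galEmb K N') A.subtype →
        MON.indL A f ∈ GS (G := N' ≃ₐ[K] N') (fun H ψ => CMBT.NoCC H ψ) := by
      intro f hf
      have h1 := hSIND (N' ≃ₐ[K] N') (N' ≃ₐ[K] N') (galEmb K N') (MonoidHom.id _) A f hf
      refine CMBT.GS_mono ?_ h1
      intro B ψ hB c hc hcc'
      apply hB c hc
      obtain ⟨Φ, hΦ⟩ := hcc'
      refine ⟨⟨Φ, c, hΦ⟩, ?_⟩
      have h2 : ComplexEmbedding.IsConj Φ ((galEmb K N').c ⟨Φ, c, hΦ⟩) :=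
        (⟨Φ, c, hΦ⟩ : (galEmb K N').P).2.choose_spec
      exact hΦ.ext h2
    refine ⟨?_, MON.indL A y, GS_one_ind A hy, ?_⟩
    · intro t ht
      have h1 := hind _ (s1 t (by
        intro a ha
        exact ht _ (isCC_restrict (hcc a ha))))
      have e : (fun g => 2 * (indFun A F' g - (t : ℂ) * indFun A (fun _ => 1) g)) =
          MON.indL A (fun a => 2 * (ρ.character (r a) - (t : ℂ))) := by
        have e1 : (fun a : A => 2 * (ρ.character (r a) - (t : ℂ))) =
            fun a : A => (fun g : N' ≃ₐ[K] N' => 2 * (F' g - (t : ℂ) * 1)) a := by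
          funext a
          rw [mul_one]
          rfl
        rw [e1]
        refine Eq.trans ?_ (indL_coe A (fun g => 2 * (F' g - (t : ℂ) * 1))).symm
        funext g
        rw [CMBT.indFun_const, indFun_sub, CMBT.indFun_const]
      rw [e]
      exact h1
    · have h1 := hind _ s2
      have e : (fun g => 2 * (indFun A F' g - MON.indL A y g)) =
          MON.indL A (fun a => 2 * (ρ.character (r a) - y a)) := by
        have e1 : (fun a : A => 2 * (ρ.character (r a) - y a)) =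
            (2 : ℤ) • ((fun a : A => F' a) - y) := by
          funext a
          rw [Pi.smul_apply, zsmul_eq_mul, Pi.sub_apply]
          norm_num
          rfl
        rw [e1, map_zsmul, map_sub, indL_coe]
        funext g
        rw [Pi.smul_apply, zsmul_eq_mul, Pi.sub_apply]
        norm_num
      rw [e]
      exact h1
  · -- an odd prime
    obtain ⟨t₀, h1, h2⟩ := CMBT.step (K := K) (L := L) (N := N) hQET hBRA H p hp hodd
      ⟨C, hCn, hCc, hpC, hidx⟩ V ρ hART
    have h3 : (fun g => indFun A F' g - (t₀ : ℂ) * indFun A (fun _ => 1) g) ∈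
        GS (G := N' ≃ₐ[K] N') (fun H ψ => CMBT.NoCC H ψ) := by
      have h4 := GS_infl r' hsurj (P' := fun H ψ => CMBT.NoCC H ψ) (by
        intro B ψ ψ' hB c hc hcc
        exact hB _ hc (hccr c hcc)) h1
      have e : (fun g => indFun A F' g - (t₀ : ℂ) * indFun A (fun _ => 1) g) =
          fun g => (indFun H (fun g => ρ.character (AlgEquiv.restrictNormalHom L g)) -
            t₀ • indFun H (extZ (1 : H →* ℂˣ))) (r' g) := by
        funext g
        rw [Pi.sub_apply, Pi.smul_apply, zsmul_eq_mul, CMBT.indFun_one, indFun_infl r' hsurj,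
          indFun_infl r' hsurj]
        congr 1
        apply congrFun
        apply indFun_congr
        intro x _
        exact hF x
      rw [e]
      exact h4
    have hone : indFun A (fun _ => (1 : ℂ)) = indFun A (extZ (1 : A →* ℂˣ)) :=
      (CMBT.indFun_one A).symm
    have hdouble : ∀ f : (N' ≃ₐ[K] N') → ℂ,
        f ∈ GS (G := N' ≃ₐ[K] N') (fun H ψ => CMBT.NoCC H ψ) →
        (fun g => 2 * f g) ∈ GS (G := N' ≃ₐ[K] N') (fun H ψ => CMBT.NoCC H ψ) := by
      intro f hf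
      have e : (fun g => 2 * f g) = (2 : ℤ) • f := by
        funext g
        rw [Pi.smul_apply, zsmul_eq_mul]
        norm_num
      rw [e]
      exact Submodule.smul_mem _ _ hf
    refine ⟨?_, t₀ • indFun A (extZ (1 : A →* ℂˣ)), Submodule.smul_mem _ _ (mem_GS_of _ _ rfl), ?_⟩
    · intro t ht
      apply hdouble
      have e : (fun g => indFun A F' g - (t : ℂ) * indFun A (fun _ => 1) g) =
          (fun g => indFun A F' g - (t₀ : ℂ) * indFun A (fun _ => 1) g) +
          (t₀ - t) • indFun A (extZ (1 : A →* ℂˣ)) := by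
        funext g
        rw [Pi.add_apply, Pi.smul_apply, zsmul_eq_mul, ← hone]
        push_cast
        ring
      rw [e]
      refine Submodule.add_mem _ h3 ?_
      by_cases hcc : ∃ c ∈ A, IsCC c
      · obtain ⟨c, hc, hcc⟩ := hcc
        have h5 := h2 (r' c) hc (hccr c hcc)
        rw [ht _ (isCC_restrict (hccr c hcc))] at h5
        have h6 : t = t₀ := by exact_mod_cast h5
        rw [h6, sub_self, zero_smul]
        exact Submodule.zero_mem _
      · refine Submodule.smul_mem _ _ (mem_GS_of _ _ ?_)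
        intro c hc h
        exact hcc ⟨c, hc, h⟩
    · have e : (fun g => 2 * (indFun A F' g - (t₀ • indFun A (extZ (1 : A →* ℂˣ))) g)) =
          fun g => 2 * (indFun A F' g - (t₀ : ℂ) * indFun A (fun _ => 1) g) := by
        funext g
        rw [Pi.smul_apply, zsmul_eq_mul, ← hone]
      rw [e]
      exact hdouble _ h3

/-- The decomposition of a character from a relation for the constant 1. -/
theorem total (V : Type) [AddCommGroup V] [Module ℂ V] [Module.Finite ℂ V]
    (ρ : Representation ℂ (L ≃ₐ[K] L) V) (m : ℕ) (H : Fin m → Subgroup (N ≃ₐ[K] N))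
    (n : Fin m → ℤ) (h1 : ∀ g, (1 : ℂ) = ∑ i, (n i : ℂ) * indFun (H i) (fun _ => 1) g)
    (g : N' ≃ₐ[K] N') :
    ρ.character (AlgEquiv.restrictNormalHom L g) = ∑ i, (n i : ℂ) *
      indFun ((H i).comap (AlgEquiv.restrictNormalHom N : (N' ≃ₐ[K] N') →* (N ≃ₐ[K] N)))
        (fun g => ρ.character (AlgEquiv.restrictNormalHom L g)) g ∧
    (1 : ℂ) = ∑ i, (n i : ℂ) *
      indFun ((H i).comap (AlgEquiv.restrictNormalHom N : (N' ≃ₐ[K] N') →* (N ≃ₐ[K] N)))
        (fun _ => 1) g := by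
  have hsurj : Function.Surjective
      (AlgEquiv.restrictNormalHom N : (N' ≃ₐ[K] N') →* (N ≃ₐ[K] N)) :=
    AlgEquiv.restrictNormalHom_surjective N'
  have h2 : (1 : ℂ) = ∑ i, (n i : ℂ) *
      indFun ((H i).comap (AlgEquiv.restrictNormalHom N : (N' ≃ₐ[K] N') →* (N ≃ₐ[K] N)))
        (fun _ => 1) g := by
    refine (h1 (AlgEquiv.restrictNormalHom N g)).trans ?_
    refine Finset.sum_congr rfl fun i _ => ?_
    rw [indFun_infl _ hsurj]
  refine ⟨?_, h2⟩
  have h3 : ∀ i, indFun ((H i).comap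
      (AlgEquiv.restrictNormalHom N : (N' ≃ₐ[K] N') →* (N ≃ₐ[K] N)))
        (fun g => ρ.character (AlgEquiv.restrictNormalHom L g)) g =
      ρ.character (AlgEquiv.restrictNormalHom L g) * indFun ((H i).comap
        (AlgEquiv.restrictNormalHom N : (N' ≃ₐ[K] N') →* (N ≃ₐ[K] N))) (fun _ => 1) g := by
    intro i
    rw [indFun_class _ (fun g : N' ≃ₐ[K] N' => ρ.character (AlgEquiv.restrictNormalHom L g))]
    intro x y
    rw [map_mul, map_mul, map_inv]
    have := Representation.char_conj ρ (AlgEquiv.restrictNormalHom L y)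
      (AlgEquiv.restrictNormalHom L x)⁻¹
    rw [inv_inv] at this
    exact this
  calc ρ.character (AlgEquiv.restrictNormalHom L g) =
      ρ.character (AlgEquiv.restrictNormalHom L g) * 1 := (mul_one _).symm
    _ = _ := by
      conv_lhs => rw [h2]
      rw [Finset.mul_sum]
      refine Finset.sum_congr rfl fun i _ => ?_
      rw [h3 i]
      ring

end arith

/-- Combination of two families. -/
theorem combine {G : Type} [Group G] [Fintype G] {f y : G → ℂ}
    {P : ∀ H : Subgroup G, (H →* ℂˣ) → Prop} (hf : f ∈ GS P)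
    (hy : y ∈ GS (fun (H : Subgroup G) (ψ : H →* ℂˣ) => ψ = 1)) :
    ∃ (m : ℕ) (H : Fin m → Subgroup G) (ψ : ∀ i, H i →* ℂˣ) (n : Fin m → ℤ) (k : Fin m → ℕ),
      (∀ i, (P (H i) (ψ i) ∧ k i = 1) ∨ (ψ i = 1 ∧ k i = 2)) ∧
      ∀ g, f g + 2 * y g = ∑ i, (n i : ℂ) * ((k i : ℂ) * indFun (H i) (extZ (ψ i)) g) := by
  obtain ⟨m1, H1, ψ1, n1, hP1, e1⟩ := of_mem_GS hf
  obtain ⟨m2, H2, ψ2, n2, hP2, e2⟩ := of_mem_GS hy
  let Hs : Fin m1 ⊕ Fin m2 → Subgroup G := fun s => match s with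
    | Sum.inl a => H1 a
    | Sum.inr b => H2 b
  let ψs : ∀ s, Hs s →* ℂˣ := fun s => match s with
    | Sum.inl a => ψ1 a
    | Sum.inr b => ψ2 b
  let ns : Fin m1 ⊕ Fin m2 → ℤ := fun s => match s with
    | Sum.inl a => n1 a
    | Sum.inr b => n2 b
  let ks : Fin m1 ⊕ Fin m2 → ℕ := fun s => match s with
    | Sum.inl _ => 1
    | Sum.inr _ => 2
  let e : Fin m1 ⊕ Fin m2 ≃ Fin (m1 + m2) := finSumFinEquiv
  refine ⟨m1 + m2, fun i => Hs (e.symm i), fun i => ψs (e.symm i), fun i => ns (e.symm i),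
    fun i => ks (e.symm i), ?_, ?_⟩
  · intro i
    have h : ∀ s, (P (Hs s) (ψs s) ∧ ks s = 1) ∨ (ψs s = 1 ∧ ks s = 2) := by
      rintro (a | b)
      · exact Or.inl ⟨hP1 a, rfl⟩
      · exact Or.inr ⟨hP2 b, rfl⟩
    exact h (e.symm i)
  · intro g
    rw [Equiv.sum_comp e.symm (fun s => (ns s : ℂ) * ((ks s : ℂ) * indFun (Hs s) (extZ (ψs s)) g)),
      Fintype.sum_sum_type, e1 g, e2 g, Finset.mul_sum]
    congr 1
    · refine Finset.sum_congr rfl fun a _ => ?_
      show _ = (n1 a : ℂ) * (((1 : ℕ) : ℂ) * indFun (H1 a) (extZ (ψ1 a)) g)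
      rw [Nat.cast_one, one_mul]
    · refine Finset.sum_congr rfl fun b _ => ?_
      show _ = (n2 b : ℂ) * (((2 : ℕ) : ℂ) * indFun (H2 b) (extZ (ψ2 b)) g)
      push_cast
      ring

end CMBS

theorem CMBS_thm (h1 : Stmt_SOL) (h2 : Stmt_QET) (h3 : Stmt_BRA) (h4 : Stmt_SFD) (h5 : Stmt_SHS)
    (h6 : Stmt_SU) (h7 : Stmt_SIND) : Stmt_CMBS := by
  intro K L _ _ _ _ _ _ V _ _ _ ρ
  obtain ⟨N, N', iF, iN, iA, iLN, iT, iG, iF', iN', iA', iNN', iLN', iT', iT'', iT''', iG', hART,
    hi, hsg⟩ := h4 K L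
  obtain ⟨hfin, hminus, hsigns⟩ := h5 K N N' hi hsg
  obtain ⟨m, H, n, hH, hone⟩ := h1 (N ≃ₐ[K] N)
  choose hq y hy hJ using fun i => CMBS.per (K := K) (L := L) (N := N) (N' := N') h2 h3 h6 h7 hfin
    hminus hsigns hART (H i) (hH i) V ρ
  have hf := Submodule.sum_mem (CMB.GS (G := N' ≃ₐ[K] N') (fun H ψ => CMBT.NoCC H ψ))
    (t := Finset.univ) (fun i _ => Submodule.smul_mem _ (n i) (hJ i))
  have hyy := Submodule.sum_mem (CMB.GS (G := N' ≃ₐ[K] N')
    (fun (H : Subgroup (N' ≃ₐ[K] N')) (ψ : H →* ℂˣ) => ψ = 1))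
    (t := Finset.univ) (fun i _ => Submodule.smul_mem _ (n i) (hy i))
  obtain ⟨m', H', ψ', n', k', hP, hg⟩ := CMBS.combine hf hyy
  refine ⟨N', iF', iN', iA', iLN', iT''', iG', m', H', ψ', n', k', hP, fun g => ?_⟩
  rw [← hg g, Finset.sum_apply, Finset.sum_apply]
  have e := (CMBS.total (L := L) (N := N) (N' := N') V ρ m H n hone g).1
  rw [e, Finset.mul_sum, Finset.mul_sum, ← Finset.sum_add_distrib]
  refine Finset.sum_congr rfl fun i _ => ?_
  simp only [Pi.smul_apply, zsmul_eq_mul]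
  ring

theorem CMBSQ_thm (h1 : Stmt_SOL) (h2 : Stmt_QET) (h3 : Stmt_BRA) (h4 : Stmt_SFD) (h5 : Stmt_SHS)
    (h6 : Stmt_SU) (h7 : Stmt_SIND) : Stmt_CMBSQ := by
  intro K L _ _ _ _ _ _ V _ _ _ ρ t ht
  obtain ⟨N, N', iF, iN, iA, iLN, iT, iG, iF', iN', iA', iNN', iLN', iT', iT'', iT''', iG', hART,
    hi, hsg⟩ := h4 K L
  obtain ⟨hfin, hminus, hsigns⟩ := h5 K N N' hi hsg
  obtain ⟨m, H, n, hH, hone⟩ := h1 (N ≃ₐ[K] N)
  have hJ := fun i => (CMBS.per (K := K) (L := L) (N := N) (N' := N') h2 h3 h6 h7 hfin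
    hminus hsigns hART (H i) (hH i) V ρ).1 t ht
  have hf := Submodule.sum_mem (CMB.GS (G := N' ≃ₐ[K] N') (fun H ψ => CMBT.NoCC H ψ))
    (t := Finset.univ) (fun i _ => Submodule.smul_mem _ (n i) (hJ i))
  obtain ⟨m', H', ψ', n', hP, hg⟩ := CMB.of_mem_GS hf
  refine ⟨N', iF', iN', iA', iLN', iT''', iG', m', H', ψ', n', hP, fun g => ?_⟩
  rw [← hg g, Finset.sum_apply]
  obtain ⟨e, e1⟩ := CMBS.total (L := L) (N := N) (N' := N') V ρ m H n hone g
  have e2 : (2 : ℂ) * (t : ℂ) = 2 * (t : ℂ) * ∑ i, (n i : ℂ) *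
      indFun ((H i).comap (AlgEquiv.restrictNormalHom N : (N' ≃ₐ[K] N') →* (N ≃ₐ[K] N)))
        (fun _ => 1) g := by
    rw [← e1, mul_one]
  rw [e2]
  conv_lhs => rw [e]
  rw [Finset.mul_sum, Finset.mul_sum, ← Finset.sum_add_distrib]
  refine Finset.sum_congr rfl fun i _ => ?_
  simp only [Pi.smul_apply, zsmul_eq_mul]
  ring

end StarkC
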