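import Pool.Agent.StarkS.Stmts

/-!
# Stark's conjecture up to sign: basic lemmas
-/

open NumberField IsDedekindDomain
open scoped TensorProduct Classical

namespace StarkC
namespace SBas

section grp

variable {A : Type} [Group A] [Fintype A]

theorem indL_eq_indFun (B : Subgroup A) (f : A → ℂ) :
    MON.indL B (fun b : B => f b) = indFun B f := by
  funext g
  rw [MON.indL_apply]
  unfold indFun
  congr 1

/-- Projection formula. -/
theorem indL_mul (B : Subgroup A) (F : A → ℂ) (hF : ∀ x g, F (x⁻¹ * g * x) = F g) (f : B → ℂ) :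
    MON.indL B (fun b => F b * f b) = fun g => F g * MON.indL B f g := by
  funext g
  rw [MON.indL_apply, MON.indL_apply, mul_div_assoc', Finset.mul_sum]
  congr 1
  refine Finset.sum_congr rfl fun x _ => ?_
  split_ifs with h
  · rw [show F ((⟨x⁻¹ * g * x, h⟩ : B) : A) = F g from hF x g]
  · rw [mul_zero]

omit [Fintype A] in
theorem lin_class (ψ : A →* ℂˣ) (x g : A) : ψ (x⁻¹ * g * x) = ψ g := by
  rw [map_mul, map_mul, map_inv, mul_comm, ← mul_assoc, mul_inv_cancel, one_mul]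

/-- The induced trivial character of the kernel of a sign character. -/
theorem indL_ker_one (η : A →* ℂˣ) (hη : IsSign η) (τ : A) (hτ : η τ = -1) :
    MON.indL η.ker (fun _ => (1 : ℂ)) = fun a => 1 + ((η a : ℂˣ) : ℂ) := by
  have hne : η τ ≠ 1 := by
    rw [hτ]
    intro h
    have := congrArg (fun u : ℂˣ => (u : ℂ)) h
    norm_num at this
  rw [indL_eq_indFun η.ker (fun _ => (1 : ℂ))]
  funext a
  exact CMB.half η hη τ hne a

theorem indL_ker_res (η : A →* ℂˣ) (hη : IsSign η) (τ : A) (hτ : η τ = -1) (F : A → ℂ)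
    (hF : ∀ x g, F (x⁻¹ * g * x) = F g) :
    MON.indL η.ker (fun b => F b) = fun a => (1 + ((η a : ℂˣ) : ℂ)) * F a := by
  have h := indL_mul η.ker F hF (fun _ => (1 : ℂ))
  rw [indL_ker_one η hη τ hτ] at h
  simp only [mul_one] at h
  rw [h]
  funext a
  ring

/-- Induction from a subgroup commutes with conjugation. -/
theorem indL_conj (B : Subgroup A) (τ : A) (hB : ∀ b ∈ B, τ⁻¹ * b * τ ∈ B)
    (hB' : ∀ b, τ⁻¹ * b * τ ∈ B → b ∈ B) (f : B → ℂ) :
    MON.indL B (fun b => f ⟨τ⁻¹ * b * τ, hB b b.2⟩) = MON.indL B f := by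
  funext g
  rw [MON.indL_apply, MON.indL_apply]
  congr 1
  refine Fintype.sum_equiv (Equiv.mulRight τ) _ _ fun x => ?_
  show _ = if h : (x * τ)⁻¹ * g * (x * τ) ∈ B then f ⟨(x * τ)⁻¹ * g * (x * τ), h⟩ else 0
  have e : (x * τ)⁻¹ * g * (x * τ) = τ⁻¹ * (x⁻¹ * g * x) * τ := by
    simp [mul_assoc]
  by_cases h : x⁻¹ * g * x ∈ B
  · have h' : (x * τ)⁻¹ * g * (x * τ) ∈ B := by
      rw [e]
      exact hB _ h
    rw [dif_pos h, dif_pos h']
    congr 1
    exact Subtype.ext e.symm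
  · have h' : (x * τ)⁻¹ * g * (x * τ) ∉ B := by
      rw [e]
      exact fun h2 => h (hB' _ h2)
    rw [dif_neg h, dif_neg h']

/-- The formula for induction from a subgroup of index two. -/
theorem indL_ker_apply (η : A →* ℂˣ) (hη : IsSign η) (τ : A) (hτ : η τ = -1) (f : η.ker → ℂ)
    (hf : ∀ x g : η.ker, f (x⁻¹ * g * x) = f g) (a b b' : η.ker) (hb : (b : A) = a)
    (hb' : (b' : A) = τ⁻¹ * a * τ) :
    MON.indL η.ker f a = f b + f b' := by
  obtain rfl : b = a := Subtype.ext hb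
  have hker : (Nat.card η.ker : ℂ) ≠ 0 := by exact_mod_cast Nat.card_pos.ne'
  rw [MON.indL_apply, div_eq_iff hker]
  have hmem : ∀ x : A, x⁻¹ * b * x ∈ η.ker := by
    intro x
    rw [MonoidHom.mem_ker, lin_class]
    exact b.2
  have h1 : ∀ x : A, (if h : x⁻¹ * (b : A) * x ∈ η.ker then f ⟨x⁻¹ * b * x, h⟩ else 0) =
      (if x ∈ η.ker then f b else 0) + (if x * τ⁻¹ ∈ η.ker then f b' else 0) := by
    intro x
    rw [dif_pos (hmem x)]
    have hτ' : η τ⁻¹ = -1 := by rw [map_inv, hτ]; simp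
    rcases hη x with hx | hx
    · have hx1 : x ∈ η.ker := hx
      have hx2 : x * τ⁻¹ ∉ η.ker := by
        rw [MonoidHom.mem_ker, map_mul, hx, hτ', one_mul]
        intro h
        have := congrArg (fun u : ℂˣ => (u : ℂ)) h
        norm_num at this
      rw [if_pos hx1, if_neg hx2, add_zero]
      exact hf ⟨x, hx1⟩ b
    · have hx1 : x ∉ η.ker := by
        rw [MonoidHom.mem_ker, hx]
        intro h
        have := congrArg (fun u : ℂˣ => (u : ℂ)) h
        norm_num at this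
      have hx2 : τ⁻¹ * x ∈ η.ker := by
        rw [MonoidHom.mem_ker, map_mul, hx, hτ']
        simp
      have hx3 : x * τ⁻¹ ∈ η.ker := by
        rw [MonoidHom.mem_ker, map_mul, hx, hτ']
        simp
      rw [if_neg hx1, if_pos hx3, zero_add, ← hf ⟨τ⁻¹ * x, hx2⟩ b']
      congr 1
      apply Subtype.ext
      show x⁻¹ * (b : A) * x = (τ⁻¹ * x)⁻¹ * (b' : A) * (τ⁻¹ * x)
      rw [hb']
      simp [mul_assoc]
  have h0 : (∑ x : A, if h : x⁻¹ * (b : A) * x ∈ η.ker then f ⟨x⁻¹ * b * x, h⟩ else 0) =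
      ∑ x : A, ((if x ∈ η.ker then f b else 0) + (if x * τ⁻¹ ∈ η.ker then f b' else 0)) := by
    refine Finset.sum_congr rfl fun x _ => ?_
    rw [← h1 x]
  refine Eq.trans ?_ (h0.trans ?_)
  · refine Finset.sum_congr rfl fun x _ => ?_
    rw [dif_pos (hmem x), dif_pos (hmem x)]
  rw [Finset.sum_add_distrib]
  have h2 : ∀ v : ℂ, (∑ x : A, if x ∈ η.ker then v else 0) = v * (Nat.card η.ker : ℂ) := by
    intro v
    rw [← Finset.sum_filter, Finset.sum_const, nsmul_eq_mul, Nat.card_eq_fintype_card,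
      Fintype.card_subtype, mul_comm]
  have h3 : ∀ v : ℂ, (∑ x : A, if x * τ⁻¹ ∈ η.ker then v else 0) = v * (Nat.card η.ker : ℂ) := by
    intro v
    rw [← h2]
    exact Fintype.sum_equiv (Equiv.mulRight τ⁻¹) _ _ fun x => rfl
  rw [h2, h3]
  ring

theorem indL_ker_apply_not (η : A →* ℂˣ) (f : η.ker → ℂ) (a : A) (ha : a ∉ η.ker) :
    MON.indL η.ker f a = 0 := by
  rw [MON.indL_apply, Finset.sum_eq_zero, zero_div]
  intro x _
  rw [dif_neg]
  rw [MonoidHom.mem_ker, lin_class]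
  exact ha

/-- Pull back of a combination along a surjection. -/
theorem GS_comap {Q : Type} [Group Q] [Fintype Q] (q : A →* Q) (hq : Function.Surjective q)
    {P : ∀ H : Subgroup Q, (H →* ℂˣ) → Prop} {P' : ∀ H : Subgroup A, (H →* ℂˣ) → Prop}
    (h : ∀ (H : Subgroup Q) (ψ : H →* ℂˣ), P H ψ → P' (H.comap q) (ψ.comp (q.subgroupComap H)))
    (f : Q → ℂ) (hf : f ∈ CMB.GS P) : (fun a => f (q a)) ∈ CMB.GS P' := by
  obtain ⟨m, H, ψ, n, hP, hg⟩ := CMB.of_mem_GS hf
  have e : (fun a => f (q a)) =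
      ∑ i, n i • indFun ((H i).comap q) (extZ ((ψ i).comp (q.subgroupComap (H i)))) := by
    funext a
    rw [hg, Finset.sum_apply]
    refine Finset.sum_congr rfl fun i _ => ?_
    rw [Pi.smul_apply, zsmul_eq_mul, CMB.indFun_infl q hq]
    rfl
  rw [e]
  exact Submodule.sum_mem _ fun i _ => Submodule.smul_mem _ _
    (CMB.mem_GS_of _ _ (h _ _ (hP i)))

end grp

section emb

variable {G A : Type} [Group G] [Group A] [Fintype A]

omit [Fintype A] in
theorem ccj_conj {E : Emb G} {j : A →* G} {a : A} (h : CCj E j a) (x : A) :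
    CCj E j (x⁻¹ * a * x) := by
  obtain ⟨p, hp⟩ := h
  refine ⟨E.act p (j x), ?_⟩
  rw [E.c_act, map_mul, map_mul, map_inv, hp]

/-- The elements of `J` vanish at the complex conjugations. -/
theorem JJ_zero {E : Emb G} {j : A →* G} {f : A → ℂ} (hf : f ∈ JJ E j) {a : A}
    (ha : CCj E j a) : f a = 0 := by
  obtain ⟨m, H, ψ, n, hP, hg⟩ := CMB.of_mem_GS hf
  rw [hg]
  refine Finset.sum_eq_zero fun i _ => ?_
  have : indFun (H i) (extZ (ψ i)) a = 0 := by
    unfold indFun
    rw [Finset.sum_eq_zero, zero_div]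
    intro x _
    rw [if_neg]
    exact fun h => hP i _ h (ccj_conj ha x)
  rw [this, mul_zero]

omit [Fintype A] in
theorem same_refl (E : Emb G) (j : A →* G) (p : E.P) : Same E j p p :=
  ⟨1, by rw [map_one, E.act_one]⟩

omit [Fintype A] in
theorem same_symm {E : Emb G} {j : A →* G} {p q : E.P} (h : Same E j p q) : Same E j q p := by
  obtain ⟨a, rfl⟩ := h
  refine ⟨a⁻¹, ?_⟩
  rw [← E.act_mul, ← map_mul, mul_inv_cancel, map_one, E.act_one]

omit [Fintype A] in
theorem same_trans {E : Emb G} {j : A →* G} {p q r : E.P} (h : Same E j p q)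
    (h' : Same E j q r) : Same E j p r := by
  obtain ⟨a, rfl⟩ := h
  obtain ⟨b, rfl⟩ := h'
  exact ⟨a * b, by rw [map_mul, E.act_mul]⟩

theorem act_inj {E : Emb G} {p : E.P} {g h : G} (e : E.act p g = E.act p h) : g = h := by
  have h1 : E.act p (g * h⁻¹) = p := by
    rw [E.act_mul, e, ← E.act_mul, mul_inv_cancel, E.act_one]
  have h2 := E.free p _ h1
  exact mul_inv_eq_one.1 h2

omit [Fintype A] in
theorem exists_sign {E : Emb G} {M : Subgroup G} (hS : HasSigns E M) {j : A →* G}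
    (hM : M ≤ j.range) (p : E.P) (hp : E.c p ∈ j.range) :
    ∃ ε : A →* ℂˣ, IsES E j (Same E j p) ε := by
  obtain ⟨ε, h1, h2⟩ := hS j.range hM p hp
  refine ⟨ε.comp j.rangeRestrict, fun a => h1 _, fun a q ha => ?_⟩
  have h3 := h2 (j.rangeRestrict a) q ha
  have h4 : Same E j.range.subtype p q ↔ Same E j p q := by
    constructor
    · rintro ⟨⟨_, b, rfl⟩, hb⟩
      exact ⟨b, hb⟩
    · rintro ⟨b, hb⟩
      exact ⟨⟨j b, b, rfl⟩, hb⟩
  rw [h4] at h3
  exact h3

omit [Fintype A] in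
theorem neg_one_ne : (-1 : ℂˣ) ≠ 1 := by
  intro h
  have := congrArg (fun u : ℂˣ => (u : ℂ)) h
  norm_num at this

omit [Fintype A] in
theorem sign_mul {ε ε' : A →* ℂˣ} (h : IsSign ε) (h' : IsSign ε') : IsSign (ε * ε') := by
  intro a
  rw [MonoidHom.mul_apply]
  rcases h a with h1 | h1 <;> rcases h' a with h2 | h2 <;> rw [h1, h2] <;> simp

end emb

end SBas
end StarkC
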