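import Pool.Agent.StarkS.Stmts
import Pool.Agent.StarkT.CMBT

/-!
# Stark's conjecture up to sign: module SU
-/

open NumberField IsDedekindDomain
open scoped TensorProduct Classical

namespace StarkC
namespace SU

section same

variable {G A : Type} [Group G] [Group A]

theorem same_refl (E : Emb G) (j : A →* G) (p : E.P) : Same E j p p :=
  ⟨1, by rw [map_one, E.act_one]⟩

theorem same_symm (E : Emb G) (j : A →* G) {p q : E.P} (h : Same E j p q) : Same E j q p := by
  obtain ⟨a, ha⟩ := h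
  refine ⟨a⁻¹, ?_⟩
  rw [ha, ← E.act_mul, ← map_mul, mul_inv_cancel, map_one, E.act_one]

theorem same_trans (E : Emb G) (j : A →* G) {p q s : E.P} (h : Same E j p q)
    (h' : Same E j q s) : Same E j p s := by
  obtain ⟨a, ha⟩ := h
  obtain ⟨b, hb⟩ := h'
  refine ⟨a * b, ?_⟩
  rw [hb, ha, ← E.act_mul, ← map_mul]

theorem exists_sign (E : Emb G) (M : Subgroup G) (hS : HasSigns E M) (j : A →* G)
    (hM : M ≤ j.range) (p : E.P) (hp : E.c p ∈ j.range) :
    ∃ ε : A →* ℂˣ, IsES E j (Same E j p) ε := by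
  obtain ⟨ε, h1, h2⟩ := hS j.range hM p hp
  have key : ∀ q, Same E j.range.subtype p q ↔ Same E j p q := by
    intro q
    constructor
    · rintro ⟨⟨_, a, rfl⟩, ha⟩
      exact ⟨a, ha⟩
    · rintro ⟨a, ha⟩
      exact ⟨⟨j a, a, rfl⟩, ha⟩
  refine ⟨ε.comp j.rangeRestrict, fun a => h1 _, fun a q hq => ?_⟩
  obtain ⟨h3, h4⟩ := h2 (j.rangeRestrict a) q hq
  exact ⟨fun h => h3 ((key q).2 h), fun h => h4 fun h' => h ((key q).1 h')⟩

end same

section span

variable {A : Type} [Group A]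

theorem cmul (S : Submodule ℤ (A → ℂ)) (n : ℤ) {f : A → ℂ} (hf : f ∈ S) :
    (fun a => (n : ℂ) * f a) ∈ S := by
  have h1 := S.smul_mem n hf
  have e : n • f = fun a => (n : ℂ) * f a := by
    funext a
    rw [Pi.smul_apply, zsmul_eq_mul]
  rwa [e] at h1

variable [Fintype A]

theorem one_mem : (fun _ : A => (1 : ℂ)) ∈
    CMB.GS (fun (H : Subgroup A) (ψ : H →* ℂˣ) => ψ = 1) := by
  have h1 : indFun (⊤ : Subgroup A) (extZ (1 : (⊤ : Subgroup A) →* ℂˣ)) ∈
      CMB.GS (fun (H : Subgroup A) (ψ : H →* ℂˣ) => ψ = 1) := CMB.mem_GS_of _ _ rfl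
  have e : indFun (⊤ : Subgroup A) (extZ (1 : (⊤ : Subgroup A) →* ℂˣ)) = fun _ => 1 := by
    rw [CMBT.indFun_one]
    funext g
    unfold indFun
    have hc : (Nat.card (⊤ : Subgroup A) : ℂ) = (Fintype.card A : ℂ) := by
      rw [Subgroup.card_top, Nat.card_eq_fintype_card]
    have hc0 : (Fintype.card A : ℂ) ≠ 0 := by
      exact_mod_cast Fintype.card_ne_zero
    rw [hc]
    simp only [Subgroup.mem_top, if_true, Finset.sum_const, Finset.card_univ, nsmul_eq_mul,
      mul_one]
    exact div_self hc0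
  rwa [e] at h1

theorem sign_mem (ε : A →* ℂˣ) (h : IsSign ε) : (fun a => 1 + ((ε a : ℂˣ) : ℂ)) ∈
    CMB.GS (fun (H : Subgroup A) (ψ : H →* ℂˣ) => ψ = 1) := by
  by_cases hε : ∃ g, ε g ≠ 1
  · obtain ⟨g0, hg0⟩ := hε
    have h1 : indFun ε.ker (extZ (1 : ε.ker →* ℂˣ)) ∈
        CMB.GS (fun (H : Subgroup A) (ψ : H →* ℂˣ) => ψ = 1) := CMB.mem_GS_of _ _ rfl
    rw [CMBT.indFun_one, funext fun g => CMB.half ε h g0 hg0 g] at h1
    exact h1
  · push Not at hε
    have h1 := cmul _ 2 (one_mem (A := A))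
    have e : (fun a => 1 + ((ε a : ℂˣ) : ℂ)) = fun _ : A => ((2 : ℤ) : ℂ) * 1 := by
      funext a
      rw [hε a]
      norm_num
    rw [e]
    exact h1

end span

/-- A group, in which the whole computation takes place. -/
theorem main (h1 : Stmt_STWQ) (h2 : Stmt_SSUM) (h3 : Stmt_SIDL) (h4 : Stmt_SLN1) : Stmt_SU := by
  intro G _ E _ M hE hS R A Q _ _ _ _ _ j q r hj hM hq hqM hr hQ hArt V _ _ _ ρ
  have hmulχ : ∀ g ∈ JJ E j, (fun a => ρ.character (r a) * g a) ∈ JJ E j := fun g hg =>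
    (h3 G A E j g hg).2 V (MonoidHom.comp ρ r)
  have hmulψ : ∀ (ψ : A →* ℂˣ), ∀ g ∈ JJ E j, (fun a => ((ψ a : ℂˣ) : ℂ) * g a) ∈ JJ E j :=
    fun ψ g hg => (h3 G A E j g hg).1 ψ
  have hSTW : ∀ (p : E.P) (a₀ : A), j a₀ = E.c p → ∀ ε : A →* ℂˣ, IsES E j (Same E j p) ε →
      (fun a => (ρ.character (r a) - ρ.character (r a₀)) * (1 + ((ε a : ℂˣ) : ℂ))) ∈ JJ E j :=
    h1 G E M hE hS R A Q j q r hj hM hq hqM hr hQ hArt V ρ
  refine ⟨?_, ?_⟩
  · intro t ht
    refine h2 G A E j hE _ ?_ ?_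
    · intro g hg
      have e := (JJ E j).sub_mem (hmulχ g hg) (cmul _ t hg)
      convert e using 1
      funext a
      show _ = ρ.character (r a) * g a - (t : ℂ) * g a
      ring
    · intro p hp
      obtain ⟨ε, hε⟩ := exists_sign E M hS j hM p hp
      obtain ⟨a₀, ha₀⟩ := hp
      refine ⟨ε, hε, ?_⟩
      have e := hSTW p a₀ ha₀ ε hε
      rwa [ht a₀ ⟨p, ha₀⟩] at e
  · -- representatives of the places
    let X := {p : E.P // E.c p ∈ j.range}
    let s : Setoid X := ⟨fun p q => Same E j p.1 q.1, fun p => same_refl E j p.1,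
      fun h => same_symm E j h, fun h h' => same_trans E j h h'⟩
    haveI : Finite (Quotient s) := Quotient.finite s
    letI : Fintype (Quotient s) := Fintype.ofFinite _
    choose ε hε using fun w : Quotient s =>
      exists_sign E M hS j hM (Quotient.out w).1 (Quotient.out w).2
    choose α hα using fun w : Quotient s => (Quotient.out w).2
    have hα2 : ∀ w, α w * α w = 1 := by
      intro w
      apply hj
      rw [map_mul, hα, E.c_sq, map_one]
    choose b hb using fun w : Quotient s =>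
      CMBT.char_invol ρ (r (α w)) (by rw [← map_mul, hα2, map_one])
    set d : ℕ := Module.finrank ℂ V with hd
    let y : A → ℂ := fun a => ((d : ℤ) : ℂ) * 1 -
      ∑ w : Quotient s, ((b w : ℤ) : ℂ) * (1 + ((ε w a : ℂˣ) : ℂ))
    refine ⟨y, ?_, ?_⟩
    · have e1 := cmul _ (d : ℤ) (one_mem (A := A))
      have e2 : (∑ w : Quotient s, fun a : A => ((b w : ℤ) : ℂ) * (1 + ((ε w a : ℂˣ) : ℂ))) ∈
          CMB.GS (fun (H : Subgroup A) (ψ : H →* ℂˣ) => ψ = 1) :=
        Submodule.sum_mem _ fun w _ => cmul _ (b w : ℤ) (sign_mem (ε w) (hε w).1)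
      have e3 := Submodule.sub_mem _ e1 e2
      convert e3 using 1
      funext a
      rw [Pi.sub_apply, Finset.sum_apply]
    · refine h2 G A E j hE (fun a => ρ.character (r a) - y a) ?_ ?_
      · intro g hg
        have e1 := cmul _ (d : ℤ) hg
        have e2 : (∑ w : Quotient s, fun a : A => ((b w : ℤ) : ℂ) *
            (g + fun a => ((ε w a : ℂˣ) : ℂ) * g a) a) ∈ JJ E j :=
          Submodule.sum_mem _ fun w _ => cmul _ (b w : ℤ)
            (Submodule.add_mem _ hg (hmulψ (ε w) g hg))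
        have e3 := Submodule.sub_mem _ (hmulχ g hg) (Submodule.sub_mem _ e1 e2)
        convert e3 using 1
        funext a
        rw [Pi.sub_apply, Pi.sub_apply, Finset.sum_apply]
        show (ρ.character (r a) - (((d : ℤ) : ℂ) * 1 -
          ∑ w : Quotient s, ((b w : ℤ) : ℂ) * (1 + ((ε w a : ℂˣ) : ℂ)))) * g a = _
        have e4 : ∀ w : Quotient s, ((b w : ℤ) : ℂ) * (g + fun a => ((ε w a : ℂˣ) : ℂ) * g a) a =
            ((b w : ℤ) : ℂ) * (1 + ((ε w a : ℂˣ) : ℂ)) * g a := by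
          intro w
          show ((b w : ℤ) : ℂ) * (g a + ((ε w a : ℂˣ) : ℂ) * g a) = _
          ring
        rw [Finset.sum_congr rfl fun w _ => e4 w, ← Finset.sum_mul]
        ring
      · intro p hp
        obtain ⟨δ, hδ⟩ := exists_sign E M hS j hM p hp
        refine ⟨δ, hδ, ?_⟩
        obtain ⟨a₀, ha₀⟩ := id hp
        have e1 := hSTW p a₀ ha₀ δ hδ
        have e2 : (∑ w : Quotient s, fun a : A => ((b w : ℤ) : ℂ) *
            ((((ε w a : ℂˣ) : ℂ) - ((ε w a₀ : ℂˣ) : ℂ)) * (1 + ((δ a : ℂˣ) : ℂ)))) ∈ JJ E j :=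
          Submodule.sum_mem _ fun w _ => cmul _ (b w : ℤ)
            (h4 G A E j hj hE (ε w) (hε w).1 p a₀ ha₀ δ hδ)
        have e3 := Submodule.add_mem _ e1 e2
        have hval : ρ.character (r a₀) = ((d : ℤ) : ℂ) * 1 -
            ∑ w : Quotient s, ((b w : ℤ) : ℂ) * (1 + ((ε w a₀ : ℂˣ) : ℂ)) := by
          set w₀ : Quotient s := Quotient.mk s ⟨p, hp⟩ with hw₀
          have hsame : Same E j (Quotient.out w₀).1 p := Quotient.exact (Quotient.out_eq w₀)
          have h5 : ∀ w : Quotient s, w ≠ w₀ →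
              ((b w : ℤ) : ℂ) * (1 + ((ε w a₀ : ℂˣ) : ℂ)) = 0 := by
            intro w hw
            have h6 : ¬ Same E j (Quotient.out w).1 p := by
              intro h
              apply hw
              have h7 : Quotient.mk s (Quotient.out w) = Quotient.mk s ⟨p, hp⟩ :=
                Quotient.sound h
              rwa [Quotient.out_eq] at h7
            rw [((hε w).2 a₀ p ha₀).2 h6]
            push_cast
            ring
          rw [Finset.sum_eq_single w₀ (fun w _ hw => h5 w hw)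
            (fun h => absurd (Finset.mem_univ _) h), ((hε w₀).2 a₀ p ha₀).1 hsame]
          obtain ⟨a', ha'⟩ := hsame
          have h8 : a₀ = a'⁻¹ * α w₀ * a' := by
            apply hj
            rw [ha₀, ha', E.c_act, map_mul, map_mul, map_inv, hα]
          have h9 : ρ.character (r a₀) = ρ.character (r (α w₀)) := by
            rw [h8, map_mul, map_mul, map_inv]
            have := Representation.char_conj ρ (r (α w₀)) (r a')⁻¹
            rw [inv_inv] at this
            exact this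
          rw [h9, hb w₀]
          push_cast
          ring
        convert e3 using 1
        funext a
        rw [Pi.add_apply, Finset.sum_apply]
        show (ρ.character (r a) - (((d : ℤ) : ℂ) * 1 -
          ∑ w : Quotient s, ((b w : ℤ) : ℂ) * (1 + ((ε w a : ℂˣ) : ℂ)))) *
            (1 + ((δ a : ℂˣ) : ℂ)) = _
        have e4 : ∑ w : Quotient s, ((b w : ℤ) : ℂ) *
            ((((ε w a : ℂˣ) : ℂ) - ((ε w a₀ : ℂˣ) : ℂ)) * (1 + ((δ a : ℂˣ) : ℂ))) =
            (∑ w : Quotient s, ((b w : ℤ) : ℂ) * (1 + ((ε w a : ℂˣ) : ℂ)) -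
              ∑ w : Quotient s, ((b w : ℤ) : ℂ) * (1 + ((ε w a₀ : ℂˣ) : ℂ))) *
            (1 + ((δ a : ℂˣ) : ℂ)) := by
          rw [← Finset.sum_sub_distrib, Finset.sum_mul]
          refine Finset.sum_congr rfl fun w _ => ?_
          ring
        rw [e4, hval]
        ring

end SU

theorem SU_thm (h1 : Stmt_STWQ) (h2 : Stmt_SSUM) (h3 : Stmt_SIDL) (h4 : Stmt_SLN1) : Stmt_SU :=
  SU.main h1 h2 h3 h4

end StarkC
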