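import Pool.Agent.StarkT.Stmts
import Pool.Agent.Stark.CMB
import Pool.Agent.Stark.MON

/-!
# Stark's conjecture up to sign: statements of the modules
-/

open NumberField IsDedekindDomain
open scoped TensorProduct Classical

namespace StarkC

/-! ### Abstract complex conjugations -/

/-- An abstract set of embeddings with a free right action of `G` and with complex conjugations:
`c p ∈ G` belongs to the embedding `p`. -/
structure Emb (G : Type) [Group G] where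
  P : Type
  act : P → G → P
  act_one : ∀ p, act p 1 = p
  act_mul : ∀ p g h, act p (g * h) = act (act p g) h
  free : ∀ p g, act p g = p → g = 1
  c : P → G
  c_act : ∀ p g, c (act p g) = g⁻¹ * c p * g
  c_sq : ∀ p, c p * c p = 1

section

variable {G A : Type} [Group G] [Group A]

/-- `a` is a complex conjugation. -/
def CCj (E : Emb G) (j : A →* G) (a : A) : Prop := ∃ p : E.P, j a = E.c p

/-- The integral span of the characters of `A` induced from linear characters of subgroups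
without complex conjugations. -/
def JJ [Fintype A] (E : Emb G) (j : A →* G) : Submodule ℤ (A → ℂ) :=
  CMB.GS (fun (H : Subgroup A) (_ : H →* ℂˣ) => ∀ a ∈ H, ¬ CCj E j a)

/-- A character with values `1`, `-1`. -/
def IsSign (ε : A →* ℂˣ) : Prop := ∀ a, ε a = 1 ∨ ε a = -1

/-- `ε` is a sign character of `A` with the value `1` exactly at the places in `S`. -/
def IsES (E : Emb G) (j : A →* G) (S : E.P → Prop) (ε : A →* ℂˣ) : Prop :=
  IsSign ε ∧ ∀ (a : A) (q : E.P), j a = E.c q → (S q → ε a = 1) ∧ (¬ S q → ε a = -1)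

/-- `p` and `q` define the same place of (the fixed field of) `A`. -/
def Same (E : Emb G) (j : A →* G) (p q : E.P) : Prop := ∃ a : A, q = E.act p (j a)

/-- Existence of a sign character with the value `-1` at all complex conjugations. -/
def HasMinus (E : Emb G) : Prop := ∃ e : G →* ℂˣ, IsSign e ∧ ∀ p, e (E.c p) = -1

/-- Existence of sign characters which are `1` at exactly one given place, for all subgroups
containing `M`. -/
def HasSigns (E : Emb G) (M : Subgroup G) : Prop :=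
  ∀ H : Subgroup G, M ≤ H → ∀ p, E.c p ∈ H → ∃ ε : H →* ℂˣ, IsES E H.subtype (Same E H.subtype p) ε

end

/-! ### Group theory -/

/-- `ε = -1` at all complex conjugations: `1 + ε ∈ J`. -/
def Stmt_SNEG : Prop :=
  ∀ (G A : Type) [Group G] [Group A] [Fintype A] (E : Emb G) (j : A →* G) (ε : A →* ℂˣ),
    IsSign ε → (∀ a, CCj E j a → ε a = -1) → (fun a => 1 + ((ε a : ℂˣ) : ℂ)) ∈ JJ E j

/-- `ε = 1` at all complex conjugations: `1 - ε ∈ J`. -/
def Stmt_SPOS : Prop :=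
  ∀ (G A : Type) [Group G] [Group A] [Fintype A] (E : Emb G) (j : A →* G) (ε : A →* ℂˣ),
    HasMinus E → IsSign ε → (∀ a, CCj E j a → ε a = 1) →
    (fun a => 1 - ((ε a : ℂˣ) : ℂ)) ∈ JJ E j

/-- `J` is an ideal. -/
def Stmt_SIDL : Prop :=
  ∀ (G A : Type) [Group G] [Group A] [Fintype A] (E : Emb G) (j : A →* G) (f : A → ℂ),
    f ∈ JJ E j →
    (∀ ψ : A →* ℂˣ, (fun a => ((ψ a : ℂˣ) : ℂ) * f a) ∈ JJ E j) ∧
    ∀ (V : Type) [AddCommGroup V] [Module ℂ V] [Module.Finite ℂ V] (ρ : Representation ℂ A V),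
      (fun a => ρ.character a * f a) ∈ JJ E j

/-- Induction maps `J` to `J`. -/
def Stmt_SIND : Prop :=
  ∀ (G A : Type) [Group G] [Group A] [Fintype A] (E : Emb G) (j : A →* G) (B : Subgroup A)
    (f : B → ℂ), f ∈ JJ E (j.comp B.subtype) → MON.indL B f ∈ JJ E j

/-- The flip identity. -/
def Stmt_SFLG : Prop :=
  ∀ (A : Type) [Group A] [Fintype A] (η : A →* ℂˣ) (τ : A) (ε : η.ker →* ℂˣ),
    IsSign η → η τ = -1 → IsSign ε →
    ∃ (δ : A →* ℂˣ) (μ : δ.ker →* ℂˣ), IsSign δ ∧ IsSign μ ∧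
      (∀ b b' : η.ker, (b' : A) = τ⁻¹ * b * τ → δ b = ε b * ε b') ∧
      (∀ (b : η.ker) (b' : δ.ker), (b' : A) = b → μ b' = ε b) ∧
      (δ ≠ 1 → MON.indL η.ker (fun b => ((ε b : ℂˣ) : ℂ)) =
        MON.indL δ.ker (fun b => ((μ b : ℂˣ) : ℂ)))

/-- The flip: induction of a sign character through a quadratic extension in which all real places
split. -/
def Stmt_SFLP : Prop :=
  ∀ (G A : Type) [Group G] [Group A] [Fintype A] (E : Emb G) (j : A →* G),
    Function.Injective j → HasMinus E →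
    ∀ (η : A →* ℂˣ) (τ : A), IsSign η → η τ = -1 → (∀ a, CCj E j a → η a = 1) →
    ∀ (p : E.P) (a₀ : A), j a₀ = E.c p →
    ∀ (ε : η.ker →* ℂˣ) (ε' : A →* ℂˣ),
      IsES E (j.comp η.ker.subtype) (Same E (j.comp η.ker.subtype) p) ε →
      IsES E j (Same E j p) ε' →
      (MON.indL η.ker (fun b => 1 + ((ε b : ℂˣ) : ℂ)) - fun a => 1 + ((ε' a : ℂˣ) : ℂ)) ∈ JJ E j

/-- Sign characters and one place. -/
def Stmt_SLN1 : Prop :=
  ∀ (G A : Type) [Group G] [Group A] [Fintype A] (E : Emb G) (j : A →* G),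
    Function.Injective j → HasMinus E →
    ∀ (ψ : A →* ℂˣ), IsSign ψ → ∀ (p : E.P) (a₀ : A), j a₀ = E.c p →
    ∀ ε : A →* ℂˣ, IsES E j (Same E j p) ε →
      (fun a => (((ψ a : ℂˣ) : ℂ) - ((ψ a₀ : ℂˣ) : ℂ)) * (1 + ((ε a : ℂˣ) : ℂ))) ∈ JJ E j

/-- Linear characters of 2-power order and one place. -/
def Stmt_SLIN : Prop :=
  ∀ (G : Type) [Group G] (E : Emb G) (M : Subgroup G), HasMinus E → HasSigns E M →
    ∀ (n : ℕ) (A : Type) [Group A] [Fintype A] (j : A →* G), Function.Injective j → M ≤ j.range →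
    ∀ (ψ : A →* ℂˣ), ψ ^ (2 ^ n) = 1 → (∀ a, j a ∈ M → ψ a = 1) →
    ∀ (p : E.P) (a₀ : A), j a₀ = E.c p → ∀ ε : A →* ℂˣ, IsES E j (Same E j p) ε →
      (fun a => (((ψ a : ℂˣ) : ℂ) - ((ψ a₀ : ℂˣ) : ℂ)) * (1 + ((ε a : ℂˣ) : ℂ))) ∈ JJ E j

/-- Sign characters for disjoint sets of places. -/
def Stmt_SADD : Prop :=
  ∀ (G A : Type) [Group G] [Group A] [Fintype A] (E : Emb G) (j : A →* G), HasMinus E →
    ∀ (S T : E.P → Prop) (ε₁ ε₂ ε : A →* ℂˣ), (∀ q, E.c q ∈ j.range → S q → ¬ T q) →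
      IsES E j S ε₁ → IsES E j T ε₂ → IsES E j (fun q => S q ∨ T q) ε →
      (fun a => (1 + ((ε a : ℂˣ) : ℂ)) - (1 + ((ε₁ a : ℂˣ) : ℂ)) - (1 + ((ε₂ a : ℂˣ) : ℂ))) ∈ JJ E j

/-- Monomial characters are characters of representations. -/
def Stmt_SREP : Prop :=
  ∀ (A : Type) [Group A] [Fintype A] (H : Subgroup A) (ψ : H →* ℂˣ),
    ∃ (V : Type) (_ : AddCommGroup V) (_ : Module ℂ V) (_ : Module.Finite ℂ V)
      (ρ : Representation ℂ A V), ∀ g, ρ.character g = indFun H (extZ ψ) g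

/-- Monomial characters of a 2-group and one place. -/
def Stmt_SMNX : Prop :=
  ∀ (G : Type) [Group G] (E : Emb G) (M : Subgroup G), HasMinus E → HasSigns E M →
    ∀ (n : ℕ) (A : Type) [Group A] [Fintype A] (j : A →* G), Function.Injective j → M ≤ j.range →
    ∀ (C : Subgroup A) [C.Normal], (∀ a, j a ∈ M → a ∈ C) → C.index = 2 ^ n →
    ∀ (H : Subgroup A) (ψ : H →* ℂˣ), C ≤ H → (∀ h : H, (h : A) ∈ C → ψ h = 1) →
    ∀ (p : E.P) (a₀ : A), j a₀ = E.c p → ∀ ε : A →* ℂˣ, IsES E j (Same E j p) ε →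
      (fun a => (indFun H (extZ ψ) a - indFun H (extZ ψ) a₀) * (1 + ((ε a : ℂˣ) : ℂ))) ∈ JJ E j

/-- Passage from one place to all places. -/
def Stmt_SSUM : Prop :=
  ∀ (G A : Type) [Group G] [Group A] [Fintype A] (E : Emb G) [Finite E.P] (j : A →* G),
    HasMinus E → ∀ f : A → ℂ, (∀ g ∈ JJ E j, (fun a => f a * g a) ∈ JJ E j) →
    (∀ p, E.c p ∈ j.range → ∃ ε : A →* ℂˣ, IsES E j (Same E j p) ε ∧
      (fun a => f a * (1 + ((ε a : ℂˣ) : ℂ))) ∈ JJ E j) →
    (fun a => 2 * f a) ∈ JJ E j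

/-- Clifford theory for a normal cyclic subgroup of odd order which is inverted by the elements
with the property `P`. -/
def Stmt_SCLF : Prop :=
  ∀ (Q : Type) [Group Q] [Fintype Q] (P : Q → Prop) (C : Subgroup Q) [C.Normal],
    IsCyclic C → Odd (Nat.card C) →
    ∀ (V : Type) [AddCommGroup V] [Module ℂ V] [Module.Finite ℂ V] (ρ : Representation ℂ Q V),
      (∀ c, P c → ∀ u ∈ C, ρ (c⁻¹ * u * c) = ρ u⁻¹) →
      ∃ (V' : Type) (_ : AddCommGroup V') (_ : Module ℂ V') (_ : Module.Finite ℂ V')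
        (ρ' : Representation ℂ Q V'), (∀ u ∈ C, ρ' u = 1) ∧
        (fun g => ρ.character g - ρ'.character g) ∈
          CMB.GS (fun (H : Subgroup Q) (_ : H →* ℂˣ) => ∀ c ∈ H, ¬ P c)

/-- Characters of a 2-quasi-elementary quotient and one place. -/
def Stmt_STWQ : Prop :=
  ∀ (G : Type) [Group G] (E : Emb G) (M : Subgroup G), HasMinus E → HasSigns E M →
    ∀ (R A Q : Type) [Group R] [Group A] [Fintype A] [Group Q] [Fintype Q] (j : A →* G)
      (q : A →* Q) (r : A →* R), Function.Injective j → M ≤ j.range → Function.Surjective q →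
      (∀ a, q a = 1 ↔ j a ∈ M) → (∀ a, q a = 1 → r a = 1) → IsQuasiElemP 2 Q →
      (∀ c u, CCj E j c → q (u * c) = q (c * u) → r u = 1 ∨ r u = r c) →
    ∀ (V : Type) [AddCommGroup V] [Module ℂ V] [Module.Finite ℂ V] (ρ : Representation ℂ R V)
      (p : E.P) (a₀ : A), j a₀ = E.c p → ∀ ε : A →* ℂˣ, IsES E j (Same E j p) ε →
      (fun a => (ρ.character (r a) - ρ.character (r a₀)) * (1 + ((ε a : ℂˣ) : ℂ))) ∈ JJ E j

/-- The conclusion for 2-quasi-elementary quotients. -/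
def Stmt_SU : Prop :=
  ∀ (G : Type) [Group G] (E : Emb G) [Finite E.P] (M : Subgroup G), HasMinus E → HasSigns E M →
    ∀ (R A Q : Type) [Group R] [Group A] [Fintype A] [Group Q] [Fintype Q] (j : A →* G)
      (q : A →* Q) (r : A →* R), Function.Injective j → M ≤ j.range → Function.Surjective q →
      (∀ a, q a = 1 ↔ j a ∈ M) → (∀ a, q a = 1 → r a = 1) → IsQuasiElemP 2 Q →
      (∀ c u, CCj E j c → q (u * c) = q (c * u) → r u = 1 ∨ r u = r c) →
    ∀ (V : Type) [AddCommGroup V] [Module ℂ V] [Module.Finite ℂ V] (ρ : Representation ℂ R V),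
      (∀ t : ℤ, (∀ a, CCj E j a → ρ.character (r a) = (t : ℂ)) →
        (fun a => 2 * (ρ.character (r a) - (t : ℂ))) ∈ JJ E j) ∧
      ∃ y : A → ℂ, y ∈ CMB.GS (fun (H : Subgroup A) (ψ : H →* ℂˣ) => ψ = 1) ∧
        (fun a => 2 * (ρ.character (r a) - y a)) ∈ JJ E j

/-! ### Arithmetic -/

/-- Weak approximation: an element of the fixed field of `H` which is positive at exactly one real
place. -/
def Stmt_SAP : Prop :=
  ∀ (K N : Type) [Field K] [NumberField K] [Field N] [NumberField N] [Algebra K N] [IsGalois K N]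
    (H : Subgroup (N ≃ₐ[K] N)) (Φ₀ : N →+* ℂ),
    ∃ α : N, (∀ h ∈ H, h α = α) ∧ ∀ (Φ : N →+* ℂ) (c : N ≃ₐ[K] N), c ∈ H →
      ComplexEmbedding.IsConj Φ c →
        ((∃ h ∈ H, Φ = Φ₀.comp (h : N →+* N)) → 0 < (Φ α).re) ∧
        ((¬ ∃ h ∈ H, Φ = Φ₀.comp (h : N →+* N)) → (Φ α).re < 0)

/-- The fields. -/
def Stmt_SFD : Prop :=
  ∀ (K L : Type) [Field K] [NumberField K] [Field L] [NumberField L] [Algebra K L] [IsGalois K L],
    ∃ (N N' : Type) (_ : Field N) (_ : NumberField N) (_ : Algebra K N) (_ : Algebra L N)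
      (_ : IsScalarTower K L N) (_ : IsGalois K N) (_ : Field N') (_ : NumberField N')
      (_ : Algebra K N') (_ : Algebra N N') (_ : Algebra L N') (_ : IsScalarTower K N N')
      (_ : IsScalarTower L N N') (_ : IsScalarTower K L N') (_ : IsGalois K N'),
      (∀ (Φ : N →+* ℂ) (c u : N ≃ₐ[K] N), ComplexEmbedding.IsConj Φ c → u * c = c * u →
        AlgEquiv.restrictNormalHom L u = (1 : L ≃ₐ[K] L) ∨
          AlgEquiv.restrictNormalHom L u = (AlgEquiv.restrictNormalHom L c : L ≃ₐ[K] L)) ∧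
      (∃ y : N', y ^ 2 = -1) ∧
      ∀ (H : Subgroup (N ≃ₐ[K] N)) (Φ₀ : N →+* ℂ), ∃ (α : N) (y : N'),
        y ^ 2 = algebraMap N N' α ∧ (∀ h ∈ H, h α = α) ∧
        ∀ (Φ : N →+* ℂ) (c : N ≃ₐ[K] N), c ∈ H → ComplexEmbedding.IsConj Φ c →
          ((∃ h ∈ H, Φ = Φ₀.comp (h : N →+* N)) → 0 < (Φ α).re) ∧
          ((¬ ∃ h ∈ H, Φ = Φ₀.comp (h : N →+* N)) → (Φ α).re < 0)

/-- The abstract data of a Galois extension. -/
noncomputable def galEmb (K N : Type) [Field K] [NumberField K] [Field N] [NumberField N]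
    [Algebra K N] : Emb (N ≃ₐ[K] N) where
  P := {Φ : N →+* ℂ // ∃ c : N ≃ₐ[K] N, ComplexEmbedding.IsConj Φ c}
  act p g := ⟨p.1.comp (g : N →+* N), g⁻¹ * p.2.choose * g, p.2.choose_spec.comp g⟩
  act_one p := by
    apply Subtype.ext
    ext x
    rfl
  act_mul p g h := by
    apply Subtype.ext
    ext x
    rfl
  free p g h := by
    ext x
    have h1 := RingHom.congr_fun (congrArg Subtype.val h) x
    exact p.1.injective h1
  c p := p.2.choose
  c_act p g := by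
    set q : {Φ : N →+* ℂ // ∃ c : N ≃ₐ[K] N, ComplexEmbedding.IsConj Φ c} :=
      ⟨p.1.comp (g : N →+* N), g⁻¹ * p.2.choose * g, p.2.choose_spec.comp g⟩ with hq
    exact q.2.choose_spec.ext (p.2.choose_spec.comp g)
  c_sq p := by
    ext x
    exact ComplexEmbedding.isConj_apply_apply p.2.choose_spec x

/-- The hypotheses on the abstract data hold. -/
def Stmt_SHS : Prop :=
  ∀ (K N N' : Type) [Field K] [NumberField K] [Field N] [NumberField N] [Field N'] [NumberField N']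
    [Algebra K N] [Algebra K N'] [Algebra N N'] [IsScalarTower K N N'] [IsGalois K N]
    [IsGalois K N'],
    (∃ y : N', y ^ 2 = -1) →
    (∀ (H : Subgroup (N ≃ₐ[K] N)) (Φ₀ : N →+* ℂ), ∃ (α : N) (y : N'),
        y ^ 2 = algebraMap N N' α ∧ (∀ h ∈ H, h α = α) ∧
        ∀ (Φ : N →+* ℂ) (c : N ≃ₐ[K] N), c ∈ H → ComplexEmbedding.IsConj Φ c →
          ((∃ h ∈ H, Φ = Φ₀.comp (h : N →+* N)) → 0 < (Φ α).re) ∧
          ((¬ ∃ h ∈ H, Φ = Φ₀.comp (h : N →+* N)) → (Φ α).re < 0)) →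
    Finite (galEmb K N').P ∧ HasMinus (galEmb K N') ∧
      HasSigns (galEmb K N')
        (AlgEquiv.restrictNormalHom N : (N' ≃ₐ[K] N') →* (N ≃ₐ[K] N)).ker

/-- `2χ` is a combination of characters induced from totally complex fields and of doubles of
trivial characters. -/
def Stmt_CMBS : Prop :=
  ∀ (K L : Type) [Field K] [NumberField K] [Field L] [NumberField L] [Algebra K L] [IsGalois K L]
    (V : Type) [AddCommGroup V] [Module ℂ V] [Module.Finite ℂ V]
    (ρ : Representation ℂ (L ≃ₐ[K] L) V),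
    ∃ (N : Type) (_ : Field N) (_ : NumberField N) (_ : Algebra K N)
      (_ : Algebra L N) (_ : IsScalarTower K L N) (_ : IsGalois K N)
      (m : ℕ) (H : Fin m → Subgroup (N ≃ₐ[K] N)) (ψ : ∀ i, H i →* ℂˣ) (n : Fin m → ℤ)
      (k : Fin m → ℕ),
      (∀ i, ((∀ c ∈ H i, ¬ IsCC c) ∧ k i = 1) ∨ (ψ i = 1 ∧ k i = 2)) ∧
      ∀ g : N ≃ₐ[K] N, (2 : ℂ) * ρ.character (AlgEquiv.restrictNormalHom L g) =
        ∑ i, (n i : ℂ) * ((k i : ℂ) * indFun (H i) (extZ (ψ i)) g)

/-- If `χ` takes the value `t` at all complex conjugations then `2 (χ - t)` is a combination of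
characters induced from totally complex fields. -/
def Stmt_CMBSQ : Prop :=
  ∀ (K L : Type) [Field K] [NumberField K] [Field L] [NumberField L] [Algebra K L] [IsGalois K L]
    (V : Type) [AddCommGroup V] [Module ℂ V] [Module.Finite ℂ V]
    (ρ : Representation ℂ (L ≃ₐ[K] L) V) (t : ℤ),
    (∀ c : L ≃ₐ[K] L, IsCC c → ρ.character c = (t : ℂ)) →
    ∃ (N : Type) (_ : Field N) (_ : NumberField N) (_ : Algebra K N)
      (_ : Algebra L N) (_ : IsScalarTower K L N) (_ : IsGalois K N)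
      (m : ℕ) (H : Fin m → Subgroup (N ≃ₐ[K] N)) (ψ : ∀ i, H i →* ℂˣ) (n : Fin m → ℤ),
      (∀ i, ∀ c ∈ H i, ¬ IsCC c) ∧
      ∀ g : N ≃ₐ[K] N, (2 : ℂ) * ρ.character (AlgEquiv.restrictNormalHom L g) =
        ∑ i, (n i : ℂ) * indFun (H i) (extZ (ψ i)) g + 2 * (t : ℂ)

/-! ### The relation with a fixed exponent -/

/-- The relation for a linear character and its `σ`-conjugate, all `S`, `φ`, exponent `k`. -/
def RelLin (R : Set (ℂ × ℂ)) (k : ℕ) (σ : ℂ ≃+* ℂ) (K L : Type) [Field K] [NumberField K] [Field L]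
    [NumberField L] [Algebra K L] (ψ : (L ≃ₐ[K] L) →* ℂˣ) : Prop :=
  ∀ (S : Finset (HeightOneSpectrum (𝓞 K)))
    (φ : XQ L (aboveSet K L S) ≃ₗ[ℚ] QU L (aboveSet K L S))
    (Θ : XC L (aboveSet K L S) →ₗ[ℂ] XC L (aboveSet K L S)),
    IsPhiTheta K (aboveSet K L S) φ Θ →
    RelAt R k (S : Set (HeightOneSpectrum (𝓞 K))) (aboveSet K L S) Θ
      (linRep ψ) (linRep (twist σ ψ))

/-- The relation with the exponent `e` for linear characters over totally complex base fields. -/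
def RelTCe (R : Set (ℂ × ℂ)) (e : ℕ) (σ : ℂ ≃+* ℂ) : Prop :=
  ∀ (K L : Type) [Field K] [NumberField K] [Field L] [NumberField L] [Algebra K L] [IsGalois K L]
    (ψ : (L ≃ₐ[K] L) →* ℂˣ), IsTotallyComplex K → RelLin R e σ K L ψ

/-- Induction from subfields, with exponents. -/
def Stmt_INDS : Prop :=
  ∀ (R : Set (ℂ × ℂ)), IsRel R → ∀ (σ : ℂ ≃+* ℂ)
    (K N : Type) [Field K] [NumberField K] [Field N] [NumberField N] [Algebra K N] [IsGalois K N]
    (S : Finset (HeightOneSpectrum (𝓞 K)))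
    (φ : XQ N (aboveSet K N S) ≃ₗ[ℚ] QU N (aboveSet K N S))
    (Θ : XC N (aboveSet K N S) →ₗ[ℂ] XC N (aboveSet K N S))
    (V V' : Type) [AddCommGroup V] [Module ℂ V] [Module.Finite ℂ V]
    [AddCommGroup V'] [Module ℂ V'] [Module.Finite ℂ V']
    (ρ : Representation ℂ (N ≃ₐ[K] N) V) (ρ' : Representation ℂ (N ≃ₐ[K] N) V')
    (M m : ℕ) (H : Fin m → Subgroup (N ≃ₐ[K] N)) (ψ : ∀ i, H i →* ℂˣ) (n : Fin m → ℤ)
    (k : Fin m → ℕ),
    IsPhiTheta K (aboveSet K N S) φ Θ → (∀ g, ρ'.character g = σ (ρ.character g)) →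
    (∀ g, (M : ℂ) * ρ.character g =
      ∑ i, (n i : ℂ) * ((k i : ℂ) * indFun (H i) (extZ (ψ i)) g)) →
    (∀ i, RelLin R (k i) σ (IntermediateField.fixedField (H i)) N (liftChar (H i) (ψ i))) →
    RelAt R M (S : Set (HeightOneSpectrum (𝓞 K))) (aboveSet K N S) Θ ρ ρ'

/-- The trivial character over a field of degree 1. -/
def Stmt_QCS : Prop :=
  ∀ (R : Set (ℂ × ℂ)), IsRel R → ∀ (σ : ℂ ≃+* ℂ) (e : ℕ)
    (K L : Type) [Field K] [NumberField K] [Field L] [NumberField L] [Algebra K L] [IsGalois K L],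
    Module.finrank ℚ K = 1 → RelLin R e σ K L 1

/-- The trivial character over all number fields. -/
def Stmt_TRIVS : Prop :=
  ∀ (R : Set (ℂ × ℂ)), IsRel R → ∀ (σ : ℂ ≃+* ℂ) (e : ℕ), RelTCe R e σ →
  ∀ (K L : Type) [Field K] [NumberField K] [Field L] [NumberField L] [Algebra K L] [IsGalois K L],
    RelLin R (2 * e) σ K L 1

/-- The reduction, for a general relation. -/
def Stmt_RMAINS : Prop :=
  ∀ (R : Set (ℂ × ℂ)), IsRel R → ∀ (σ : ℂ ≃+* ℂ) (e : ℕ), RelTCe R e σ →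
  ∀ (K L : Type) [Field K] [NumberField K] [Field L] [NumberField L] [Algebra K L] [IsGalois K L]
    (S : Finset (HeightOneSpectrum (𝓞 K)))
    (φ : XQ L (aboveSet K L S) ≃ₗ[ℚ] QU L (aboveSet K L S))
    (Θ : XC L (aboveSet K L S) →ₗ[ℂ] XC L (aboveSet K L S))
    (V V' : Type) [AddCommGroup V] [Module ℂ V] [Module.Finite ℂ V]
    [AddCommGroup V'] [Module ℂ V'] [Module.Finite ℂ V']
    (ρ : Representation ℂ (L ≃ₐ[K] L) V) (ρ' : Representation ℂ (L ≃ₐ[K] L) V'),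
    IsPhiTheta K (aboveSet K L S) φ Θ → (∀ g, ρ'.character g = σ (ρ.character g)) →
    RelAt R (2 * e) (S : Set (HeightOneSpectrum (𝓞 K))) (aboveSet K L S) Θ ρ ρ'

end StarkC
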