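import Pool.Agent.StarkS.Stmts
import Pool.Agent.StarkT.QC

/-!
# Module SS_QCS: the trivial character over a field of degree 1, with a fixed exponent
-/

open NumberField IsDedekindDomain
open scoped TensorProduct Classical

namespace StarkC

open QC in
/-- MODULE SS_QCS -/
theorem QCS_thm (hDESC : Stmt_DESC) (hREG1 : Stmt_REG1) (hREGS : Stmt_REGS) (hEUL : Stmt_EUL)
    (hZETA : Stmt_ZETA) (hMZ : Stmt_MZ) (hLEUL : Stmt_LEUL) (hLINF : Stmt_LINF)
    (hEXPH : Stmt_EXPH) : Stmt_QCS := by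
  intro R hR σ e K L _ _ _ _ _ _ hK S φ Θ hΦ
  rw [twist_one]
  obtain ⟨φ', Θ', hΦ', hReg⟩ := hDESC K L S φ Θ hΦ
  have h0 := hEXPH K K ∅
  rw [aboveSet_self] at h0
  obtain ⟨φ₀, Θ₀, hΦ₀⟩ := h0
  obtain ⟨q, hq, hdet⟩ := hREGS K ∅ S (Finset.empty_subset S) φ₀ Θ₀ φ' Θ' hΦ₀ hΦ'
  have hdet0 : LinearMap.det Θ₀ = 1 := by
    have hs : Subsingleton (XC K ((∅ : Finset (HeightOneSpectrum (𝓞 K))) :
        Set (HeightOneSpectrum (𝓞 K)))) := by
      rw [Finset.coe_empty]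
      exact subs K hK
    have h1 : Θ₀ = LinearMap.id := Subsingleton.elim _ _
    rw [h1, LinearMap.det_id]
  rw [hREG1 K _ Θ' S.finite_toSet] at hReg
  rw [hdet0, mul_one, Finset.sdiff_empty] at hdet
  set P : ℂ := ∏ v ∈ S, ((Real.log (Ideal.absNorm v.asIdeal) : ℝ) : ℂ) with hP
  have hP0 : P ≠ 0 := by
    rw [hP, Finset.prod_ne_zero_iff]
    intro v _
    rw [Ne, Complex.ofReal_eq_zero]
    have h2 : (1 : ℝ) < Ideal.absNorm v.asIdeal := by exact_mod_cast absNorm_gt K v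
    exact (Real.log_pos h2).ne'
  -- the function
  set F : HeightOneSpectrum (𝓞 K) → ℂ → ℂ :=
    fun v s => 1 - ((Ideal.absNorm v.asIdeal : ℕ) : ℂ) ^ (-s) with hF
  set f : ℂ → ℂ := fun s => riemannZeta s * ∏ v ∈ S, F v s with hf
  have hFm : ∀ z, MeromorphicAt (fun s => ∏ v ∈ S, F v s) z := fun z =>
    MeromorphicAt.fun_prod fun v _ => (hLEUL _ (absNorm_gt K v)).1 z
  have hfm : ∀ z, MeromorphicAt f z := fun z => (hMZ.1 z).mul (hFm z)
  have hfL : IsArtinLMul e (linRep (1 : (L ≃ₐ[K] L) →* ℂˣ)).character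
      (S : Set (HeightOneSpectrum (𝓞 K))) (f ^ e) := by
    refine ⟨fun z => (hfm z).pow e, fun s hs => ?_⟩
    rw [char_one, Pi.pow_apply, Complex.exp_nat_mul, logL_eq hLINF]
    have h1 := hEUL K ∅ S (Finset.empty_subset S) s hs
    rw [h1, Finset.coe_empty, hZETA K hK s hs, Finset.sdiff_empty]
  have hlead : meromorphicTrailingCoeffAt f 0 = (-1 / 2) * P := by
    have h1 : meromorphicTrailingCoeffAt f 0 = meromorphicTrailingCoeffAt riemannZeta 0 *
        meromorphicTrailingCoeffAt (fun s => ∏ v ∈ S, F v s) 0 :=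
      (hMZ.1 0).meromorphicTrailingCoeffAt_mul (hFm 0)
    rw [h1, hMZ.2, meromorphicTrailingCoeffAt_fun_prod
      (fun v _ => (hLEUL _ (absNorm_gt K v)).1 0)]
    congr 1
    exact Finset.prod_congr rfl fun v _ => (hLEUL _ (absNorm_gt K v)).2
  have hleade : meromorphicTrailingCoeffAt (f ^ e) 0 = ((-1 / 2) * P) ^ e := by
    rw [(hfm 0).meromorphicTrailingCoeffAt_pow, hlead]
  refine ⟨f ^ e, f ^ e, hfL, hfL, ?_⟩
  rw [← hReg, hdet, hleade, ← div_pow]
  have h1 : (q : ℂ) * P / (-1 / 2 * P) = ((-2 * q : ℚ) : ℂ) := by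
    push_cast
    field_simp
  rw [h1, ← Rat.cast_pow]
  exact hR.rat _

end StarkC
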