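import Pool.Agent.StarkS.Stmts

/-!
# Sign characters for disjoint sets of places (module SADD)
-/

open NumberField
open scoped Classical

namespace StarkC
namespace SADD

variable {A : Type} [Group A] [Fintype A]

theorem indL_restrict (H : Subgroup A) (f : A → ℂ) :
    MON.indL H (fun h : H => f h) = indFun H f := by
  funext g
  rw [MON.indL_apply]
  unfold indFun
  congr 1

omit [Fintype A] in
theorem val_sq {ε : A →* ℂˣ} (h : IsSign ε) (a : A) : ((ε a : ℂˣ) : ℂ) * ((ε a : ℂˣ) : ℂ) = 1 := by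
  rcases h a with h1 | h1 <;> rw [h1] <;> simp

theorem jj_mem {G A : Type} [Group G] [Group A] {i₁ i₂ : Fintype A} {E : Emb G} {j : A →* G}
    {f : A → ℂ} (h : f ∈ @JJ G A _ _ i₁ E j) : f ∈ @JJ G A _ _ i₂ E j := by
  rw [Subsingleton.elim i₂ i₁]
  exact h

end SADD

open SADD in
theorem SADD_thm (h1 : Stmt_SNEG) (h2 : Stmt_SPOS) (h3 : Stmt_SIDL) (h4 : Stmt_SIND) :
    Stmt_SADD := by
  intro G A _ _ _ E j hM S T ε₁ ε₂ ε hdisj hε₁ hε₂ hε
  obtain ⟨e, he, hec⟩ := hM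
  -- the values at the conjugations
  have v₁S : ∀ (a : A) (q : E.P), j a = E.c q → S q → ε₁ a = 1 := fun a q hq hS =>
    (hε₁.2 a q hq).1 hS
  have v₂S : ∀ (a : A) (q : E.P), j a = E.c q → S q → ε₂ a = -1 := fun a q hq hS =>
    (hε₂.2 a q hq).2 (hdisj q ⟨a, hq⟩ hS)
  -- `e ∘ j`
  set e' : A →* ℂˣ := e.comp j with he'
  have he's : IsSign e' := fun a => he (j a)
  have he'c : ∀ a, CCj E j a → e' a = -1 := by
    rintro a ⟨q, hq⟩
    rw [he', MonoidHom.comp_apply, hq, hec]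
  have hne : (1 : ℂˣ) ≠ -1 := by
    intro h
    have h' := congrArg (fun u : ℂˣ => (u : ℂ)) h
    simp only [Units.val_neg, Units.val_one] at h'
    norm_num at h'
  -- the product `(1 + ε₁) (1 + ε₂)`
  have hprod : (fun a => (1 + ((ε₁ a : ℂˣ) : ℂ)) * (1 + ((ε₂ a : ℂˣ) : ℂ))) ∈ JJ E j := by
    by_cases hc : ∀ a, ε₁ a = 1
    · have hneg : ∀ a, CCj E j a → ε₂ a = -1 := by
        rintro a ⟨q, hq⟩
        by_cases hS : S q
        · exact v₂S a q hq hS
        · exact absurd ((hc a).symm.trans ((hε₁.2 a q hq).2 hS)) hne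
      have h5 := h1 G A E j ε₂ hε₂.1 hneg
      have h6 : (fun a => (1 + ((ε₁ a : ℂˣ) : ℂ)) * (1 + ((ε₂ a : ℂˣ) : ℂ))) =
          (2 : ℤ) • (fun a => 1 + ((ε₂ a : ℂˣ) : ℂ)) := by
        funext a
        rw [Pi.smul_apply, hc a, zsmul_eq_mul]
        push_cast
        ring
      rw [h6]
      exact Submodule.smul_mem _ _ h5
    · push Not at hc
      obtain ⟨g0, hg0⟩ := hc
      have hneg : ∀ b : ε₁.ker, CCj E (j.comp ε₁.ker.subtype) b →
          (ε₂.comp ε₁.ker.subtype) b = -1 := by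
        rintro b ⟨q, hq⟩
        have hq' : j (b : A) = E.c q := hq
        have hb : ε₁ (b : A) = 1 := b.2
        by_cases hS : S q
        · exact v₂S b q hq' hS
        · exact absurd (hb.symm.trans ((hε₁.2 b q hq').2 hS)) hne
      have h5 := h1 G ε₁.ker E (j.comp ε₁.ker.subtype) (ε₂.comp ε₁.ker.subtype)
        (fun b => hε₂.1 b) hneg
      have h6 : MON.indL ε₁.ker
          (fun b : ε₁.ker => 1 + (((ε₂.comp ε₁.ker.subtype) b : ℂˣ) : ℂ)) ∈ JJ E j := by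
        apply h4
        exact jj_mem h5
      have h7 : MON.indL ε₁.ker
          (fun b : ε₁.ker => 1 + (((ε₂.comp ε₁.ker.subtype) b : ℂˣ) : ℂ)) =
          (fun a => (1 + ((ε₁ a : ℂˣ) : ℂ)) * (1 + ((ε₂ a : ℂˣ) : ℂ))) := by
        have h8 := indL_restrict ε₁.ker (fun a : A => 1 + ((ε₂ a : ℂˣ) : ℂ))
        have h9 : (fun b : ε₁.ker => 1 + (((ε₂.comp ε₁.ker.subtype) b : ℂˣ) : ℂ)) =
            (fun b : ε₁.ker => 1 + ((ε₂ (b : A) : ℂˣ) : ℂ)) := rfl
        rw [h9, h8]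
        funext a
        rw [CMB.indFun_class, CMB.half ε₁ hε₁.1 g0 hg0, mul_comm]
        intro x g
        show 1 + ((ε₂ (x⁻¹ * g * x) : ℂˣ) : ℂ) = 1 + ((ε₂ g : ℂˣ) : ℂ)
        rw [map_mul, map_mul, map_inv, mul_comm, ← mul_assoc, mul_inv_cancel, one_mul]
      rw [← h7]
      exact h6
  -- the product of the four sign characters
  set ψ : A →* ℂˣ := ε * (e' * (ε₁ * ε₂)) with hψ
  have hψs : IsSign ψ := by
    intro a
    rw [hψ]
    simp only [MonoidHom.mul_apply]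
    rcases hε.1 a with h | h <;> rcases he's a with h' | h' <;> rcases hε₁.1 a with h'' | h'' <;>
      rcases hε₂.1 a with h''' | h''' <;> rw [h, h', h'', h'''] <;> simp
  have hψc : ∀ a, CCj E j a → ψ a = 1 := by
    rintro a ⟨q, hq⟩
    rw [hψ]
    simp only [MonoidHom.mul_apply]
    rw [he'c a ⟨q, hq⟩]
    by_cases hS : S q
    · rw [v₁S a q hq hS, v₂S a q hq hS, (hε.2 a q hq).1 (Or.inl hS)]
      simp
    · rw [(hε₁.2 a q hq).2 hS]
      by_cases hT : T q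
      · rw [(hε₂.2 a q hq).1 hT, (hε.2 a q hq).1 (Or.inr hT)]
        simp
      · rw [(hε₂.2 a q hq).2 hT, (hε.2 a q hq).2 (fun h => h.elim hS hT)]
        simp
  have h5 := (h3 G A E j _ (h2 G A E j ψ ⟨e, he, hec⟩ hψs hψc)).1 ε
  have h6 := (h3 G A E j _ (h1 G A E j e' he's he'c)).1 (ε₁ * ε₂)
  have h7 := Submodule.sub_mem _ (Submodule.add_mem _ h5 h6) hprod
  convert h7 using 1
  funext a
  have hsq := val_sq hε.1 a
  simp only [Pi.sub_apply, Pi.add_apply, hψ, MonoidHom.mul_apply, Units.val_mul]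
  linear_combination (((e' a : ℂˣ) : ℂ) * (((ε₁ a : ℂˣ) : ℂ) * ((ε₂ a : ℂˣ) : ℂ))) * hsq

end StarkC
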