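import Pool.Agent.StarkS.Stmts
import Pool.Agent.Stark.AR2

/-!
# SAP: an element of the fixed field which is positive at exactly one real place
-/

open NumberField IsDedekindDomain
open scoped TensorProduct Classical

namespace StarkC

namespace SAP

set_option linter.unusedSectionVars false

variable {K N : Type} [Field K] [NumberField K] [Field N] [NumberField N] [Algebra K N]

theorem key (H : Subgroup (N ≃ₐ[K] N)) (Φ₀ Φ : N →+* ℂ) (c : N ≃ₐ[K] N) (hc : c ∈ H)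
    (hconj : ComplexEmbedding.IsConj Φ c) (h : N ≃ₐ[K] N) (hh : h ∈ H) :
    (∃ h' ∈ H, InfinitePlace.mk (Φ₀.comp ((h' : N ≃ₐ[K] N) : N →+* N)) =
      InfinitePlace.mk (Φ.comp (h : N →+* N))) ↔
      ∃ h' ∈ H, Φ = Φ₀.comp ((h' : N ≃ₐ[K] N) : N →+* N) := by
  constructor
  · rintro ⟨h', hh', he⟩
    rcases InfinitePlace.mk_eq_iff.mp he with h1 | h1
    · refine ⟨h' * h⁻¹, H.mul_mem hh' (H.inv_mem hh), ?_⟩
      ext x
      have h2 := RingHom.congr_fun h1 (h⁻¹ x)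
      have h3 : h (h⁻¹ x) = x := h.apply_symm_apply x
      have h4 : Φ₀ (h' (h⁻¹ x)) = Φ (h (h⁻¹ x)) := h2
      rw [h3] at h4
      exact h4.symm
    · refine ⟨h' * h⁻¹ * c⁻¹, H.mul_mem (H.mul_mem hh' (H.inv_mem hh)) (H.inv_mem hc), ?_⟩
      ext x
      have h2 := RingHom.congr_fun h1 (h⁻¹ (c⁻¹ x))
      have h3 : h (h⁻¹ (c⁻¹ x)) = c⁻¹ x := h.apply_symm_apply _
      have h4 : (starRingEnd ℂ) (Φ₀ (h' (h⁻¹ (c⁻¹ x)))) = Φ (h (h⁻¹ (c⁻¹ x))) := h2
      rw [h3] at h4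
      have h5 : (starRingEnd ℂ) (Φ (c⁻¹ x)) = Φ (c (c⁻¹ x)) :=
        (ComplexEmbedding.IsConj.eq hconj (c⁻¹ x)).symm
      have h6 : c (c⁻¹ x) = x := c.apply_symm_apply x
      rw [h6, ← h4, Complex.conj_conj] at h5
      exact h5.symm
  · rintro ⟨h', hh', rfl⟩
    exact ⟨h' * h, H.mul_mem hh' hh, rfl⟩

end SAP

open AR2 SAP in
theorem SAP_thm : Stmt_SAP := by
  intro K N _ _ _ _ _ _ H Φ₀
  obtain ⟨β, hβ⟩ := weak N (fun v => if ∃ h' ∈ H,
    InfinitePlace.mk (Φ₀.comp ((h' : N ≃ₐ[K] N) : N →+* N)) = v then 1 else -1)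
  refine ⟨∑ h : H, (h : N ≃ₐ[K] N) β, ?_, ?_⟩
  · intro h hh
    rw [map_sum]
    apply Fintype.sum_equiv (Equiv.mulLeft (⟨h, hh⟩ : H))
    intro x
    simp
  · intro Φ c hc hconj
    have hre : ∀ h : H, ∀ t : N, ∀ r : ℝ, (Φ ((h : N ≃ₐ[K] N) t) = (r : ℂ)) →
        InfinitePlace.mk (Φ.comp ((h : N ≃ₐ[K] N) : N →+* N)) (β - t) < 1 →
        |(Φ ((h : N ≃ₐ[K] N) β)).re - r| < 1 := by
      intro h t r ht hlt
      rw [InfinitePlace.apply] at hlt
      have e : (Φ.comp ((h : N ≃ₐ[K] N) : N →+* N)) (β - t) = Φ ((h : N ≃ₐ[K] N) β) - (r : ℂ) := by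
        rw [map_sub, RingHom.comp_apply, RingHom.comp_apply, ← ht]
        rfl
      rw [e] at hlt
      have := Complex.abs_re_le_norm (Φ ((h : N ≃ₐ[K] N) β) - (r : ℂ))
      rw [Complex.sub_re, Complex.ofReal_re] at this
      linarith
    have hne : (Finset.univ : Finset H).Nonempty := ⟨1, Finset.mem_univ _⟩
    rw [map_sum, Complex.re_sum]
    constructor
    · intro h1
      apply Finset.sum_pos _ hne
      intro h _
      have h3 := hβ (InfinitePlace.mk (Φ.comp ((h : N ≃ₐ[K] N) : N →+* N)))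
      rw [if_pos ((key H Φ₀ Φ c hc hconj h h.2).2 h1)] at h3
      have h4 := hre h 1 1 (by simp) h3
      rw [abs_lt] at h4
      linarith [h4.1]
    · intro h1
      apply Finset.sum_neg _ hne
      intro h _
      have h3 := hβ (InfinitePlace.mk (Φ.comp ((h : N ≃ₐ[K] N) : N →+* N)))
      rw [if_neg (fun h2 => h1 ((key H Φ₀ Φ c hc hconj h h.2).1 h2))] at h3
      have h4 := hre h (-1) (-1) (by simp) h3
      rw [abs_lt] at h4
      linarith [h4.2]

end StarkC
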