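import Pool.Agent.StarkS.Stmts

/-!
# SCLF: Clifford theory for a normal cyclic subgroup of odd order
-/

open scoped Classical

namespace StarkC.SCLF

open MON

section avg

variable {G : Type} [Group G]
variable {V : Type} [AddCommGroup V] [Module ℂ V]

/-- An irreducible representation is induced from the stabiliser of an eigenspace. -/
theorem avg' [Fintype G] [Module.Finite ℂ V] (ρ : Representation ℂ G V)
    (hirr : ∀ W : Submodule ℂ V, (∀ g, ∀ v ∈ W, ρ g v ∈ W) → W = ⊥ ∨ W = ⊤) (a : G)
    (ha : ¬ IsScal ρ a)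
    (hy : ∀ (y : G) (l : ℂ), ∃ m : ℂ, ∀ v, ρ a v = l • v → ρ (y⁻¹ * a * y) v = m • v) :
    ∃ (l : ℂ) (W : Submodule ℂ V) (hW : ∀ g ∈ stab ρ W, ∀ v ∈ W, ρ g v ∈ W),
      (∀ v, v ∈ W ↔ ρ a v = l • v) ∧ W ≠ ⊥ ∧
      ρ.character = indL (stab ρ W) (sub ρ (stab ρ W) W hW).character := by
  have hnt : Nontrivial V := by
    by_contra h
    rw [not_nontrivial_iff_subsingleton] at h
    exact ha ⟨0, fun v => Subsingleton.elim _ _⟩
  obtain ⟨l, hl⟩ := Module.End.exists_eigenvalue (ρ a)
  obtain ⟨w, hw⟩ := hl.exists_hasEigenvector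
  have hw0 : w ≠ 0 := hw.2
  have hwe : ρ a w = l • w := hw.apply_eq_smul
  obtain ⟨P, hP1, hP2, hP3⟩ := exists_proj ρ a l w hw0 hwe
  have hmem : ∀ v, v ∈ Module.End.eigenspace (ρ a) l ↔ ρ a v = l • v := fun v =>
    Module.End.mem_eigenspace_iff
  generalize Module.End.eigenspace (ρ a) l = W at hmem
  have hWbot : W ≠ ⊥ := by
    intro h
    have : w ∈ W := (hmem w).2 hwe
    rw [h, Submodule.mem_bot] at this
    exact hw0 this
  have hPmem : ∀ v, P v ∈ W := fun v => (hmem _).2 (hP1 v)
  have hPid : ∀ v ∈ W, P v = v := fun v hv => hP2 v ((hmem v).1 hv)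
  have hout : ∀ y, y ∉ stab ρ W → ∀ v ∈ W, P (ρ y v) = 0 := by
    intro y hyn v hv
    obtain ⟨m, hm⟩ := hy y l
    have h1 : ∀ u ∈ W, ρ a (ρ y u) = m • ρ y u := by
      intro u hu
      have h2 := hm u ((hmem u).1 hu)
      rw [← map_smul, ← h2, ← Module.End.mul_apply, ← Module.End.mul_apply, ← map_mul, ← map_mul]
      congr 2
      group
    by_cases hml : m = l
    · exfalso
      apply hyn
      rw [mem_stab]
      intro u hu
      rw [hmem, ← hml]
      exact h1 u hu
    · exact hP3 _ m hml (h1 v hv)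
  refine ⟨l, W, fun g hg => (mem_stab ρ W g).1 hg, hmem, hWbot, ?_⟩
  -- the averaged projection
  set T : Module.End ℂ V := ∑ x : G, ρ x * P * ρ x⁻¹ with hT
  have hcomm : ∀ g, ρ g * T = T * ρ g := by
    intro g
    rw [hT, Finset.mul_sum, Finset.sum_mul]
    refine Fintype.sum_equiv (Equiv.mulLeft g) _ _ fun x => ?_
    show ρ g * (ρ x * P * ρ x⁻¹) = ρ (g * x) * P * ρ (g * x)⁻¹ * ρ g
    rw [mul_assoc (ρ (g * x) * P), ← map_mul, mul_inv_rev, inv_mul_cancel_right, map_mul]
    simp only [mul_assoc]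
  have hTW : ∀ v ∈ W, T v = (Nat.card (stab ρ W) : ℂ) • v := by
    intro v hv
    rw [hT, LinearMap.sum_apply, ← sum_mem_card]
    refine Finset.sum_congr rfl fun x _ => ?_
    rw [Module.End.mul_apply, Module.End.mul_apply]
    split_ifs with hx
    · rw [hPid _ ((mem_stab ρ W _).1 ((stab ρ W).inv_mem hx) v hv), ← Module.End.mul_apply,
        ← map_mul, mul_inv_cancel, map_one, Module.End.one_apply]
    · rw [hout x⁻¹ (fun h => hx (by simpa using (stab ρ W).inv_mem h)) v hv, map_zero]
  have hTall : ∀ v, T v = (Nat.card (stab ρ W) : ℂ) • v := by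
    have h1 := hirr (LinearMap.ker (T - (Nat.card (stab ρ W) : ℂ) • (1 : Module.End ℂ V))) (by
      intro g v hv
      rw [LinearMap.mem_ker, LinearMap.sub_apply, LinearMap.smul_apply, Module.End.one_apply,
        sub_eq_zero] at hv ⊢
      rw [← Module.End.mul_apply, ← hcomm, Module.End.mul_apply, hv, map_smul])
    rcases h1 with h1 | h1
    · exfalso
      have h2 : w ∈ LinearMap.ker (T - (Nat.card (stab ρ W) : ℂ) • (1 : Module.End ℂ V)) := by
        rw [LinearMap.mem_ker, LinearMap.sub_apply, LinearMap.smul_apply, Module.End.one_apply,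
          sub_eq_zero]
        exact hTW w ((hmem w).2 hwe)
      rw [h1, Submodule.mem_bot] at h2
      exact hw0 h2
    · intro v
      have h2 : v ∈ LinearMap.ker (T - (Nat.card (stab ρ W) : ℂ) • (1 : Module.End ℂ V)) := by
        rw [h1]
        trivial
      rw [LinearMap.mem_ker, LinearMap.sub_apply, LinearMap.smul_apply, Module.End.one_apply,
          sub_eq_zero] at h2
      exact h2
  have htr : ∀ y, LinearMap.trace ℂ V (ρ y * P) = if h : y ∈ stab ρ W then
      (sub ρ (stab ρ W) W (fun g hg => (mem_stab ρ W g).1 hg)).character ⟨y, h⟩ else 0 := by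
    intro y
    split_ifs with hyH
    · rw [← LinearMap.trace_restrict_eq_of_forall_mem W (ρ y * P)
        (fun v => (mem_stab ρ W y).1 hyH _ (hPmem v))]
      show _ = LinearMap.trace ℂ W _
      congr 1
      ext v
      show ρ y (P (v : V)) = ρ y (v : V)
      rw [hPid _ v.2]
    · have hPP : P * P = P := by
        ext v
        exact hPid _ (hPmem v)
      rw [← hPP, ← mul_assoc, LinearMap.trace_mul_comm]
      have h0 : P * (ρ y * P) = 0 := by
        ext v
        exact hout y hyH _ (hPmem v)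
      rw [h0, map_zero]
  funext g
  have hc : (Nat.card (stab ρ W) : ℂ) ≠ 0 := by exact_mod_cast Nat.card_pos.ne'
  rw [indL_apply, eq_div_iff hc]
  have h1 : T * ρ g = (Nat.card (stab ρ W) : ℂ) • ρ g := by
    ext v
    exact hTall _
  have h2 := congrArg (LinearMap.trace ℂ V) h1
  rw [map_smul, smul_eq_mul] at h2
  show LinearMap.trace ℂ V (ρ g) * _ = _
  rw [mul_comm, ← h2, hT, Finset.sum_mul, map_sum]
  refine Finset.sum_congr rfl fun x _ => ?_
  rw [← htr, mul_assoc (ρ x * P), ← map_mul, LinearMap.trace_mul_comm, ← mul_assoc, ← map_mul]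

end avg

section

variable {G : Type} [Group G] [Fintype G]

theorem mem_GS_of_bra (hBRA : Stmt_BRA) {P : ∀ H : Subgroup G, (H →* ℂˣ) → Prop}
    (hP : ∀ H ψ, P H ψ) {V : Type} [AddCommGroup V] [Module ℂ V] [Module.Finite ℂ V]
    (ρ : Representation ℂ G V) : ρ.character ∈ CMB.GS P := by
  obtain ⟨m, H, ψ, n, h⟩ := hBRA G V ρ
  have e : ρ.character = ∑ i, n i • indFun (H i) (extZ (ψ i)) := by
    funext g
    rw [h, Finset.sum_apply]
    refine Finset.sum_congr rfl fun i _ => ?_
    rw [Pi.smul_apply, zsmul_eq_mul]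
  rw [e]
  exact Submodule.sum_mem _ fun i _ => Submodule.smul_mem _ _ (CMB.mem_GS_of _ _ (hP _ _))

theorem indL_mem_GS (hBRA : Stmt_BRA) {P : ∀ H : Subgroup G, (H →* ℂˣ) → Prop}
    (S : Subgroup G) (hP : ∀ H ψ, H ≤ S → P H ψ) {V : Type} [AddCommGroup V] [Module ℂ V]
    [Module.Finite ℂ V] (ρ : Representation ℂ S V) : indL S ρ.character ∈ CMB.GS P := by
  obtain ⟨m, H, ψ, n, h⟩ := hBRA S V ρ
  have e : ρ.character = ∑ i, n i • indFun (H i) (extZ (ψ i)) := by
    funext g
    rw [h, Finset.sum_apply]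
    refine Finset.sum_congr rfl fun i _ => ?_
    rw [Pi.smul_apply, zsmul_eq_mul]
  rw [e, map_sum]
  refine Submodule.sum_mem _ fun i _ => ?_
  rw [map_smul, indL_indFun]
  exact Submodule.smul_mem _ _ (CMB.mem_GS_of _ _ (hP _ _ (Subgroup.map_subtype_le _)))

end

/-- The direct sum of two representations. -/
noncomputable def prodRep {G V₁ V₂ : Type} [Group G] [AddCommGroup V₁] [Module ℂ V₁]
    [AddCommGroup V₂] [Module ℂ V₂] (ρ₁ : Representation ℂ G V₁) (ρ₂ : Representation ℂ G V₂) :
    Representation ℂ G (V₁ × V₂) where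
  toFun g := (ρ₁ g).prodMap (ρ₂ g)
  map_one' := by
    rw [map_one, map_one]
    rfl
  map_mul' g h := by
    rw [map_mul, map_mul]
    rfl

theorem eq_one_of_sq {l : ℂ} (h2 : l * l = 1) {n : ℕ} (hn : Odd n) (h : l ^ n = 1) : l = 1 := by
  obtain ⟨k, rfl⟩ := hn
  rw [pow_succ, pow_mul, pow_two, h2, one_pow, one_mul] at h
  exact h

section main

variable {Q : Type} [Group Q] [Fintype Q]

omit [Fintype Q] in
/-- The scalar of an element which is conjugate to its inverse is one. -/
theorem scal_one {V : Type} [AddCommGroup V] [Module ℂ V] (ρ : Representation ℂ Q V)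
    {c u : Q} {n : ℕ} (hn : Odd n) (hun : u ^ n = 1) (hcu : ρ (c⁻¹ * u * c) = ρ u⁻¹) {l : ℂ}
    {v : V} (hv0 : v ≠ 0) (hv : ρ u v = l • v) (hcv : ρ u (ρ c v) = l • ρ c v) : l = 1 := by
  have h1 : ρ u⁻¹ v = l • v := by
    rw [← hcu, map_mul, map_mul, Module.End.mul_apply, Module.End.mul_apply, hcv, map_smul,
      ← Module.End.mul_apply, ← map_mul, inv_mul_cancel, map_one, Module.End.one_apply]
  have h2 : ρ u⁻¹ (ρ u v) = v := by
    rw [← Module.End.mul_apply, ← map_mul, inv_mul_cancel, map_one, Module.End.one_apply]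
  rw [hv, map_smul, h1, smul_smul] at h2
  have hc : ∀ x : ℂ, x • v = v → x = 1 := by
    intro x hx
    have h3 : (x - 1) • v = 0 := by rw [sub_smul, one_smul, hx, sub_self]
    rcases smul_eq_zero.1 h3 with h4 | h4
    · exact sub_eq_zero.1 h4
    · exact absurd h4 hv0
  refine eq_one_of_sq (hc _ h2) hn (hc _ ?_)
  rw [← pow_apply_eigen ρ hv n, hun, map_one, Module.End.one_apply]

theorem main (hBRA : Stmt_BRA) (P : Q → Prop) (C : Subgroup Q) [hC : C.Normal]
    (hcyc : IsCyclic C) (hodd : Odd (Nat.card C)) (d : ℕ) :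
    ∀ (V : Type) [AddCommGroup V] [Module ℂ V] [Module.Finite ℂ V] (ρ : Representation ℂ Q V),
      Module.finrank ℂ V ≤ d → (∀ c, P c → ∀ u ∈ C, ρ (c⁻¹ * u * c) = ρ u⁻¹) →
      ∃ (V' : Type) (_ : AddCommGroup V') (_ : Module ℂ V') (_ : Module.Finite ℂ V')
        (ρ' : Representation ℂ Q V'), (∀ u ∈ C, ρ' u = 1) ∧
        (fun g => ρ.character g - ρ'.character g) ∈
          CMB.GS (fun (H : Subgroup Q) (_ : H →* ℂˣ) => ∀ c ∈ H, ¬ P c) := by
  have hzero : ∀ (V : Type) [AddCommGroup V] [Module ℂ V] [Module.Finite ℂ V]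
      (ρ : Representation ℂ Q V), ρ.character ∈
        CMB.GS (fun (H : Subgroup Q) (_ : H →* ℂˣ) => ∀ c ∈ H, ¬ P c) →
      ∃ (V' : Type) (_ : AddCommGroup V') (_ : Module ℂ V') (_ : Module.Finite ℂ V')
        (ρ' : Representation ℂ Q V'), (∀ u ∈ C, ρ' u = 1) ∧
        (fun g => ρ.character g - ρ'.character g) ∈
          CMB.GS (fun (H : Subgroup Q) (_ : H →* ℂˣ) => ∀ c ∈ H, ¬ P c) := by
    intro V _ _ _ ρ hρ
    refine ⟨Fin 0 → ℂ, inferInstance, inferInstance, inferInstance, 1, fun _ _ => rfl, ?_⟩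
    have h0 : (Representation.character (1 : Representation ℂ Q (Fin 0 → ℂ))) = 0 :=
      character_eq_zero _ (by simp)
    have e : (fun g => ρ.character g -
        (Representation.character (1 : Representation ℂ Q (Fin 0 → ℂ))) g) = ρ.character := by
      funext g
      rw [h0, Pi.zero_apply, sub_zero]
    rw [e]
    exact hρ
  induction d with
  | zero =>
    intro V _ _ _ ρ hd _
    apply hzero
    rw [character_eq_zero ρ (by omega)]
    exact Submodule.zero_mem _
  | succ d ihd =>
    intro V _ _ _ ρ hd hρ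
    by_cases hirr : ∀ W : Submodule ℂ V, (∀ g, ∀ v ∈ W, ρ g v ∈ W) → W = ⊥ ∨ W = ⊤
    · obtain ⟨a, ha⟩ := hcyc.exists_generator
      have hpow : ∀ x ∈ C, ∃ k : ℕ, (a : Q) ^ k = x := by
        intro x hx
        have h2 := ha ⟨x, hx⟩
        rw [← mem_powers_iff_mem_zpowers] at h2
        obtain ⟨k, hk⟩ := h2
        exact ⟨k, congrArg (fun z : C => (z : Q)) hk⟩
      have hcard : ∀ u ∈ C, u ^ (Nat.card C) = 1 := by
        intro u hu
        have := pow_card_eq_one' (x := (⟨u, hu⟩ : C))
        exact congrArg (fun z : C => (z : Q)) this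
      by_cases hsc : IsScal ρ (a : Q)
      · by_cases hP : ∃ c, P c
        · obtain ⟨c, hc⟩ := hP
          refine ⟨V, inferInstance, inferInstance, inferInstance, ρ, ?_, ?_⟩
          · have h1 : ρ (a : Q) = 1 := by
              obtain ⟨l, hl⟩ := hsc
              by_cases hV : Subsingleton V
              · ext v
                exact Subsingleton.elim _ _
              · rw [not_subsingleton_iff_nontrivial] at hV
                obtain ⟨v, hv⟩ := exists_ne (0 : V)
                have hl1 := scal_one ρ hodd (hcard _ a.2) (hρ c hc a a.2) hv (hl v) (hl _)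
                ext x
                rw [hl, hl1, one_smul]
                rfl
            intro u hu
            obtain ⟨k, hk⟩ := hpow u hu
            rw [← hk, map_pow, h1, one_pow]
          · have e : (fun g => ρ.character g - ρ.character g) = (0 : Q → ℂ) := by
              funext g
              rw [sub_self, Pi.zero_apply]
            rw [e]
            exact Submodule.zero_mem _
        · apply hzero
          exact mem_GS_of_bra hBRA (fun H ψ c _ h => hP ⟨c, h⟩) ρ
      · apply hzero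
        have hy : ∀ (y : Q) (l : ℂ), ∃ m : ℂ, ∀ v, ρ (a : Q) v = l • v →
            ρ (y⁻¹ * a * y) v = m • v := by
          intro y l
          have h1 : y⁻¹ * (a : Q) * y ∈ C := by
            have := hC.conj_mem a a.2 y⁻¹
            rwa [inv_inv] at this
          obtain ⟨k, hk⟩ := hpow _ h1
          refine ⟨l ^ k, fun v hv => ?_⟩
          rw [← hk]
          exact pow_apply_eigen ρ hv k
        obtain ⟨l, W, hW, hmem, hbot, hchar⟩ := avg' ρ hirr (a : Q) hsc hy
        rw [hchar]
        apply indL_mem_GS hBRA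
        intro H ψ hH c hcH hPc
        -- the eigenvalue is one
        obtain ⟨w, hwW, hw0⟩ := Submodule.exists_mem_ne_zero_of_ne_bot hbot
        have hcW : ρ c w ∈ W := (mem_stab ρ W c).1 (hH hcH) w hwW
        have hl1 := scal_one ρ hodd (hcard _ a.2) (hρ c hPc a a.2) hw0 ((hmem w).1 hwW)
          ((hmem _).1 hcW)
        have hfix : ∀ v ∈ W, ∀ u ∈ C, ρ u v = v := by
          intro v hv u hu
          obtain ⟨k, hk⟩ := hpow u hu
          have h2 := (hmem v).1 hv
          rw [← hk, pow_apply_eigen ρ h2 k, hl1, one_pow, one_smul]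
        have hstable : ∀ g, ∀ v ∈ W, ρ g v ∈ W := by
          intro g v hv
          rw [hmem, hl1, one_smul]
          have h1 : g⁻¹ * (a : Q) * g ∈ C := by
            have := hC.conj_mem a a.2 g⁻¹
            rwa [inv_inv] at this
          have h2 := hfix v hv _ h1
          have h3 : ρ (a : Q) (ρ g v) = ρ g (ρ (g⁻¹ * a * g) v) := by
            rw [← Module.End.mul_apply, ← Module.End.mul_apply, ← map_mul, ← map_mul]
            congr 2
            group
          rw [h3, h2]
        rcases hirr W hstable with h | h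
        · exact hbot h
        · apply hsc
          refine ⟨l, fun v => ?_⟩
          rw [← hmem, h]
          trivial
    · push Not at hirr
      obtain ⟨W, hW, hbot, htop⟩ := hirr
      obtain ⟨W', hW', hc⟩ := exists_compl ρ W hW
      have hW't : W' ≠ ⊤ := by
        rintro rfl
        apply hbot
        exact disjoint_top.1 hc.disjoint
      have h1 := Submodule.finrank_lt htop
      have h2 := Submodule.finrank_lt hW't
      have h3 : ρ.character = (subG ρ W hW).character + (subG ρ W' hW').character := by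
        funext g
        exact trace_add (ρ g) W W' hc (hW g) (hW' g)
      have hs : ∀ (W : Submodule ℂ V) (hW : ∀ g, ∀ v ∈ W, ρ g v ∈ W), ∀ c, P c → ∀ u ∈ C,
          (subG ρ W hW) (c⁻¹ * u * c) = (subG ρ W hW) u⁻¹ := by
        intro W hW c hc u hu
        ext v
        show ρ (c⁻¹ * u * c) (v : V) = ρ u⁻¹ (v : V)
        rw [hρ c hc u hu]
      obtain ⟨V₁, _, _, _, ρ₁, ht₁, hg₁⟩ := ihd _ (subG ρ W hW) (by omega) (hs W hW)
      obtain ⟨V₂, _, _, _, ρ₂, ht₂, hg₂⟩ := ihd _ (subG ρ W' hW') (by omega) (hs W' hW')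
      refine ⟨V₁ × V₂, inferInstance, inferInstance, inferInstance, prodRep ρ₁ ρ₂, ?_, ?_⟩
      · intro u hu
        show (ρ₁ u).prodMap (ρ₂ u) = 1
        rw [ht₁ u hu, ht₂ u hu]
        rfl
      · have e : (fun g => ρ.character g - (prodRep ρ₁ ρ₂).character g) =
            (fun g => (subG ρ W hW).character g - ρ₁.character g) +
            (fun g => (subG ρ W' hW').character g - ρ₂.character g) := by
          funext g
          have h4 : (prodRep ρ₁ ρ₂).character g = ρ₁.character g + ρ₂.character g := by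
            show LinearMap.trace ℂ (V₁ × V₂) ((ρ₁ g).prodMap (ρ₂ g)) = _
            rw [LinearMap.trace_prodMap']
            rfl
          rw [h4, h3, Pi.add_apply, Pi.add_apply]
          ring
        rw [e]
        exact Submodule.add_mem _ hg₁ hg₂

end main

end StarkC.SCLF

theorem StarkC.SCLF_thm (h : StarkC.Stmt_BRA) : StarkC.Stmt_SCLF := by
  intro Q _ _ P C _ hcyc hodd V _ _ _ ρ hρ
  exact StarkC.SCLF.main h P C hcyc hodd _ V ρ le_rfl hρ
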