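import Pool.Agent.StarkS.Stmts

/-!
Module SS_SFD (helper85): the fields N and N'.
-/

set_option autoImplicit false

open NumberField

namespace StarkC

theorem SFD_thm (h1 : Stmt_SAP) (h2 : Stmt_ART) (h3 : Stmt_AR3) : Stmt_SFD := by
  classical
  intro K L _ _ _ _ _ _
  obtain ⟨B, hB⟩ := h2 K L
  obtain ⟨N, iN, nN, aKN, aLN, tKLN, gKN, hN⟩ := h3 K L B
  have hconj := hB N hN
  have hα := fun (H : Subgroup (N ≃ₐ[K] N)) (Φ₀ : N →+* ℂ) => h1 K N H Φ₀
  choose α hα1 hα2 using hα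
  have : Finite (N ≃ₐ[K] N) := inferInstance
  have : Finite (Subgroup (N ≃ₐ[K] N)) := inferInstance
  have : Fintype (Subgroup (N ≃ₐ[K] N)) := Fintype.ofFinite _
  have : Fintype (N →+* ℂ) := inferInstance
  obtain ⟨N', iN', nN', aKN', aNN', tKNN', gKN', hN'⟩ :=
    h3 K N (insert (-1) (Finset.univ.image fun p : Subgroup (N ≃ₐ[K] N) × (N →+* ℂ) => α p.1 p.2))
  let aLN' : Algebra L N' := ((algebraMap N N').comp (algebraMap L N)).toAlgebra
  have tLNN' : IsScalarTower L N N' := IsScalarTower.of_algebraMap_eq' rfl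
  have tKLN' : IsScalarTower K L N' := by
    refine IsScalarTower.of_algebraMap_eq fun x => ?_
    rw [IsScalarTower.algebraMap_apply K N N', IsScalarTower.algebraMap_apply L N N',
      ← IsScalarTower.algebraMap_apply K L N]
  refine ⟨N, N', iN, nN, aKN, aLN, tKLN, gKN, iN', nN', aKN', aNN', aLN', tKNN', tLNN', tKLN',
    gKN', hconj, ?_, ?_⟩
  · obtain ⟨y, hy⟩ := hN' (-1) (Finset.mem_insert_self _ _)
    exact ⟨y, by rw [hy, map_neg, map_one]⟩
  · intro H Φ₀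
    obtain ⟨y, hy⟩ := hN' (α H Φ₀) (Finset.mem_insert_of_mem
      (Finset.mem_image.2 ⟨(H, Φ₀), Finset.mem_univ _, rfl⟩))
    exact ⟨α H Φ₀, y, hy, hα1 H Φ₀, hα2 H Φ₀⟩

end StarkC
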