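import Pool.Agent.StarkS.Stmts

/-!
# The flip identity (module SFLG)
-/

open scoped Classical

namespace StarkC.SFLG

variable {A : Type} [Group A]

/-- Extension by one. -/
noncomputable def ex {B : Subgroup A} (ε : B →* ℂˣ) (g : A) : ℂˣ :=
  if h : g ∈ B then ε ⟨g, h⟩ else 1

theorem ex_coe {B : Subgroup A} (ε : B →* ℂˣ) (b : B) : ex ε (b : A) = ε b := by
  unfold ex
  rw [dif_pos b.2]

theorem ex_mul {B : Subgroup A} (ε : B →* ℂˣ) {g h : A} (hg : g ∈ B) (hh : h ∈ B) :
    ex ε (g * h) = ex ε g * ex ε h := by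
  have h1 := ex_coe ε (⟨g, hg⟩ * ⟨h, hh⟩)
  have h2 := ex_coe ε ⟨g, hg⟩
  have h3 := ex_coe ε ⟨h, hh⟩
  rw [map_mul, ← h2, ← h3] at h1
  exact h1

theorem ex_sq {B : Subgroup A} (ε : B →* ℂˣ) (hε : IsSign ε) (g : A) : ex ε g = 1 ∨ ex ε g = -1 := by
  unfold ex
  split_ifs with h
  · exact hε _
  · exact Or.inl rfl

/-- The sign of `g` on `x`. -/
noncomputable def aa {B : Subgroup A} (ε : B →* ℂˣ) (τ g : A) : ℂˣ :=
  if g ∈ B then ex ε g else ex ε (τ⁻¹ * g)

/-- The sign of `g` on `y = τ x`. -/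
noncomputable def bb {B : Subgroup A} (ε : B →* ℂˣ) (τ g : A) : ℂˣ :=
  if g ∈ B then ex ε (τ⁻¹ * g * τ) else ex ε (g * τ)

theorem aa_sign {B : Subgroup A} (ε : B →* ℂˣ) (hε : IsSign ε) (τ g : A) :
    aa ε τ g = 1 ∨ aa ε τ g = -1 := by
  unfold aa
  split_ifs <;> exact ex_sq ε hε _

theorem bb_sign {B : Subgroup A} (ε : B →* ℂˣ) (hε : IsSign ε) (τ g : A) :
    bb ε τ g = 1 ∨ bb ε τ g = -1 := by
  unfold bb
  split_ifs <;> exact ex_sq ε hε _

theorem neg_ne : (-1 : ℂˣ) ≠ 1 := by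
  intro h
  have h1 : ((-1 : ℂˣ) : ℂ) = ((1 : ℂˣ) : ℂ) := by rw [h]
  simp only [Units.val_neg, Units.val_one] at h1
  norm_num at h1

section quad

variable (η : A →* ℂˣ) (τ : A) (ε : η.ker →* ℂˣ)

/-- Composition laws. -/
theorem laws (hη : IsSign η) (hτ : η τ = -1) (g h : A) :
    (h ∈ η.ker → aa ε τ (g * h) = aa ε τ g * aa ε τ h ∧
      bb ε τ (g * h) = bb ε τ g * bb ε τ h) ∧
    (h ∉ η.ker → aa ε τ (g * h) = bb ε τ g * aa ε τ h ∧
      bb ε τ (g * h) = aa ε τ g * bb ε τ h) := by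
  have hne := neg_ne
  have hτi : η τ⁻¹ = -1 := by rw [map_inv, hτ]; simp
  rcases hη g with hg | hg <;> rcases hη h with hh | hh
  · -- both in B
    have mg : g ∈ η.ker := hg
    have mh : h ∈ η.ker := hh
    have mgh : g * h ∈ η.ker := η.ker.mul_mem mg mh
    refine ⟨fun _ => ⟨?_, ?_⟩, fun h' => absurd mh h'⟩
    · unfold aa
      rw [if_pos mgh, if_pos mg, if_pos mh, ex_mul ε mg mh]
    · unfold bb
      rw [if_pos mgh, if_pos mg, if_pos mh, ← ex_mul ε]
      · congr 1
        group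
      · rw [MonoidHom.mem_ker, map_mul, map_mul, hτi, hg, hτ]; simp
      · rw [MonoidHom.mem_ker, map_mul, map_mul, hτi, hh, hτ]; simp
  · -- g in B, h not
    have mg : g ∈ η.ker := hg
    have mh : h ∉ η.ker := by rw [MonoidHom.mem_ker, hh]; exact hne
    have mgh : g * h ∉ η.ker := by rw [MonoidHom.mem_ker, map_mul, hg, hh, one_mul]; exact hne
    refine ⟨fun h' => absurd h' mh, fun _ => ⟨?_, ?_⟩⟩
    · unfold aa bb
      rw [if_neg mgh, if_pos mg, if_neg mh, ← ex_mul ε]
      · congr 1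
        group
      · rw [MonoidHom.mem_ker, map_mul, map_mul, hτi, hg, hτ]; simp
      · rw [MonoidHom.mem_ker, map_mul, hτi, hh]; simp
    · unfold aa bb
      rw [if_neg mgh, if_pos mg, if_neg mh, ← ex_mul ε mg]
      · congr 1
        group
      · rw [MonoidHom.mem_ker, map_mul, hτ, hh]; simp
  · -- g not in B, h in B
    have mg : g ∉ η.ker := by rw [MonoidHom.mem_ker, hg]; exact hne
    have mh : h ∈ η.ker := hh
    have mgh : g * h ∉ η.ker := by rw [MonoidHom.mem_ker, map_mul, hg, hh, mul_one]; exact hne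
    refine ⟨fun _ => ⟨?_, ?_⟩, fun h' => absurd mh h'⟩
    · unfold aa
      rw [if_neg mgh, if_neg mg, if_pos mh, ← ex_mul ε _ mh]
      · congr 1
        group
      · rw [MonoidHom.mem_ker, map_mul, hτi, hg]; simp
    · unfold bb
      rw [if_neg mgh, if_neg mg, if_pos mh, ← ex_mul ε]
      · congr 1
        group
      · rw [MonoidHom.mem_ker, map_mul, hτ, hg]; simp
      · rw [MonoidHom.mem_ker, map_mul, map_mul, hτi, hh, hτ]; simp
  · -- neither
    have mg : g ∉ η.ker := by rw [MonoidHom.mem_ker, hg]; exact hne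
    have mh : h ∉ η.ker := by rw [MonoidHom.mem_ker, hh]; exact hne
    have mgh : g * h ∈ η.ker := by rw [MonoidHom.mem_ker, map_mul, hg, hh]; simp
    refine ⟨fun h' => absurd h' mh, fun _ => ⟨?_, ?_⟩⟩
    · unfold aa bb
      rw [if_pos mgh, if_neg mg, if_neg mh, ← ex_mul ε]
      · congr 1
        group
      · rw [MonoidHom.mem_ker, map_mul, hτ, hg]; simp
      · rw [MonoidHom.mem_ker, map_mul, hτi, hh]; simp
    · unfold aa bb
      rw [if_pos mgh, if_neg mg, if_neg mh, ← ex_mul ε]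
      · congr 1
        group
      · rw [MonoidHom.mem_ker, map_mul, hτi, hg]; simp
      · rw [MonoidHom.mem_ker, map_mul, hτ, hh]; simp

theorem aa_one : aa ε τ 1 = 1 := by
  unfold aa
  rw [if_pos η.ker.one_mem]
  have := ex_coe ε 1
  rw [map_one] at this
  exact this

theorem bb_one : bb ε τ 1 = 1 := by
  unfold bb
  rw [if_pos η.ker.one_mem, mul_one, inv_mul_cancel]
  have := ex_coe ε 1
  rw [map_one] at this
  exact this

/-- The character `δ`. -/
noncomputable def dd (hη : IsSign η) (hτ : η τ = -1) : A →* ℂˣ where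
  toFun g := aa ε τ g * bb ε τ g
  map_one' := by rw [aa_one, bb_one, mul_one]
  map_mul' g h := by
    by_cases hh : h ∈ η.ker
    · obtain ⟨h1, h2⟩ := (laws η τ ε hη hτ g h).1 hh
      rw [h1, h2, mul_mul_mul_comm]
    · obtain ⟨h1, h2⟩ := (laws η τ ε hη hτ g h).2 hh
      rw [h1, h2, mul_mul_mul_comm, mul_comm (bb ε τ g)]

theorem dd_apply (hη : IsSign η) (hτ : η τ = -1) (g : A) :
    dd η τ ε hη hτ g = aa ε τ g * bb ε τ g := rfl

theorem ab_of_ker (hη : IsSign η) (hτ : η τ = -1) (hε : IsSign ε) (g : A)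
    (hg : dd η τ ε hη hτ g = 1) : bb ε τ g = aa ε τ g := by
  rw [dd_apply] at hg
  rcases aa_sign ε hε τ g with h | h <;> rcases bb_sign ε hε τ g with h' | h' <;>
    rw [h, h'] at hg ⊢
  · rw [one_mul] at hg
    exact absurd hg neg_ne
  · rw [mul_one] at hg
    exact absurd hg neg_ne

theorem ab_of_neg (hη : IsSign η) (hτ : η τ = -1) (hε : IsSign ε) (g : A)
    (hg : dd η τ ε hη hτ g = -1) : bb ε τ g = -aa ε τ g := by
  rw [dd_apply] at hg
  rcases aa_sign ε hε τ g with h | h <;> rcases bb_sign ε hε τ g with h' | h' <;>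
    rw [h, h'] at hg ⊢
  · exact absurd (by simpa using hg.symm) neg_ne
  · simp
  · exact absurd (by simpa using hg.symm) neg_ne

/-- The character `μ`. -/
noncomputable def mm (hη : IsSign η) (hτ : η τ = -1) (hε : IsSign ε) :
    (dd η τ ε hη hτ).ker →* ℂˣ where
  toFun g := aa ε τ g
  map_one' := aa_one η τ ε
  map_mul' g h := by
    by_cases hh : (h : A) ∈ η.ker
    · exact ((laws η τ ε hη hτ g h).1 hh).1
    · have h1 := ((laws η τ ε hη hτ g h).2 hh).1
      rw [ab_of_ker η τ ε hη hτ hε g g.2] at h1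
      exact h1

theorem mm_apply (hη : IsSign η) (hτ : η τ = -1) (hε : IsSign ε)
    (g : (dd η τ ε hη hτ).ker) : mm η τ ε hη hτ hε g = aa ε τ g := rfl

theorem dd_sign (hη : IsSign η) (hτ : η τ = -1) (hε : IsSign ε) : IsSign (dd η τ ε hη hτ) := by
  intro g
  rw [dd_apply]
  rcases aa_sign ε hε τ g with h | h <;> rcases bb_sign ε hε τ g with h' | h' <;>
    rw [h, h'] <;> simp

end quad

/-- Induction from a subgroup of index two. -/
theorem indL_two [Fintype A] (κ : A →* ℂˣ) (hκ : IsSign κ) (s : A) (hs : κ s = -1)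
    (f : κ.ker → ℂ) (hf : ∀ k x : κ.ker, f (k⁻¹ * x * k) = f x) (g : A) :
    MON.indL κ.ker f g = if h : g ∈ κ.ker then
      f ⟨g, h⟩ + f ⟨s⁻¹ * g * s, by
        rw [MonoidHom.mem_ker, map_mul, map_mul, map_inv, (MonoidHom.mem_ker).1 h, mul_one,
          inv_mul_cancel]⟩ else 0 := by
  have hne := neg_ne
  have hcard : (Nat.card A : ℂ) = (Nat.card κ.ker : ℂ) * 2 := by
    have hidx : κ.ker.index = 2 := by
      rw [Subgroup.index_eq_two_iff]
      refine ⟨s, fun b => ?_⟩
      simp only [MonoidHom.mem_ker, map_mul, hs]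
      rcases hκ b with hb | hb
      · right
        refine ⟨hb, ?_⟩
        rw [hb, one_mul]
        exact hne
      · left
        refine ⟨?_, ?_⟩
        · rw [hb]; simp
        · rw [hb]; exact hne
    have := Subgroup.card_mul_index κ.ker
    rw [hidx] at this
    rw [← this]
    push_cast
    rfl
  have hk : (Nat.card κ.ker : ℂ) ≠ 0 := by
    exact_mod_cast Nat.card_pos.ne'
  have key : ∀ x : A, (x⁻¹ * g * x ∈ κ.ker) ↔ g ∈ κ.ker := by
    intro x
    rw [MonoidHom.mem_ker, MonoidHom.mem_ker, map_mul, map_mul, map_inv, mul_comm, ← mul_assoc,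
      mul_inv_cancel, one_mul]
  by_cases hg : g ∈ κ.ker
  · rw [dif_pos hg]
    have hsg : s⁻¹ * g * s ∈ κ.ker := (key s).2 hg
    have h2 : MON.indL κ.ker f g =
        (∑ x : A, if x ∈ κ.ker then f ⟨g, hg⟩ else f ⟨s⁻¹ * g * s, hsg⟩) /
          (Nat.card κ.ker : ℂ) := by
      rw [MON.indL_apply]
      congr 1
      refine Finset.sum_congr rfl fun x _ => ?_
      rw [dif_pos ((key x).2 hg)]
      by_cases hx : x ∈ κ.ker
      · rw [if_pos hx]
        exact hf ⟨x, hx⟩ ⟨g, hg⟩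
      · rw [if_neg hx]
        have hx' : κ x = -1 := (hκ x).resolve_left hx
        have hy : s⁻¹ * x ∈ κ.ker := by
          rw [MonoidHom.mem_ker, map_mul, map_inv, hs, hx', inv_mul_cancel]
        rw [← hf ⟨s⁻¹ * x, hy⟩ ⟨s⁻¹ * g * s, hsg⟩]
        congr 1
        apply Subtype.ext
        show x⁻¹ * g * x = (s⁻¹ * x)⁻¹ * (s⁻¹ * g * s) * (s⁻¹ * x)
        group
    rw [h2, Finset.sum_ite, Finset.sum_const, Finset.sum_const,
      nsmul_eq_mul, nsmul_eq_mul]
    have c1 : ((Finset.univ.filter fun x : A => x ∈ κ.ker).card : ℂ) = (Nat.card κ.ker : ℂ) := by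
      congr 1
      rw [Nat.card_eq_fintype_card, Fintype.card_subtype]
    have c2 : ((Finset.univ.filter fun x : A => x ∉ κ.ker).card : ℂ) = (Nat.card κ.ker : ℂ) := by
      have h3 := Finset.card_filter_add_card_filter_not (s := (Finset.univ : Finset A))
        (fun x : A => x ∈ κ.ker)
      rw [Finset.card_univ, ← Nat.card_eq_fintype_card] at h3
      have h4 : ((Finset.univ.filter fun x : A => x ∈ κ.ker).card : ℂ) +
          ((Finset.univ.filter fun x : A => x ∉ κ.ker).card : ℂ) = (Nat.card A : ℂ) := by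
        exact_mod_cast h3
      rw [c1, hcard] at h4
      linear_combination h4
    rw [c1, c2]
    field_simp
  · rw [dif_neg hg, MON.indL_apply, Finset.sum_eq_zero, zero_div]
    intro x _
    rw [dif_neg (fun h => hg ((key x).1 h))]

theorem units_class {H : Subgroup A} (ψ : H →* ℂˣ) (k x : H) :
    ((ψ (k⁻¹ * x * k) : ℂˣ) : ℂ) = ((ψ x : ℂˣ) : ℂ) := by
  rw [map_mul, map_mul, map_inv, mul_comm, ← mul_assoc, mul_inv_cancel, one_mul]

end SFLG

open SFLG in
/-- The flip identity. -/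
theorem SFLG_thm : Stmt_SFLG := by
  intro A _ _ η τ ε hη hτ hε
  have L := laws η τ ε hη hτ
  refine ⟨dd η τ ε hη hτ, mm η τ ε hη hτ hε, dd_sign η τ ε hη hτ hε,
    fun g => aa_sign ε hε τ g, ?_, ?_, ?_⟩
  · intro b b' hb
    rw [dd_apply]
    unfold aa bb
    rw [if_pos b.2, if_pos b.2, ← hb, ex_coe, ex_coe]
  · intro b b' hb
    rw [mm_apply, hb]
    unfold aa
    rw [if_pos b.2, ex_coe]
  · intro hδ
    obtain ⟨s, hs⟩ : ∃ s, dd η τ ε hη hτ s ≠ 1 := by
      by_contra hcon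
      exact hδ (MonoidHom.ext fun g => by
        by_contra h
        exact hcon ⟨g, h⟩)
    have hs : dd η τ ε hη hτ s = -1 := (dd_sign η τ ε hη hτ hε s).resolve_left hs
    funext g
    rw [indL_two η hη τ hτ _ (fun k x => units_class ε k x) g,
      indL_two (dd η τ ε hη hτ) (dd_sign η τ ε hη hτ hε) s hs _
        (fun k x => units_class (mm η τ ε hη hτ hε) k x) g]
    have hss := ab_of_neg η τ ε hη hτ hε s hs
    by_cases hg : g ∈ η.ker
    · rw [dif_pos hg]
      have ea : ε ⟨g, hg⟩ = aa ε τ g := by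
        unfold aa
        rw [if_pos hg]
        exact (ex_coe ε ⟨g, hg⟩).symm
      have eb : ∀ h, ε ⟨τ⁻¹ * g * τ, h⟩ = bb ε τ g := by
        intro h
        unfold bb
        rw [if_pos hg]
        exact (ex_coe ε ⟨τ⁻¹ * g * τ, h⟩).symm
      rw [ea, eb]
      by_cases hd : dd η τ ε hη hτ g = 1
      · have hdm : g ∈ (dd η τ ε hη hτ).ker := hd
        rw [dif_pos hdm, mm_apply, mm_apply]
        have hab := ab_of_ker η τ ε hη hτ hε g hd
        have h1 : aa ε τ (s⁻¹ * g * s) = aa ε τ g := by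
          by_cases hsB : s ∈ η.ker
          · rw [((L (s⁻¹ * g) s).1 hsB).1, ((L s⁻¹ g).1 hg).1]
            have h2 := ((L s⁻¹ s).1 hsB).1
            rw [inv_mul_cancel, aa_one] at h2
            rw [mul_right_comm, ← h2, one_mul]
          · rw [((L (s⁻¹ * g) s).2 hsB).1, ((L s⁻¹ g).1 hg).2]
            have h2 := ((L s⁻¹ s).2 hsB).1
            rw [inv_mul_cancel, aa_one] at h2
            rw [mul_right_comm, ← h2, one_mul, hab]
        show ((aa ε τ g : ℂˣ) : ℂ) + ((bb ε τ g : ℂˣ) : ℂ) =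
          ((aa ε τ g : ℂˣ) : ℂ) + ((aa ε τ (s⁻¹ * g * s) : ℂˣ) : ℂ)
        rw [h1, hab]
      · have hdm : g ∉ (dd η τ ε hη hτ).ker := hd
        rw [dif_neg hdm]
        have hd' := (dd_sign η τ ε hη hτ hε g).resolve_left hd
        rw [ab_of_neg η τ ε hη hτ hε g hd', Units.val_neg, add_neg_cancel]
    · rw [dif_neg hg]
      by_cases hd : dd η τ ε hη hτ g = 1
      · have hdm : g ∈ (dd η τ ε hη hτ).ker := hd
        rw [dif_pos hdm, mm_apply, mm_apply]
        have hab := ab_of_ker η τ ε hη hτ hε g hd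
        have h1 : aa ε τ (s⁻¹ * g * s) = -aa ε τ g := by
          by_cases hsB : s ∈ η.ker
          · have hsi : s⁻¹ ∈ η.ker := η.ker.inv_mem hsB
            rw [((L (s⁻¹ * g) s).1 hsB).1, ((L s⁻¹ g).2 hg).1]
            have h2 := ((L s⁻¹ s).1 hsB).2
            rw [inv_mul_cancel, bb_one, hss, mul_neg] at h2
            rw [mul_right_comm]
            have h3 : bb ε τ s⁻¹ * aa ε τ s = -1 := by
              rw [h2, neg_neg]
            rw [h3, neg_mul, one_mul]
          · have hsi : s⁻¹ ∉ η.ker := fun h => hsB (by simpa using η.ker.inv_mem h)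
            rw [((L (s⁻¹ * g) s).2 hsB).1, ((L s⁻¹ g).2 hg).2, hab]
            have h2 := ((L s⁻¹ s).2 hsB).2
            rw [inv_mul_cancel, bb_one, hss, mul_neg] at h2
            rw [mul_right_comm]
            have h3 : aa ε τ s⁻¹ * aa ε τ s = -1 := by
              rw [h2, neg_neg]
            rw [h3, neg_mul, one_mul]
        show (0 : ℂ) = ((aa ε τ g : ℂˣ) : ℂ) + ((aa ε τ (s⁻¹ * g * s) : ℂˣ) : ℂ)
        rw [h1, Units.val_neg, add_neg_cancel]
      · have hdm : g ∉ (dd η τ ε hη hτ).ker := hd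
        rw [dif_neg hdm]

end StarkC
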