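import Pool.Agent.StarkS.Stmts

/-!
# The flip for abstract complex conjugations (module SFLP)
-/

open scoped Classical

namespace StarkC
namespace SFLP

section

variable {A : Type} [Group A] [Fintype A]

theorem indL_res (H : Subgroup A) (f : A → ℂ) :
    MON.indL H (fun h => f h) = indFun H f := by
  funext g
  rw [MON.indL_apply]
  unfold indFun
  rfl

theorem indL_one (η : A →* ℂˣ) (hη : IsSign η) (τ : A) (hτ : η τ ≠ 1) :
    MON.indL η.ker (fun _ => (1 : ℂ)) = fun a => 1 + ((η a : ℂˣ) : ℂ) := by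
  rw [indL_res η.ker (fun _ => (1 : ℂ))]
  funext g
  exact CMB.half η hη τ hτ g

theorem indL_add (H : Subgroup A) (f f' : H → ℂ) :
    MON.indL H (fun h => f h + f' h) = MON.indL H f + MON.indL H f' :=
  map_add (MON.indL H) f f'

theorem indL_sub (H : Subgroup A) (f f' : H → ℂ) :
    MON.indL H (fun h => f h - f' h) = MON.indL H f - MON.indL H f' :=
  map_sub (MON.indL H) f f'

end

theorem act_inj {G : Type} [Group G] (E : Emb G) (p : E.P) {g h : G}
    (hgh : E.act p g = E.act p h) : g = h := by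
  have h1 : E.act p (g * h⁻¹) = p := by
    rw [E.act_mul, hgh, ← E.act_mul, mul_inv_cancel, E.act_one]
  have h2 := E.free _ _ h1
  rwa [mul_inv_eq_one] at h2

theorem neg_one_ne : (-1 : ℂˣ) ≠ 1 := by
  intro h
  have h1 := congrArg (fun z : ℂˣ => (z : ℂ)) h
  simp only [Units.val_neg, Units.val_one] at h1
  norm_num at h1

theorem isSign_mul {A : Type} [Group A] {a b : A →* ℂˣ} (ha : IsSign a) (hb : IsSign b) :
    IsSign (a * b) := by
  intro x
  rw [MonoidHom.mul_apply]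
  rcases ha x with h | h <;> rcases hb x with h' | h' <;> rw [h, h'] <;> simp

theorem sign_sq {A : Type} [Group A] {a : A →* ℂˣ} (ha : IsSign a) (x : A) :
    ((a x : ℂˣ) : ℂ) * ((a x : ℂˣ) : ℂ) = 1 := by
  rcases ha x with h | h <;> rw [h] <;> simp

theorem jj_mem {G A : Type} [Group G] [Group A] {i₁ i₂ : Fintype A} {E : Emb G} {j : A →* G}
    {f : A → ℂ} (h : f ∈ @JJ G A _ _ i₁ E j) : f ∈ @JJ G A _ _ i₂ E j := by
  rw [Subsingleton.elim i₂ i₁]
  exact h

end SFLP

open SFLP in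
/-- The flip. -/
theorem SFLP_thm (h1 : Stmt_SNEG) (h2 : Stmt_SPOS) (h3 : Stmt_SIDL) (h4 : Stmt_SIND)
    (h5 : Stmt_SFLG) : Stmt_SFLP := by
  intro G A _ _ _ E j hj hminus η τ hη hτ hηc p a₀ ha₀ ε ε' hε hε'
  obtain ⟨e, hesign, hec⟩ := hminus
  have hminus' : HasMinus E := ⟨e, hesign, hec⟩
  set eA : A →* ℂˣ := e.comp j with heA
  have heAsign : IsSign eA := fun a => hesign (j a)
  have heAc : ∀ (a : A) (q : E.P), j a = E.c q → eA a = -1 := by
    intro a q h
    rw [heA, MonoidHom.comp_apply, h]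
    exact hec q
  set eB : η.ker →* ℂˣ := eA.comp η.ker.subtype with heB
  have heBsign : IsSign eB := fun a => heAsign _
  have heBc : ∀ (b : η.ker) (q : E.P), j (b : A) = E.c q → eB b = -1 := by
    intro b q h
    exact heAc _ q h
  have hβsign : IsSign (eB * ε) := isSign_mul heBsign hε.1
  -- the group theoretic flip
  obtain ⟨δ, μ, hδ, hμ, hδf, hμf, hind⟩ := h5 A η τ (eB * ε) hη hτ hβsign
  -- conjugations
  have hker : ∀ (a : A) (q : E.P), j a = E.c q → a ∈ η.ker := fun a q h => hηc a ⟨q, h⟩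
  have hconj : ∀ a : A, a ∈ η.ker → τ⁻¹ * a * τ ∈ η.ker := by
    intro a ha
    rw [MonoidHom.mem_ker] at ha ⊢
    rw [map_mul, map_mul, ha, mul_one, map_inv, inv_mul_cancel]
  have hjconj : ∀ (a : A) (q : E.P), j a = E.c q → j (τ⁻¹ * a * τ) = E.c (E.act q (j τ)) := by
    intro a q h
    rw [map_mul, map_mul, map_inv, h, E.c_act]
  have hδc : ∀ (a : A) (q : E.P), j a = E.c q →
      (Same E j p q → δ a = -1) ∧ (¬ Same E j p q → δ a = 1) := by
    intro a q h
    have hb := hker a q h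
    have hb' := hconj a hb
    have hjb' := hjconj a q h
    have e1 := hδf ⟨a, hb⟩ ⟨_, hb'⟩ rfl
    have e2 : δ a = ε ⟨a, hb⟩ * ε ⟨_, hb'⟩ := by
      have e3 : δ a = (eB * ε) ⟨a, hb⟩ * (eB * ε) ⟨_, hb'⟩ := e1
      rw [e3, MonoidHom.mul_apply, MonoidHom.mul_apply, heBc ⟨a, hb⟩ q h,
        heBc ⟨_, hb'⟩ _ hjb']
      simp
    have s1 := hε.2 ⟨a, hb⟩ q h
    have s2 := hε.2 ⟨_, hb'⟩ (E.act q (j τ)) hjb'
    constructor
    · rintro ⟨x, hx⟩
      rcases hη x with hx1 | hx1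
      · have t1 : Same E (j.comp η.ker.subtype) p q := ⟨⟨x, hx1⟩, hx⟩
        have t2 : ¬ Same E (j.comp η.ker.subtype) p (E.act q (j τ)) := by
          rintro ⟨y, hy⟩
          rw [hx, ← E.act_mul, ← map_mul] at hy
          have h6 := hj (act_inj E p hy)
          have h7 : η (x * τ) = 1 := by
            rw [h6]
            exact y.2
          rw [map_mul, hx1, hτ, one_mul] at h7
          exact neg_one_ne h7
        rw [e2, s1.1 t1, s2.2 t2, one_mul]
      · have t1 : ¬ Same E (j.comp η.ker.subtype) p q := by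
          rintro ⟨y, hy⟩
          rw [hx] at hy
          have h6 := hj (act_inj E p hy)
          have h7 : η x = 1 := by
            rw [h6]
            exact y.2
          rw [hx1] at h7
          exact neg_one_ne h7
        have t2 : Same E (j.comp η.ker.subtype) p (E.act q (j τ)) := by
          refine ⟨⟨x * τ, ?_⟩, ?_⟩
          · rw [MonoidHom.mem_ker, map_mul, hx1, hτ]
            simp
          · rw [hx, ← E.act_mul, ← map_mul]
            rfl
        rw [e2, s1.2 t1, s2.1 t2, mul_one]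
    · intro hns
      have t1 : ¬ Same E (j.comp η.ker.subtype) p q := by
        rintro ⟨y, hy⟩
        exact hns ⟨(y : A), hy⟩
      have t2 : ¬ Same E (j.comp η.ker.subtype) p (E.act q (j τ)) := by
        rintro ⟨y, hy⟩
        apply hns
        refine ⟨(y : A) * τ⁻¹, ?_⟩
        rw [map_mul, E.act_mul, map_inv]
        have h6 : E.act p (j (y : A)) = E.act q (j τ) := hy.symm
        rw [h6, ← E.act_mul, mul_inv_cancel, E.act_one]
      rw [e2, s1.2 t1, s2.2 t2]
      simp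
  have hβc : ∀ (b : η.ker) (q : E.P), j (b : A) = E.c q → ¬ Same E j p q → (eB * ε) b = 1 := by
    intro b q h hns
    have t1 : ¬ Same E (j.comp η.ker.subtype) p q := by
      rintro ⟨y, hy⟩
      exact hns ⟨(y : A), hy⟩
    rw [MonoidHom.mul_apply, heBc b q h, (hε.2 b q h).2 t1]
    simp
  have hμc : ∀ a : δ.ker, CCj E (j.comp δ.ker.subtype) a → μ a = 1 := by
    rintro a ⟨q, hq⟩
    have hq' : j (a : A) = E.c q := hq
    have hns : ¬ Same E j p q := by
      intro hs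
      have := (hδc _ q hq').1 hs
      have h6 : δ (a : A) = 1 := a.2
      rw [this] at h6
      exact neg_one_ne h6
    rw [hμf ⟨(a : A), hker _ q hq'⟩ a rfl]
    exact hβc _ q hq' hns
  have hδ0 : δ a₀ = -1 := (hδc a₀ p ha₀).1 ⟨1, by rw [map_one, E.act_one]⟩
  have hδ1 : δ ≠ 1 := by
    intro h
    rw [h, MonoidHom.one_apply] at hδ0
    exact neg_one_ne hδ0.symm
  have hindβ := hind hδ1
  -- elements of J
  have J1 : MON.indL η.ker (fun b => ((ε b : ℂˣ) : ℂ) + (((eB * ε) b : ℂˣ) : ℂ)) ∈ JJ E j := by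
    apply h4
    have h6 := h1 G η.ker E (j.comp η.ker.subtype) eB heBsign (by
      rintro b ⟨q, hq⟩
      exact heBc b q hq)
    have h7 := (h3 G η.ker E (j.comp η.ker.subtype) _ h6).1 ε
    have h8 : (fun b : η.ker => ((ε b : ℂˣ) : ℂ) + (((eB * ε) b : ℂˣ) : ℂ)) =
        (fun b : η.ker => ((ε b : ℂˣ) : ℂ) * (1 + ((eB b : ℂˣ) : ℂ))) := by
      funext b
      rw [MonoidHom.mul_apply, Units.val_mul]
      ring
    rw [h8]
    exact jj_mem h7
  have J2 : MON.indL δ.ker (fun b => 1 - ((μ b : ℂˣ) : ℂ)) ∈ JJ E j := by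
    apply h4
    have h6 := h2 G δ.ker E (j.comp δ.ker.subtype) μ hminus' hμ hμc
    exact jj_mem h6
  have J3 : (fun a => 1 - ((η a : ℂˣ) : ℂ)) ∈ JJ E j := h2 G A E j η hminus' hη hηc
  have J4 : (fun a => ((ε' a : ℂˣ) : ℂ) - ((eA a : ℂˣ) : ℂ) * ((δ a : ℂˣ) : ℂ)) ∈ JJ E j := by
    have h6 := h2 G A E j (ε' * (eA * δ)) hminus'
      (isSign_mul hε'.1 (isSign_mul heAsign hδ)) (by
        rintro a ⟨q, hq⟩
        rw [MonoidHom.mul_apply, MonoidHom.mul_apply, heAc a q hq]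
        by_cases hs : Same E j p q
        · rw [(hε'.2 a q hq).1 hs, (hδc a q hq).1 hs]
          simp
        · rw [(hε'.2 a q hq).2 hs, (hδc a q hq).2 hs]
          simp)
    have h7 := (h3 G A E j _ h6).1 ε'
    convert h7 using 2 with a
    rw [MonoidHom.mul_apply, MonoidHom.mul_apply, Units.val_mul, Units.val_mul, mul_sub, mul_one,
      ← mul_assoc, sign_sq hε'.1, one_mul]
  have J5 : (fun a => ((δ a : ℂˣ) : ℂ) * (1 + ((eA a : ℂˣ) : ℂ))) ∈ JJ E j := by
    have h6 := h1 G A E j eA heAsign (by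
      rintro b ⟨q, hq⟩
      exact heAc b q hq)
    exact (h3 G A E j _ h6).1 δ
  -- the sum
  have hτ1 : η τ ≠ 1 := by
    rw [hτ]
    exact neg_one_ne
  have ha1 : δ a₀ ≠ 1 := by
    rw [hδ0]
    exact neg_one_ne
  have I1 := indL_one η hη τ hτ1
  have I2 := indL_one δ hδ a₀ ha1
  have K1 := indL_add η.ker (fun _ => (1 : ℂ)) (fun b => ((ε b : ℂˣ) : ℂ))
  have K2 := indL_add η.ker (fun b => ((ε b : ℂˣ) : ℂ)) (fun b => (((eB * ε) b : ℂˣ) : ℂ))
  have K3 := indL_sub δ.ker (fun _ => (1 : ℂ)) (fun b => ((μ b : ℂˣ) : ℂ))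
  have key : (MON.indL η.ker (fun b => 1 + ((ε b : ℂˣ) : ℂ)) - fun a => 1 + ((ε' a : ℂˣ) : ℂ)) =
      MON.indL η.ker (fun b => ((ε b : ℂˣ) : ℂ) + (((eB * ε) b : ℂˣ) : ℂ)) +
      MON.indL δ.ker (fun b => 1 - ((μ b : ℂˣ) : ℂ)) -
      (fun a => 1 - ((η a : ℂˣ) : ℂ)) -
      (fun a => ((ε' a : ℂˣ) : ℂ) - ((eA a : ℂˣ) : ℂ) * ((δ a : ℂˣ) : ℂ)) -
      (fun a => ((δ a : ℂˣ) : ℂ) * (1 + ((eA a : ℂˣ) : ℂ))) := by
    rw [K1, K2, K3, I1, I2, hindβ]
    funext a
    simp only [Pi.add_apply, Pi.sub_apply]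
    ring
  rw [key]
  exact sub_mem (sub_mem (sub_mem (add_mem J1 J2) J3) J4) J5

end StarkC
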