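import Pool.Agent.StarkS.Stmts

/-!
# The hypotheses on the abstract data hold for Galois groups of number fields
-/

open NumberField IsDedekindDomain
open scoped TensorProduct Classical

namespace StarkC

namespace SHS

/-- The sign character of a group of automorphisms which maps `y` to `y` or `-y`. -/
lemma exists_sign {K N : Type} [Field K] [Field N] [Algebra K N] [CharZero N]
    {H : Type} [Group H] (f : H →* (N ≃ₐ[K] N)) (y : N) (hy : y ≠ 0)
    (h : ∀ g, f g y = y ∨ f g y = -y) :
    ∃ ε : H →* ℂˣ, IsSign ε ∧ (∀ g, f g y = y → ε g = 1) ∧ ∀ g, f g y = -y → ε g = -1 := by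
  have hne : -y ≠ y := by
    intro hh
    apply hy
    have h2 : (2 : N) * y = 0 := by
      linear_combination -hh
    rcases mul_eq_zero.1 h2 with h3 | h3
    · exact absurd h3 two_ne_zero
    · exact h3
  refine ⟨{ toFun := fun g => if f g y = y then 1 else -1, map_one' := ?_, map_mul' := ?_ },
    ?_, ?_, ?_⟩
  · simp
  · intro a b
    rcases h a with ha | ha <;> rcases h b with hb | hb
    · simp [ha, hb]
    · simp [ha, hb, hne]
    · simp [ha, hb, hne]
    · simp [ha, hb, hne]
  · intro g
    by_cases hg : f g y = y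
    · left; simp [hg]
    · right; simp [hg]
  · intro g hg
    simp [hg]
  · intro g hg
    simp [hg, hne]

/-- A complex number with positive square is real. -/
lemma star_of_sq_pos {z : ℂ} (h1 : 0 < (z ^ 2).re) (h2 : (z ^ 2).im = 0) : star z = z := by
  have e1 : (z ^ 2).re = z.re ^ 2 - z.im ^ 2 := by
    rw [sq, Complex.mul_re]; ring
  have e2 : (z ^ 2).im = 2 * z.re * z.im := by
    rw [sq, Complex.mul_im]; ring
  rw [e1] at h1
  rw [e2] at h2
  have h3 : z.im = 0 := by
    rcases mul_eq_zero.1 h2 with h4 | h4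
    · have h5 : z.re = 0 := by
        rcases mul_eq_zero.1 h4 with h6 | h6
        · norm_num at h6
        · exact h6
      rw [h5] at h1
      nlinarith [sq_nonneg z.im]
    · exact h4
  apply Complex.ext
  · simp
  · simp [h3]

/-- A complex number with negative square is purely imaginary. -/
lemma star_of_sq_neg {z : ℂ} (h1 : (z ^ 2).re < 0) (h2 : (z ^ 2).im = 0) : star z = -z := by
  have e1 : (z ^ 2).re = z.re ^ 2 - z.im ^ 2 := by
    rw [sq, Complex.mul_re]; ring
  have e2 : (z ^ 2).im = 2 * z.re * z.im := by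
    rw [sq, Complex.mul_im]; ring
  rw [e1] at h1
  rw [e2] at h2
  have h3 : z.re = 0 := by
    rcases mul_eq_zero.1 h2 with h4 | h4
    · rcases mul_eq_zero.1 h4 with h6 | h6
      · norm_num at h6
      · exact h6
    · rw [h4] at h1
      nlinarith [sq_nonneg z.re]
  apply Complex.ext
  · simp [h3]
  · simp

section

variable {K N N' : Type} [Field K] [NumberField K] [Field N] [NumberField N] [Field N']
  [NumberField N'] [Algebra K N] [Algebra K N'] [Algebra N N'] [IsScalarTower K N N']
  [IsGalois K N] [IsGalois K N']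

/-- The restriction to the intermediate field. -/
noncomputable def res : (N' ≃ₐ[K] N') →* (N ≃ₐ[K] N) := AlgEquiv.restrictNormalHom N

lemma res_apply (g : N' ≃ₐ[K] N') (x : N) :
    algebraMap N N' ((res g : N ≃ₐ[K] N) x) = g (algebraMap N N' x) :=
  AlgEquiv.restrictNormal_commutes g N x

lemma isConj_res {q : N' →+* ℂ} {a : N' ≃ₐ[K] N'} (h : ComplexEmbedding.IsConj q a) :
    ComplexEmbedding.IsConj (q.comp (algebraMap N N')) (res a : N ≃ₐ[K] N) := by
  apply RingHom.ext
  intro x
  have h1 := h.eq (algebraMap N N' x)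
  simp only [ComplexEmbedding.conjugate_coe_eq, RingHom.comp_apply]
  rw [show (((res a : N ≃ₐ[K] N) : N →+* N) x) = (res a : N ≃ₐ[K] N) x from rfl, res_apply, h1]
  rfl

lemma comp_act (p : N' →+* ℂ) (b : N' ≃ₐ[K] N') :
    (p.comp (b : N' →+* N')).comp (algebraMap N N') =
      (p.comp (algebraMap N N')).comp ((res b : N ≃ₐ[K] N) : N →+* N) := by
  apply RingHom.ext
  intro x
  simp only [RingHom.comp_apply]
  rw [show (((res b : N ≃ₐ[K] N) : N →+* N) x) = (res b : N ≃ₐ[K] N) x from rfl, res_apply]
  rfl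

/-- Two embeddings which agree on `N` differ by an element of the kernel of the restriction. -/
lemma exists_ker (p q : N' →+* ℂ) (h : p.comp (algebraMap N N') = q.comp (algebraMap N N')) :
    ∃ m : N' ≃ₐ[K] N', (res m : N ≃ₐ[K] N) = 1 ∧ q = p.comp (m : N' →+* N') := by
  have : IsGalois N N' := IsGalois.tower_top_of_isGalois K N N'
  obtain ⟨σ, hσ⟩ := NumberField.ComplexEmbedding.exists_comp_symm_eq_of_comp_eq p q h
  refine ⟨AlgEquiv.restrictScalars K σ.symm, ?_, ?_⟩
  · apply AlgEquiv.ext
    intro x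
    apply (algebraMap N N').injective
    rw [res_apply]
    simp
  · rw [← hσ]
    rfl

end

end SHS

open SHS in
theorem SHS_thm : Stmt_SHS := by
  intro K N N' _ _ _ _ _ _ _ _ _ _ _ _ hi hα
  refine ⟨?_, ?_, ?_⟩
  · have : Finite (N' →+* ℂ) := inferInstance
    exact Subtype.finite
  · obtain ⟨y, hy⟩ := hi
    have hy0 : y ≠ 0 := by
      rintro rfl
      norm_num at hy
    have hpm : ∀ g : N' ≃ₐ[K] N', (MonoidHom.id (N' ≃ₐ[K] N')) g y = y ∨
        (MonoidHom.id (N' ≃ₐ[K] N')) g y = -y := by
      intro g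
      apply sq_eq_sq_iff_eq_or_eq_neg.1
      rw [MonoidHom.id_apply, ← map_pow, hy, map_neg, map_one]
    obtain ⟨ε, h1, h2, h3⟩ := exists_sign (MonoidHom.id (N' ≃ₐ[K] N')) y hy0 hpm
    refine ⟨ε, h1, ?_⟩
    intro p
    apply h3
    obtain ⟨Φ, hΦ⟩ := p
    have hc : ComplexEmbedding.IsConj Φ ((galEmb K N').c ⟨Φ, hΦ⟩) := hΦ.choose_spec
    apply Φ.injective
    rw [MonoidHom.id_apply, hc.eq, map_neg]
    have h4 : (Φ y) ^ 2 = -1 := by
      rw [← map_pow, hy, map_neg, map_one]
    apply star_of_sq_neg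
    · rw [h4]; norm_num
    · rw [h4]; norm_num
  · intro H' hM p hp
    set Φ₀ : N →+* ℂ := p.1.comp (algebraMap N N') with hΦ₀
    obtain ⟨α, y, hy, hα1, hα2⟩ := hα (H'.map res) Φ₀
    have hfix : ∀ a ∈ H', (res a : N ≃ₐ[K] N) α = α := fun a ha =>
      hα1 _ (Subgroup.mem_map_of_mem _ ha)
    -- the values at conjugations
    have hreal : ∀ (a : N' ≃ₐ[K] N') (q : (galEmb K N').P), a ∈ H' → a = (galEmb K N').c q →
        ComplexEmbedding.IsConj q.1 a ∧ (q.1 y ^ 2).im = 0 ∧
          q.1 y ^ 2 = (q.1.comp (algebraMap N N')) α := by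
      intro a q ha haq
      have hc : ComplexEmbedding.IsConj q.1 a := by
        rw [haq]; exact q.2.choose_spec
      have e1 : q.1 y ^ 2 = (q.1.comp (algebraMap N N')) α := by
        rw [← map_pow, hy]; rfl
      refine ⟨hc, ?_, e1⟩
      have h2 := (isConj_res (N := N) hc).eq α
      rw [hfix a ha] at h2
      rw [e1]
      exact Complex.conj_eq_iff_im.1 h2.symm
    have hy0 : y ≠ 0 := by
      rintro rfl
      have hc := (hreal _ p hp rfl).1
      have h2 := (hα2 Φ₀ (res ((galEmb K N').c p)) (Subgroup.mem_map_of_mem _ hp)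
        (isConj_res hc)).1 ⟨1, Subgroup.one_mem _, by
          apply RingHom.ext
          intro x
          rfl⟩
      have h3 : α = 0 := by
        apply (algebraMap N N').injective
        rw [← hy, map_zero]
        ring
      rw [h3, map_zero] at h2
      simp at h2
    have hpm : ∀ g : H', H'.subtype g y = y ∨ H'.subtype g y = -y := by
      intro g
      apply sq_eq_sq_iff_eq_or_eq_neg.1
      rw [← map_pow, hy, Subgroup.subtype_apply, ← res_apply, hfix g.1 g.2]
    obtain ⟨ε, h1, h2, h3⟩ := exists_sign H'.subtype y hy0 hpm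
    refine ⟨ε, h1, ?_⟩
    intro a q haq
    have haq' : (a : N' ≃ₐ[K] N') = (galEmb K N').c q := haq
    obtain ⟨hc, him, hsq⟩ := hreal a.1 q a.2 haq'
    have h4 := hα2 (q.1.comp (algebraMap N N')) (res a.1) (Subgroup.mem_map_of_mem _ a.2)
      (isConj_res hc)
    constructor
    · rintro ⟨b, hb⟩
      apply h2
      have hb' : q.1 = p.1.comp ((b : N' ≃ₐ[K] N') : N' →+* N') := by
        rw [hb]; rfl
      have h5 := h4.1 ⟨res b.1, Subgroup.mem_map_of_mem _ b.2, by
        rw [hb', comp_act]⟩
      apply q.1.injective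
      rw [Subgroup.subtype_apply, hc.eq]
      apply star_of_sq_pos _ him
      rw [hsq]; exact h5
    · intro hn
      apply h3
      have h5 := h4.2 (by
        rintro ⟨h, hh, he⟩
        obtain ⟨b, hb, rfl⟩ := Subgroup.mem_map.1 hh
        apply hn
        have h6 : (p.1.comp (b : N' →+* N')).comp (algebraMap N N') =
            q.1.comp (algebraMap N N') := by
          rw [comp_act, he]
        obtain ⟨m, hm1, hm2⟩ := exists_ker (K := K) _ _ h6
        refine ⟨⟨b, hb⟩ * ⟨m, hM (MonoidHom.mem_ker.2 hm1)⟩, ?_⟩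
        apply Subtype.ext
        rw [hm2]
        rfl)
      apply q.1.injective
      rw [Subgroup.subtype_apply, hc.eq, map_neg]
      apply star_of_sq_neg _ him
      rw [hsq]; exact h5

end StarkC
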