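import Pool.Agent.StarkS.Stmts
import Pool.Agent.Stark.BRA

/-!
# Stark's conjecture up to sign: module SIDL (`J` is an ideal)
-/

open NumberField IsDedekindDomain
open scoped TensorProduct Classical

namespace StarkC
namespace SIDL

open CMB

section

variable {A : Type} [Group A] [Fintype A]

/-- A class function times an induced function. -/
theorem mul_indFun (H : Subgroup A) (χ f : A → ℂ) (hχ : ∀ x g, χ (x⁻¹ * g * x) = χ g) :
    (fun a => χ a * indFun H f a) = indFun H (fun a => χ a * f a) := by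
  funext a
  unfold indFun
  rw [mul_div_assoc', Finset.mul_sum]
  congr 1
  refine Finset.sum_congr rfl fun x _ => ?_
  split_ifs
  · show _ = χ (x⁻¹ * a * x) * f (x⁻¹ * a * x)
    rw [hχ]
  · rw [mul_zero]

/-- Multiplication by a function as a linear map. -/
def mulL (χ : A → ℂ) : (A → ℂ) →ₗ[ℤ] (A → ℂ) where
  toFun f := fun a => χ a * f a
  map_add' f f' := by
    funext a
    simp [mul_add]
  map_smul' n f := by
    funext a
    simp only [Pi.smul_apply, RingHom.id_apply, zsmul_eq_mul]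
    ring

omit [Fintype A] in
theorem char_class (ψ : A →* ℂˣ) (x g : A) :
    ((ψ (x⁻¹ * g * x) : ℂˣ) : ℂ) = ((ψ g : ℂˣ) : ℂ) := by
  congr 1
  rw [map_mul, map_mul, map_inv, mul_comm ((ψ x)⁻¹) (ψ g), mul_assoc, inv_mul_cancel, mul_one]

omit [Fintype A] in
/-- The product of the restriction of a representation and a linear character. -/
noncomputable def tw {V : Type} [AddCommGroup V] [Module ℂ V] (H : Subgroup A) (θ : H →* ℂˣ)
    (ρ : Representation ℂ A V) : Representation ℂ H V where
  toFun h := ((θ h : ℂˣ) : ℂ) • ρ (h : A)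
  map_one' := by
    rw [map_one, Units.val_one, one_smul]
    exact map_one ρ
  map_mul' a b := by
    rw [map_mul, Units.val_mul, Subgroup.coe_mul, map_mul, smul_mul_smul_comm]

omit [Fintype A] in
theorem tw_char {V : Type} [AddCommGroup V] [Module ℂ V] (H : Subgroup A)
    (θ : H →* ℂˣ) (ρ : Representation ℂ A V) (h : H) :
    (tw H θ ρ).character h = ρ.character (h : A) * extZ θ (h : A) := by
  rw [extZ_apply]
  show LinearMap.trace ℂ V (((θ h : ℂˣ) : ℂ) • ρ (h : A)) = _
  rw [map_smul, smul_eq_mul, mul_comm]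
  rfl

theorem mem_rep (hBRA : Stmt_BRA) {P : ∀ H : Subgroup A, (H →* ℂˣ) → Prop} (H : Subgroup A)
    (θ : H →* ℂˣ) {V : Type} [AddCommGroup V] [Module ℂ V] [Module.Finite ℂ V]
    (ρ : Representation ℂ A V) (hP : ∀ (J : Subgroup A) (ψ : J →* ℂˣ), J ≤ H → P J ψ) :
    indFun H (fun a => ρ.character a * extZ θ a) ∈ GS P := by
  obtain ⟨m, J, ψ, n, h⟩ := hBRA H V (tw H θ ρ)
  have e1 : indFun H (fun a => ρ.character a * extZ θ a) =
      BRA.indL H (Representation.character (tw H θ ρ)) := by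
    show _ = indFun H (BRA.ext0 H _)
    apply indFun_congr
    intro g hg
    show _ = (if h : g ∈ H then (Representation.character (tw H θ ρ)) ⟨g, h⟩ else 0)
    rw [dif_pos hg, tw_char H θ ρ ⟨g, hg⟩]
  have e2 : (Representation.character (tw H θ ρ) : H → ℂ) =
      ∑ i, n i • indFun (J i) (extZ (ψ i)) := by
    funext g
    rw [h g, Finset.sum_apply]
    refine Finset.sum_congr rfl fun i _ => ?_
    rw [Pi.smul_apply, zsmul_eq_mul]
  rw [e1, e2, map_sum]
  refine Submodule.sum_mem _ fun i _ => ?_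
  rw [map_smul, BRA.indL_mon]
  refine Submodule.smul_mem _ _ (mem_GS_of _ _ (hP _ _ (Subgroup.map_subtype_le _)))

end

end SIDL

theorem SIDL_thm (h : Stmt_BRA) : Stmt_SIDL := by
  intro G A _ _ _ E j f hf
  constructor
  · intro ψ
    have h1 : JJ E j ≤ (JJ E j).comap (SIDL.mulL (fun a => ((ψ a : ℂˣ) : ℂ))) := by
      refine Submodule.span_le.mpr ?_
      rintro _ ⟨⟨⟨H, θ⟩, hP⟩, rfl⟩
      show (fun a => ((ψ a : ℂˣ) : ℂ) * indFun H (extZ θ) a) ∈ JJ E j
      rw [SIDL.mul_indFun H _ _ (SIDL.char_class ψ)]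
      have e : indFun H (fun a => ((ψ a : ℂˣ) : ℂ) * extZ θ a) =
          indFun H (extZ ((ψ.comp H.subtype) * θ)) := by
        apply CMB.indFun_congr
        intro g hg
        have h2 := CMB.extZ_apply θ ⟨g, hg⟩
        have h3 := CMB.extZ_apply ((ψ.comp H.subtype) * θ) ⟨g, hg⟩
        rw [h2, h3, MonoidHom.mul_apply, Units.val_mul]
        rfl
      rw [e]
      exact CMB.mem_GS_of H _ hP
    exact h1 hf
  · intro V _ _ _ ρ
    have h1 : JJ E j ≤ (JJ E j).comap (SIDL.mulL (fun a => ρ.character a)) := by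
      refine Submodule.span_le.mpr ?_
      rintro _ ⟨⟨⟨H, θ⟩, hP⟩, rfl⟩
      show (fun a => ρ.character a * indFun H (extZ θ) a) ∈ JJ E j
      rw [SIDL.mul_indFun H _ _ (fun x g => by
        have := Representation.char_conj ρ g x⁻¹
        rwa [inv_inv] at this)]
      exact SIDL.mem_rep h H θ ρ (fun J ψ hJ a ha => hP a (hJ ha))
    exact h1 hf

end StarkC
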