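import Pool.Agent.StarkS.Stmts

/-!
SLIN: linear characters of 2-power order and one place.
-/

open NumberField IsDedekindDomain
open scoped TensorProduct Classical

namespace StarkC

namespace SLIN

variable {G A : Type} [Group G] [Group A]

theorem isSign_of_sq {ψ : A →* ℂˣ} (h : ψ ^ 2 = 1) : IsSign ψ := by
  intro a
  have h1 : (ψ a) ^ 2 = 1 := by
    have := DFunLike.congr_fun h a
    rwa [MonoidHom.pow_apply, MonoidHom.one_apply] at this
  have h2 : ((ψ a : ℂˣ) : ℂ) * ((ψ a : ℂˣ) : ℂ) = 1 := by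
    rw [← sq, ← Units.val_pow_eq_pow_val, h1, Units.val_one]
  rcases mul_self_eq_one_iff.1 h2 with h3 | h3
  · left
    exact Units.ext h3
  · right
    apply Units.ext
    rw [h3, Units.val_neg, Units.val_one]

theorem sq_of_cc (E : Emb G) {j : A →* G} (hj : Function.Injective j) {a : A} (ha : CCj E j a) :
    a * a = 1 := by
  obtain ⟨q, hq⟩ := ha
  apply hj
  rw [map_mul, hq, E.c_sq, map_one]

theorem val_sq_of_cc (E : Emb G) {j : A →* G} (hj : Function.Injective j) {a : A}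
    (ha : CCj E j a) (ψ : A →* ℂˣ) : ψ a ^ 2 = 1 := by
  rw [sq, ← map_mul, sq_of_cc E hj ha, map_one]

/-- Multiplication by the value of a linear character commutes with induction. -/
theorem indL_sub_mul [Fintype A] (B : Subgroup A) (ψ : A →* ℂˣ) (t : ℂ) (f : B → ℂ) (a : A) :
    MON.indL B (fun b => (((ψ b : ℂˣ) : ℂ) - t) * f b) a =
      (((ψ a : ℂˣ) : ℂ) - t) * MON.indL B f a := by
  rw [MON.indL_apply, MON.indL_apply, mul_div_assoc', Finset.mul_sum]
  congr 1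
  refine Finset.sum_congr rfl fun x _ => ?_
  split_ifs with h
  · have h1 : ψ (x⁻¹ * a * x) = ψ a := by
      rw [map_mul, map_mul, map_inv, mul_comm (ψ x)⁻¹, mul_assoc, inv_mul_cancel, mul_one]
    show (((ψ (x⁻¹ * a * x) : ℂˣ) : ℂ) - t) * _ = _
    rw [h1]
  · rw [mul_zero]

/-- Existence of the sign characters, for injections. -/
theorem exists_sign {E : Emb G} {M : Subgroup G} (hS : HasSigns E M) {B : Type} [Group B]
    (j : B →* G) (hM : M ≤ j.range) (p : E.P) (hp : E.c p ∈ j.range) :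
    ∃ ε : B →* ℂˣ, IsES E j (Same E j p) ε := by
  obtain ⟨ε, hε, hε2⟩ := hS j.range hM p hp
  refine ⟨ε.comp j.rangeRestrict, fun a => hε _, fun a q ha => ?_⟩
  obtain ⟨h1, h2⟩ := hε2 (j.rangeRestrict a) q ha
  have key : Same E j p q ↔ Same E j.range.subtype p q := by
    constructor
    · rintro ⟨b, hb⟩
      exact ⟨j.rangeRestrict b, hb⟩
    · rintro ⟨⟨_, ⟨b, rfl⟩⟩, hb⟩
      exact ⟨b, hb⟩
  refine ⟨fun h => h1 (key.1 h), fun h => h2 fun h' => h (key.2 h')⟩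

end SLIN

theorem SLIN_thm (h1 : Stmt_SLN1) (h2 : Stmt_SFLP) (h3 : Stmt_SIDL) (h4 : Stmt_SIND) :
    Stmt_SLIN := by
  intro G _ E M hM hS n
  induction n with
  | zero =>
    intro A _ _ j hj hMj ψ hψ hψM p a₀ ha₀ ε hε
    refine h1 G A E j hj hM ψ (SLIN.isSign_of_sq ?_) p a₀ ha₀ ε hε
    rw [pow_zero, pow_one] at hψ
    rw [hψ]
    ext a
    simp
  | succ m ih =>
    intro A _ _ j hj hMj ψ hψ hψM p a₀ ha₀ ε hε
    rcases Nat.eq_zero_or_pos m with hm | hm
    · subst hm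
      exact h1 G A E j hj hM ψ (SLIN.isSign_of_sq (by simpa using hψ)) p a₀ ha₀ ε hε
    by_cases hη1 : ψ ^ (2 ^ m) = 1
    · exact ih A j hj hMj ψ hη1 hψM p a₀ ha₀ ε hε
    set η : A →* ℂˣ := ψ ^ (2 ^ m) with hη
    have hηs : IsSign η := by
      apply SLIN.isSign_of_sq
      rw [hη, ← pow_mul, ← pow_succ]
      exact hψ
    obtain ⟨τ, hτ⟩ : ∃ τ, η τ = -1 := by
      by_contra hcon
      apply hη1
      ext a
      have h5 : η a = 1 := (hηs a).resolve_right fun h => hcon ⟨a, h⟩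
      rw [h5, MonoidHom.one_apply]
    have hηc : ∀ a, CCj E j a → η a = 1 := by
      intro a ha
      obtain ⟨k, rfl⟩ : ∃ k, m = k + 1 := ⟨m - 1, by omega⟩
      rw [hη, MonoidHom.pow_apply, pow_succ, mul_comm, pow_mul, SLIN.val_sq_of_cc E hj ha,
        one_pow]
    have hb₀ : a₀ ∈ η.ker := hηc a₀ ⟨p, ha₀⟩
    have hMB : M ≤ (j.comp η.ker.subtype).range := by
      intro x hx
      obtain ⟨a, rfl⟩ := hMj hx
      have h5 : a ∈ η.ker := by
        rw [MonoidHom.mem_ker, hη, MonoidHom.pow_apply, hψM a hx, one_pow]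
      exact ⟨⟨a, h5⟩, rfl⟩
    obtain ⟨εB, hεB⟩ := SLIN.exists_sign hS (j.comp η.ker.subtype) hMB p
      ⟨⟨a₀, hb₀⟩, ha₀⟩
    have hD := h2 G A E j hj hM η τ hηs hτ hηc p a₀ ha₀ εB ε hεB hε
    have hIH := fun inst : Fintype η.ker => @ih η.ker _ inst (j.comp η.ker.subtype)
      (hj.comp η.ker.subtype_injective) hMB (ψ.comp η.ker.subtype)
      (by
        ext b
        have h5 : η (b : A) = 1 := b.2
        have h6 : (ψ (b : A)) ^ (2 ^ m) = 1 := h5
        rw [MonoidHom.pow_apply, MonoidHom.one_apply]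
        exact congrArg (fun u : ℂˣ => (u : ℂ)) h6)
      (fun b hb => hψM b hb) p ⟨a₀, hb₀⟩ ha₀ εB hεB
    have hI := h4 G A E j η.ker _ (hIH _)
    have hψD := (h3 G A E j _ hD).1 ψ
    have hcD : (fun a => ((ψ a₀ : ℂˣ) : ℂ) *
        (MON.indL η.ker (fun b => 1 + ((εB b : ℂˣ) : ℂ)) - fun a => 1 + ((ε a : ℂˣ) : ℂ)) a) ∈
        JJ E j := by
      have h5 : ((ψ a₀ : ℂˣ) : ℂ) * ((ψ a₀ : ℂˣ) : ℂ) = 1 := by
        rw [← sq, ← Units.val_pow_eq_pow_val, SLIN.val_sq_of_cc E hj ⟨p, ha₀⟩, Units.val_one]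
      rcases mul_self_eq_one_iff.1 h5 with h6 | h6
      · rw [h6]
        simpa only [one_mul] using hD
      · rw [h6]
        have h7 := neg_mem hD
        convert h7 using 1
        funext a
        rw [Pi.neg_apply, neg_one_mul]
    have hfin := Submodule.add_mem _ (Submodule.sub_mem _ hI hψD) hcD
    convert hfin using 1
    funext a
    rw [Pi.add_apply, Pi.sub_apply]
    have h8 := SLIN.indL_sub_mul η.ker ψ ((ψ a₀ : ℂˣ) : ℂ) (fun b => 1 + ((εB b : ℂˣ) : ℂ)) a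
    have h9 : MON.indL η.ker (fun b => (((ψ.comp η.ker.subtype b : ℂˣ) : ℂ) -
        ((ψ.comp η.ker.subtype ⟨a₀, hb₀⟩ : ℂˣ) : ℂ)) * (1 + ((εB b : ℂˣ) : ℂ))) a =
        (((ψ a : ℂˣ) : ℂ) - ((ψ a₀ : ℂˣ) : ℂ)) *
          MON.indL η.ker (fun b => 1 + ((εB b : ℂˣ) : ℂ)) a := h8
    rw [h9, Pi.sub_apply]
    ring

end StarkC
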