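import Pool.Agent.StarkS.Stmts

/-!
# Stark's conjecture up to sign: sign characters and one place (module SLN1)
-/

open NumberField IsDedekindDomain
open scoped TensorProduct Classical

namespace StarkC
namespace SLN1

variable {G A : Type} [Group G] [Group A] [Fintype A]

/-- Induction of a restricted class function from the kernel of a sign character. -/
theorem indL_ker (ε : A →* ℂˣ) (hε : IsSign ε) (g0 : A) (hg0 : ε g0 ≠ 1) (F : A → ℂ)
    (hF : ∀ x g : A, F (x⁻¹ * g * x) = F g) (a : A) :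
    MON.indL ε.ker (fun b => F b) a = F a * (1 + ((ε a : ℂˣ) : ℂ)) := by
  rw [← CMB.half ε hε g0 hg0 a, ← CMB.indFun_class ε.ker F hF a, MON.indL_apply]
  unfold indFun
  congr 1

theorem conj_eq (E : Emb G) (j : A →* G) (hj : Function.Injective j) {p q : E.P} {a₀ a : A}
    (h0 : j a₀ = E.c p) (ha : j a = E.c q) (h : Same E j p q) : ∃ x : A, a = x⁻¹ * a₀ * x := by
  obtain ⟨x, hx⟩ := h
  refine ⟨x, hj ?_⟩
  rw [ha, hx, E.c_act, map_mul, map_mul, map_inv, h0]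

theorem psi_one (E : Emb G) (j : A →* G) (hj : Function.Injective j) {p q : E.P} {a₀ a : A}
    (h0 : j a₀ = E.c p) (ha : j a = E.c q) (ψ ε : A →* ℂˣ) (hε : IsES E j (Same E j p) ε)
    (h1 : ε a = 1) (hψ : ψ a₀ = 1) : ψ a = 1 := by
  by_cases hs : Same E j p q
  · obtain ⟨x, rfl⟩ := conj_eq E j hj h0 ha hs
    rw [map_mul, map_mul, map_inv, hψ, mul_one, inv_mul_cancel]
  · exfalso
    have h2 := (hε.2 a q ha).2 hs
    rw [h1] at h2
    have h3 := congrArg (fun u : ℂˣ => (u : ℂ)) h2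
    simp only [Units.val_one, Units.val_neg] at h3
    norm_num at h3

theorem jj_mem {G A : Type} [Group G] [Group A] {i₁ i₂ : Fintype A} {E : Emb G} {j : A →* G}
    {f : A → ℂ} (h : f ∈ @JJ G A _ _ i₁ E j) : f ∈ @JJ G A _ _ i₂ E j := by
  rw [Subsingleton.elim i₂ i₁]
  exact h

/-- The case `ψ = 1` at the given conjugation. -/
theorem case_one (h2 : Stmt_SPOS) (h4 : Stmt_SIND) (E : Emb G) (j : A →* G)
    (hj : Function.Injective j) (hm : HasMinus E) (ψ : A →* ℂˣ) (hψ : IsSign ψ) (p : E.P) (a₀ : A)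
    (h0 : j a₀ = E.c p) (ε : A →* ℂˣ) (hε : IsES E j (Same E j p) ε) (h1 : ψ a₀ = 1) :
    (fun a => (((ψ a : ℂˣ) : ℂ) - 1) * (1 + ((ε a : ℂˣ) : ℂ))) ∈ JJ E j := by
  by_cases hall : ∀ a, ε a = 1
  · have h5 := h2 G A E j ψ hm hψ (by
      rintro a ⟨q, hq⟩
      exact psi_one E j hj h0 hq ψ ε hε (hall a) h1)
    have h6 : (fun a => (((ψ a : ℂˣ) : ℂ) - 1) * (1 + ((ε a : ℂˣ) : ℂ))) =
        (-2 : ℤ) • (fun a => 1 - ((ψ a : ℂˣ) : ℂ)) := by
      funext a
      rw [hall a, Pi.smul_apply, zsmul_eq_mul]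
      push_cast
      ring
    rw [h6]
    exact Submodule.smul_mem _ _ h5
  · push Not at hall
    obtain ⟨g0, hg0⟩ := hall
    have h5 := h2 G ε.ker E (j.comp ε.ker.subtype) (ψ.comp ε.ker.subtype) hm
      (fun b => hψ b) (by
        rintro b ⟨q, hq⟩
        exact psi_one E j hj h0 hq ψ ε hε b.2 h1)
    have h6 : (fun b : ε.ker => ((ψ b : ℂˣ) : ℂ) - 1) ∈ JJ E (j.comp ε.ker.subtype) := by
      have h7 : (fun b : ε.ker => ((ψ b : ℂˣ) : ℂ) - 1) =
          (-1 : ℤ) • (fun b : ε.ker => 1 - (((ψ.comp ε.ker.subtype) b : ℂˣ) : ℂ)) := by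
        funext b
        rw [Pi.smul_apply, zsmul_eq_mul]
        show ((ψ b : ℂˣ) : ℂ) - 1 = _ * (1 - ((ψ b : ℂˣ) : ℂ))
        push_cast
        ring
      rw [h7]
      exact Submodule.smul_mem _ _ h5
    have h8 := h4 G A E j ε.ker (fun b : ε.ker => ((ψ b : ℂˣ) : ℂ) - 1) (jj_mem h6)
    have h9 : MON.indL ε.ker (fun b : ε.ker => ((ψ b : ℂˣ) : ℂ) - 1) =
        (fun a => (((ψ a : ℂˣ) : ℂ) - 1) * (1 + ((ε a : ℂˣ) : ℂ))) := by
      funext a
      refine indL_ker ε hε.1 g0 hg0 (fun a => ((ψ a : ℂˣ) : ℂ) - 1) ?_ a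
      intro x g
      have : ψ (x⁻¹ * g * x) = ψ g := by
        rw [map_mul, map_mul, map_inv, mul_comm, ← mul_assoc, mul_inv_cancel, one_mul]
      simp only [this]
    rw [h9] at h8
    exact h8

end SLN1

theorem SLN1_thm (h1 : Stmt_SNEG) (h2 : Stmt_SPOS) (h3 : Stmt_SIDL) (h4 : Stmt_SIND) :
    Stmt_SLN1 := by
  intro G A _ _ _ E j hj hm ψ hψ p a₀ h0 ε hε
  rcases hψ a₀ with ha | ha
  · have := SLN1.case_one h2 h4 E j hj hm ψ hψ p a₀ h0 ε hε ha
    rw [ha]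
    simpa using this
  · obtain ⟨e, he, hec⟩ := hm
    set e' : A →* ℂˣ := e.comp j with he'
    have hs : IsSign (e' * ψ) := by
      intro a
      rw [MonoidHom.mul_apply]
      have h5 : e' a = 1 ∨ e' a = -1 := he (j a)
      rcases h5 with h5 | h5 <;> rcases hψ a with h6 | h6 <;> rw [h5, h6] <;> simp
    have h5 : (e' * ψ) a₀ = 1 := by
      have h6 : e' a₀ = -1 := by
        show e (j a₀) = -1
        rw [h0]
        exact hec p
      rw [MonoidHom.mul_apply, h6, ha]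
      simp
    have c1 := SLN1.case_one h2 h4 E j hj ⟨e, he, hec⟩ (e' * ψ) hs p a₀ h0 ε hε h5
    have c2 : (fun a => 1 + ((e' a : ℂˣ) : ℂ)) ∈ JJ E j := by
      refine h1 G A E j e' (fun a => he (j a)) ?_
      rintro a ⟨q, hq⟩
      show e (j a) = -1
      rw [hq]
      exact hec q
    have c3 := (h3 G A E j _ c2).1 ψ
    have c4 := (h3 G A E j _ c2).1 (ψ * ε)
    have key : (fun a => (((ψ a : ℂˣ) : ℂ) - ((ψ a₀ : ℂˣ) : ℂ)) * (1 + ((ε a : ℂˣ) : ℂ))) =
        (-1 : ℤ) • (fun a => ((((e' * ψ) a : ℂˣ) : ℂ) - 1) * (1 + ((ε a : ℂˣ) : ℂ))) +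
        ((fun a => ((ψ a : ℂˣ) : ℂ) * (1 + ((e' a : ℂˣ) : ℂ))) +
        (fun a => (((ψ * ε) a : ℂˣ) : ℂ) * (1 + ((e' a : ℂˣ) : ℂ)))) := by
      funext a
      rw [Pi.add_apply, Pi.add_apply, Pi.smul_apply, zsmul_eq_mul, ha]
      simp only [MonoidHom.mul_apply, Units.val_mul, Units.val_neg, Units.val_one]
      push_cast
      ring
    rw [key]
    exact Submodule.add_mem _ (Submodule.smul_mem _ _ c1) (Submodule.add_mem _ c3 c4)

end StarkC
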