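import Pool.Agent.StarkS.Stmts
import Pool.Agent.StarkT.CMBT

/-!
# Monomial characters of a 2-group and one place (module SMNX)
-/

open scoped Classical

namespace StarkC.SMNX

section

variable {A : Type} [Group A] [Fintype A]

theorem indFun_cg {H H' : Subgroup A} (hH : H = H') {f f' : A → ℂ} (h : ∀ g ∈ H, f g = f' g) :
    indFun H f = indFun H' f' := by
  subst hH
  exact CMB.indFun_congr H h

omit [Fintype A] in
/-- The restriction of `ψ` to `H` as a subgroup of `B`. -/
theorem exists_restrict (H B : Subgroup A) (ψ : H →* ℂˣ) :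
    ∃ ψB : (H.subgroupOf B) →* ℂˣ,
      ∀ (b : H.subgroupOf B) (h : H), ((b : B) : A) = h → ψB b = ψ h := by
  refine ⟨ψ.comp
    { toFun := fun b => ⟨((b : B) : A), b.2⟩
      map_one' := rfl
      map_mul' := fun _ _ => rfl }, ?_⟩
  intro b h hbh
  rw [MonoidHom.comp_apply]
  congr 1
  exact Subtype.ext hbh

theorem indL_restrict {H B : Subgroup A} (hHB : H ≤ B) (ψ : H →* ℂˣ)
    (ψB : (H.subgroupOf B) →* ℂˣ)
    (hψ : ∀ (b : H.subgroupOf B) (h : H), ((b : B) : A) = h → ψB b = ψ h) :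
    MON.indL B (indFun (H.subgroupOf B) (extZ ψB)) = indFun H (extZ ψ) := by
  rw [MON.indL_indFun]
  apply indFun_cg
  · rw [Subgroup.subgroupOf_map_subtype]
    exact inf_eq_left.mpr hHB
  · rintro g ⟨b, hb, rfl⟩
    have e1 : extZ (MON.tr (H.subgroupOf B) ψB) (b : A) = extZ ψB b := MON.extZ_tr _ _ b
    have hb2 : (b : A) ∈ H := hb
    have e2 := CMB.extZ_apply ψB ⟨b, hb⟩
    have e3 := CMB.extZ_apply ψ ⟨(b : A), hb2⟩
    have e4 := hψ ⟨b, hb⟩ ⟨(b : A), hb2⟩ rfl
    change extZ (MON.tr (H.subgroupOf B) ψB) (b : A) = extZ ψ (b : A)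
    rw [e1]
    change extZ ψB b = _ at e2
    change extZ ψ (b : A) = _ at e3
    rw [e2, e3, e4]

/-- The projection formula. -/
theorem indL_mul (B : Subgroup A) (f : B → ℂ) (F : A → ℂ) (hF : ∀ x g, F (x⁻¹ * g * x) = F g) :
    MON.indL B (fun b => f b * F b) = fun a => MON.indL B f a * F a := by
  funext g
  rw [MON.indL_apply, MON.indL_apply, div_mul_eq_mul_div, Finset.sum_mul]
  congr 1
  refine Finset.sum_congr rfl fun x _ => ?_
  split_ifs with h
  · simp only [hF]
  · rw [zero_mul]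

theorem indL_smul (B : Subgroup A) (f : B → ℂ) (c : ℂ) :
    MON.indL B (fun b => c * f b) = fun a => c * MON.indL B f a := by
  funext g
  rw [MON.indL_apply, MON.indL_apply, mul_div_assoc', Finset.mul_sum]
  congr 1
  refine Finset.sum_congr rfl fun x _ => ?_
  split_ifs with h
  · rfl
  · rw [mul_zero]

/-- Invariance under conjugation. -/
theorem indL_conj (B : Subgroup A) [B.Normal] (t : A) (f f' : B → ℂ)
    (h : ∀ b b' : B, (b' : A) = t * b * t⁻¹ → f' b = f b') :
    MON.indL B f' = MON.indL B f := by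
  funext g
  rw [MON.indL_apply, MON.indL_apply]
  congr 1
  refine Fintype.sum_equiv (Equiv.mulRight t⁻¹) _ _ fun x => ?_
  have e : (Equiv.mulRight t⁻¹ x)⁻¹ * g * (Equiv.mulRight t⁻¹ x) = t * (x⁻¹ * g * x) * t⁻¹ := by
    change (x * t⁻¹)⁻¹ * g * (x * t⁻¹) = _
    group
  by_cases hx : x⁻¹ * g * x ∈ B
  · have hx2 : (Equiv.mulRight t⁻¹ x)⁻¹ * g * (Equiv.mulRight t⁻¹ x) ∈ B := by
      rw [e]
      exact (inferInstance : B.Normal).conj_mem _ hx t
    rw [dif_pos hx, dif_pos hx2]
    exact h _ _ e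
  · have hx2 : (Equiv.mulRight t⁻¹ x)⁻¹ * g * (Equiv.mulRight t⁻¹ x) ∉ B := by
      rw [e]
      intro h2
      apply hx
      have := (inferInstance : B.Normal).conj_mem _ h2 t⁻¹
      have e3 : t⁻¹ * (t * (x⁻¹ * g * x) * t⁻¹) * t⁻¹⁻¹ = x⁻¹ * g * x := by group
      rw [e3] at this
      exact this
    rw [dif_neg hx, dif_neg hx2]

variable (η : A →* ℂˣ) (hη : IsSign η) (t : A) (ht : η t = -1) (B : Subgroup A)
  (hB : ∀ a, a ∈ B ↔ η a = 1)

theorem units_ne : (-1 : ℂˣ) ≠ 1 := by
  intro h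
  have := congrArg (fun u : ℂˣ => (u : ℂ)) h
  norm_num at this

include hη ht hB in
omit [Fintype A] in
theorem ker_index : B.index = 2 := by
  have hne : (-1 : ℂˣ) ≠ 1 := units_ne
  rw [Subgroup.index_eq_two_iff]
  refine ⟨t, fun b => ?_⟩
  simp only [hB, map_mul, ht]
  rcases hη b with hb | hb
  · right
    refine ⟨hb, ?_⟩
    rw [hb, one_mul]
    exact hne
  · left
    refine ⟨?_, ?_⟩
    · rw [hb]; simp
    · rw [hb]; exact hne

include hB in
theorem indL_zero (f : B → ℂ) (a : A) (ha : a ∉ B) : MON.indL B f a = 0 := by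
  rw [MON.indL_apply, Finset.sum_eq_zero, zero_div]
  intro x _
  rw [dif_neg]
  intro h
  apply ha
  rw [hB] at h ⊢
  rw [map_mul, map_mul, map_inv, mul_comm, ← mul_assoc, mul_inv_cancel, one_mul] at h
  exact h

include hη ht hB in
theorem indL_two (f : B → ℂ) (hf : ∀ x g : B, f (x⁻¹ * g * x) = f g)
    (a a' : B) (ha : (a' : A) = t⁻¹ * a * t) :
    MON.indL B f a = f a + f a' := by
  have hcard : (Nat.card A : ℂ) = (Nat.card B : ℂ) * 2 := by
    have := Subgroup.card_mul_index B
    rw [ker_index η hη t ht B hB] at this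
    rw [← this]
    push_cast
    rfl
  have hk : (Nat.card B : ℂ) ≠ 0 := by
    exact_mod_cast Nat.card_pos.ne'
  have key : MON.indL B f a =
      (∑ x : A, ((if x ∈ B then f a - f a' else 0) + f a')) / (Nat.card B : ℂ) := by
    rw [MON.indL_apply]
    congr 1
    refine Finset.sum_congr rfl fun x _ => ?_
    have hmem : x⁻¹ * (a : A) * x ∈ B := by
      have h1 : η (a : A) = 1 := (hB _).1 a.2
      rw [hB, map_mul, map_mul, map_inv, h1, mul_one, inv_mul_cancel]
    rw [dif_pos hmem]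
    by_cases hx : x ∈ B
    · rw [if_pos hx, sub_add_cancel]
      have := hf ⟨x, hx⟩ a
      rw [← this]
      rfl
    · rw [if_neg hx, zero_add]
      have hx1 : η x = -1 := (hη x).resolve_left (fun h => hx ((hB x).2 h))
      have hb : t⁻¹ * x ∈ B := by
        rw [hB, map_mul, map_inv, ht, hx1, inv_mul_cancel]
      have := hf ⟨t⁻¹ * x, hb⟩ a'
      rw [← this]
      congr 1
      apply Subtype.ext
      change x⁻¹ * (a : A) * x = (t⁻¹ * x)⁻¹ * (a' : A) * (t⁻¹ * x)
      rw [ha]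
      group
  rw [key, Finset.sum_add_distrib, Finset.sum_const,
    Finset.card_univ, ← Nat.card_eq_fintype_card, nsmul_eq_mul, hcard, Finset.sum_ite,
    Finset.sum_const_zero, add_zero, Finset.sum_const, nsmul_eq_mul]
  have hc2 : ((Finset.univ.filter fun x : A => x ∈ B).card : ℂ) = (Nat.card B : ℂ) := by
    rw [Nat.card_eq_fintype_card, Fintype.card_subtype]
  rw [hc2]
  field_simp
  ring

end

/-- A sign character of a 2-group quotient which is trivial on a proper subgroup. -/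
theorem exists_eta {A : Type} [Group A] [Fintype A] (C : Subgroup A) [C.Normal] (n : ℕ)
    (hidx : C.index = 2 ^ n) (H : Subgroup A) (hCH : C ≤ H) (hH : H ≠ ⊤) :
    ∃ (η : A →* ℂˣ) (t : A) (B : Subgroup A), IsSign η ∧ H ≤ B ∧ η t = -1 ∧ B.Normal ∧
      ∀ a, a ∈ B ↔ η a = 1 := by
  have hQ : Nat.card (A ⧸ C) = 2 ^ n := hidx
  set H' : Subgroup (A ⧸ C) := H.map (QuotientGroup.mk' C) with hH'
  have hcom : H'.comap (QuotientGroup.mk' C) = H := by
    rw [hH', Subgroup.comap_map_eq, QuotientGroup.ker_mk', sup_eq_left]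
    exact hCH
  have hH'top : H' ≠ ⊤ := by
    intro h
    apply hH
    rw [← hcom, h, Subgroup.comap_top]
  have : Fact (Nat.Prime 2) := ⟨Nat.prime_two⟩
  have hdvd : Nat.card H' ∣ 2 ^ n := by
    rw [← hQ]
    exact Subgroup.card_subgroup_dvd_card H'
  obtain ⟨k, hkn, hk⟩ := (Nat.dvd_prime_pow Nat.prime_two).1 hdvd
  have hklt : k < n := by
    rcases lt_or_eq_of_le hkn with h | h
    · exact h
    · exfalso
      apply hH'top
      apply Subgroup.eq_top_of_card_eq
      rw [hk, hQ, h]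
  obtain ⟨K, hK, hHK⟩ := Sylow.exists_subgroup_card_pow_prime_le (p := 2) (n := k) (m := n - 1)
    (by rw [hQ]; exact pow_dvd_pow 2 (Nat.sub_le n 1)) H' hk (by omega)
  have hKidx : K.index = 2 := by
    have h1 := Subgroup.card_mul_index K
    rw [hK, hQ] at h1
    have h2 : (2 : ℕ) ^ n = 2 ^ (n - 1) * 2 := by
      rw [← pow_succ]
      congr 1
      omega
    rw [h2] at h1
    exact Nat.eq_of_mul_eq_mul_left (by positivity) h1
  set B : Subgroup A := K.comap (QuotientGroup.mk' C) with hB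
  have hBidx : B.index = 2 := by
    rw [hB, Subgroup.index_comap_of_surjective _ (QuotientGroup.mk'_surjective C), hKidx]
  have hHB : H ≤ B := by
    rw [← hcom]
    exact Subgroup.comap_mono hHK
  have hne : (-1 : ℂˣ) ≠ 1 := by
    intro h
    have := congrArg (fun u : ℂˣ => (u : ℂ)) h
    norm_num at this
  have hmul : ∀ a b : A, a * b ∈ B ↔ (a ∈ B ↔ b ∈ B) := fun a b =>
    Subgroup.mul_mem_iff_of_index_two hBidx
  let η : A →* ℂˣ :=
    { toFun := fun a => if a ∈ B then 1 else -1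
      map_one' := by rw [if_pos B.one_mem]
      map_mul' := by
        intro a b
        by_cases ha : a ∈ B <;> by_cases hb : b ∈ B <;> simp [hmul, ha, hb] }
  have hηa : ∀ a, η a = if a ∈ B then 1 else -1 := fun a => rfl
  obtain ⟨t, ht⟩ : ∃ t : A, t ∉ B := by
    by_contra hcon
    push Not at hcon
    have : B = ⊤ := by
      rw [eq_top_iff]
      intro x _
      exact hcon x
    rw [this, Subgroup.index_top] at hBidx
    omega
  refine ⟨η, t, B, ?_, hHB, ?_, Subgroup.normal_of_index_eq_two hBidx, ?_⟩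
  · intro a
    rw [hηa]
    split_ifs
    · exact Or.inl rfl
    · exact Or.inr rfl
  · rw [hηa, if_neg ht]
  · intro a
    rw [hηa]
    by_cases ha : a ∈ B
    · simp [ha]
    · simp only [ha, if_false, false_iff]
      exact hne

section

variable {G : Type} [Group G]

theorem exists_sign (E : Emb G) {M : Subgroup G} (hS : HasSigns E M) {B : Type} [Group B]
    (k : B →* G) (hM : M ≤ k.range) (p : E.P) (b₀ : B) (hb : k b₀ = E.c p) :
    ∃ ε : B →* ℂˣ, IsES E k (Same E k p) ε := by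
  obtain ⟨ε₁, h1, h2⟩ := hS k.range hM p ⟨b₀, hb⟩
  refine ⟨ε₁.comp k.rangeRestrict, fun a => h1 _, ?_⟩
  intro a q haq
  have hiff : Same E k.range.subtype p q ↔ Same E k p q := by
    constructor
    · rintro ⟨⟨g, a', ha'⟩, hg⟩
      refine ⟨a', ?_⟩
      rw [hg]
      change E.act p g = _
      rw [ha']
    · rintro ⟨a', hg⟩
      exact ⟨⟨k a', a', rfl⟩, hg⟩
  have h3 := h2 (k.rangeRestrict a) q haq
  rw [hiff] at h3
  exact h3

end

/-- The case `H = ⊤`. -/
theorem top_case (h1 : Stmt_SLIN) {G : Type} [Group G] (E : Emb G) (M : Subgroup G)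
    (hm : HasMinus E) (hs : HasSigns E M) (n : ℕ) (A : Type) [Group A] [Fintype A] (j : A →* G)
    (hj : Function.Injective j) (hM : M ≤ j.range) (C : Subgroup A) [C.Normal]
    (hC : ∀ a, j a ∈ M → a ∈ C) (hidx : C.index = 2 ^ n) (H : Subgroup A) (ψ : H →* ℂˣ)
    (hH : H = ⊤) (hψ : ∀ h : H, (h : A) ∈ C → ψ h = 1) (p : E.P) (a₀ : A) (ha₀ : j a₀ = E.c p)
    (ε : A →* ℂˣ) (hε : IsES E j (Same E j p) ε) :
    (fun a => (indFun H (extZ ψ) a - indFun H (extZ ψ) a₀) * (1 + ((ε a : ℂˣ) : ℂ))) ∈ JJ E j := by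
  subst hH
  set ψ' : A →* ℂˣ := ψ.comp Subgroup.topEquiv.symm.toMonoidHom with hψ'
  have hval : ∀ a, indFun ⊤ (extZ ψ) a = ((ψ' a : ℂˣ) : ℂ) := by
    intro a
    rw [CMB.indFun_class]
    · have e1 : indFun (⊤ : Subgroup A) (fun _ => 1) a = 1 := by
        unfold indFun
        rw [Finset.sum_congr rfl fun x _ => if_pos (Subgroup.mem_top _), Finset.sum_const,
          Finset.card_univ, nsmul_eq_mul, mul_one, ← Nat.card_eq_fintype_card, Subgroup.card_top]
        exact div_self (by exact_mod_cast Nat.card_pos.ne')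
      rw [e1, mul_one]
      have := CMB.extZ_apply ψ ⟨a, Subgroup.mem_top a⟩
      exact this
    · intro x g
      exact CMB.extZ_class ψ x g (Subgroup.mem_top _) (Subgroup.mem_top _)
  simp only [hval]
  apply h1 G E M hm hs n A j hj hM ψ' _ _ p a₀ ha₀ ε hε
  · ext a
    rw [MonoidHom.pow_apply, ← map_pow, MonoidHom.one_apply]
    have h2 : a ^ (2 ^ n) ∈ C := by
      rw [← hidx]
      exact Subgroup.pow_index_mem C a
    have h3 := hψ ⟨a ^ (2 ^ n), Subgroup.mem_top _⟩ h2
    have h4 : ψ' (a ^ (2 ^ n)) = 1 := h3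
    rw [h4]
  · intro a ha
    exact hψ ⟨a, Subgroup.mem_top _⟩ (hC a ha)

end StarkC.SMNX

namespace StarkC

open StarkC.SMNX

theorem SMNX_thm (h1 : Stmt_SLIN) (h2 : Stmt_SADD) (h3 : Stmt_SLN1) (h4 : Stmt_SNEG)
    (_h5 : Stmt_SPOS) (h6 : Stmt_SIDL) (h7 : Stmt_SIND) (h8 : Stmt_SREP) : Stmt_SMNX := by
  intro G _ E M hm hs n
  induction n with
  | zero =>
    intro A _ _ j hj hM C _ hC hidx H ψ hCH hψ p a₀ ha₀ ε hε
    have hH : H = ⊤ := by
      rw [pow_zero, Subgroup.index_eq_one] at hidx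
      rw [eq_top_iff, ← hidx]
      exact hCH
    exact top_case h1 E M hm hs 0 A j hj hM C hC hidx H ψ hH hψ p a₀ ha₀ ε hε
  | succ n ih =>
    intro A _ _ j hj hM C _ hC hidx H ψ hCH hψ p a₀ ha₀ ε hε
    by_cases hH : H = ⊤
    · exact top_case h1 E M hm hs (n + 1) A j hj hM C hC hidx H ψ hH hψ p a₀ ha₀ ε hε
    obtain ⟨η, t, B, hη, hHB, ht, hBn, hB⟩ := exists_eta C (n + 1) hidx H hCH hH
    have hne : (-1 : ℂˣ) ≠ 1 := units_ne
    obtain ⟨ψB, hψB⟩ := exists_restrict H B ψ
    set jB : B →* G := j.comp B.subtype with hjB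
    have hjBinj : Function.Injective jB := hj.comp B.subtype_injective
    set y : B → ℂ := indFun (H.subgroupOf B) (extZ ψB) with hy
    have hx : MON.indL B y = indFun H (extZ ψ) := indL_restrict hHB ψ ψB hψB
    obtain ⟨V, _, _, _, ρ, hρ⟩ := h8 B (H.subgroupOf B) ψB
    have hyρ : ∀ g, y g = ρ.character g := fun g => (hρ g).symm
    have hycl : ∀ x g : B, y (x⁻¹ * g * x) = y g := by
      intro x g
      rw [hyρ, hyρ]
      have := ρ.char_conj g x⁻¹
      rw [inv_inv] at this
      exact this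
    have hycls : ∀ g ∈ JJ E jB, (fun b => y b * g b) ∈ JJ E jB := by
      intro g hg
      have := (h6 G B E jB g hg).2 V ρ
      simp only [← hyρ] at this
      exact this
    have hεcl : ∀ x g : A, (1 + ((ε (x⁻¹ * g * x) : ℂˣ) : ℂ)) = 1 + ((ε g : ℂˣ) : ℂ) := by
      intro x g
      rw [map_mul, map_mul, map_inv, mul_comm (ε x)⁻¹, mul_assoc, inv_mul_cancel, mul_one]
    have hxe : MON.indL B (fun b => y b * (1 + ((ε b : ℂˣ) : ℂ))) =
        fun a => indFun H (extZ ψ) a * (1 + ((ε a : ℂˣ) : ℂ)) := by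
      have := indL_mul B y (fun a => 1 + ((ε a : ℂˣ) : ℂ)) hεcl
      rw [hx] at this
      exact this
    rcases hη a₀ with hηa | hηa
    · -- the place splits
      have ha₀B : a₀ ∈ B := (hB _).2 hηa
      have hMB : M ≤ jB.range := by
        intro m hm'
        obtain ⟨a, ha⟩ := hM hm'
        have : a ∈ C := hC a (by rw [ha]; exact hm')
        exact ⟨⟨a, hHB (hCH this)⟩, ha⟩
      obtain ⟨ε₁, hε₁⟩ := exists_sign E hs jB hMB p ⟨a₀, ha₀B⟩ ha₀
      obtain ⟨p', hp'⟩ : ∃ p' : E.P, p' = E.act p (j t) := ⟨_, rfl⟩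
      have hinv : ∀ a ∈ B, t⁻¹ * a * t ∈ B := by
        intro a ha
        have := hBn.conj_mem _ ha t⁻¹
        rw [inv_inv] at this
        exact this
      have ha₀' : t⁻¹ * a₀ * t ∈ B := hinv _ ha₀B
      have hjp' : jB ⟨t⁻¹ * a₀ * t, ha₀'⟩ = E.c p' := by
        change j (t⁻¹ * a₀ * t) = _
        rw [hp', E.c_act, ← ha₀, map_mul, map_mul, map_inv]
      let cj : B →* B :=
        { toFun := fun b => ⟨t * b * t⁻¹, hBn.conj_mem _ b.2 t⟩
          map_one' := by
            apply Subtype.ext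
            change t * 1 * t⁻¹ = 1
            rw [mul_one, mul_inv_cancel]
          map_mul' := by
            intro x y
            apply Subtype.ext
            change t * (x * y) * t⁻¹ = (t * x * t⁻¹) * (t * y * t⁻¹)
            group }
      have hcj : ∀ b, ((cj b : B) : A) = t * b * t⁻¹ := fun b => rfl
      obtain ⟨ε₂, hε₂'⟩ : ∃ ε₂ : B →* ℂˣ, ∀ b, ε₂ b = ε₁ (cj b) := ⟨ε₁.comp cj, fun b => rfl⟩
      have hε₂ : IsES E jB (Same E jB p') ε₂ := by
        refine ⟨fun b => ?_, ?_⟩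
        · rw [hε₂']
          exact hε₁.1 _
        intro b q hq
        have hjb : jB (cj b) = E.c (E.act q (j t)⁻¹) := by
          rw [E.c_act, inv_inv, ← hq]
          change j (t * b * t⁻¹) = j t * j b * (j t)⁻¹
          rw [map_mul, map_mul, map_inv]
        have hiff : Same E jB p' q ↔ Same E jB p (E.act q (j t)⁻¹) := by
          constructor
          · rintro ⟨b', hb'⟩
            refine ⟨cj b', ?_⟩
            rw [hb', hp', ← E.act_mul, ← E.act_mul]
            congr 1
            change j t * (j b' * (j t)⁻¹) = j (t * b' * t⁻¹)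
            rw [map_mul, map_mul, map_inv, mul_assoc]
          · rintro ⟨b', hb'⟩
            refine ⟨⟨t⁻¹ * b' * t, hinv _ b'.2⟩, ?_⟩
            have e1 : q = E.act (E.act q (j t)⁻¹) (j t) := by
              rw [← E.act_mul, inv_mul_cancel, E.act_one]
            rw [e1, hb', hp', ← E.act_mul, ← E.act_mul]
            congr 1
            change j b' * j t = j t * j (t⁻¹ * b' * t)
            rw [map_mul, map_mul, map_inv]
            group
        have h9 := hε₁.2 (cj b) _ hjb
        rw [← hiff, ← hε₂'] at h9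
        exact h9
      have hdisj : ∀ q, E.c q ∈ jB.range → Same E jB p q → ¬ Same E jB p' q := by
        rintro q _ ⟨b, hb⟩ ⟨b', hb'⟩
        rw [hb, hp', ← E.act_mul] at hb'
        have e1 : E.act p ((j t * jB b') * (jB b)⁻¹) = p := by
          rw [E.act_mul, ← hb', ← E.act_mul, mul_inv_cancel, E.act_one]
        have e2 := E.free _ _ e1
        have e3 : j (t * b' * (b : A)⁻¹) = 1 := by
          rw [map_mul, map_mul, map_inv]
          exact e2
        have e4 : t * b' * (b : A)⁻¹ = 1 := hj (by rw [e3, map_one])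
        have e5 : η t = 1 := by
          have e6 := congrArg η e4
          rw [map_mul, map_mul, map_inv, (hB _).1 b.2, (hB _).1 b'.2, map_one, mul_one, inv_one,
            mul_one] at e6
          exact e6
        rw [ht] at e5
        exact hne e5
      have hεB : IsES E jB (fun q => Same E jB p q ∨ Same E jB p' q) (ε.comp B.subtype) := by
        refine ⟨fun b => hε.1 b, ?_⟩
        intro b q hq
        have hiff : Same E j p q ↔ (Same E jB p q ∨ Same E jB p' q) := by
          constructor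
          · rintro ⟨a, ha⟩
            rcases hη a with h | h
            · exact Or.inl ⟨⟨a, (hB _).2 h⟩, ha⟩
            · right
              have hb : t⁻¹ * a ∈ B := by
                rw [hB, map_mul, map_inv, ht, h, inv_mul_cancel]
              refine ⟨⟨t⁻¹ * a, hb⟩, ?_⟩
              rw [ha, hp', ← E.act_mul]
              congr 1
              change j a = j t * j (t⁻¹ * a)
              rw [map_mul, map_inv]
              group
          · rintro (⟨a, ha⟩ | ⟨a, ha⟩)
            · exact ⟨a, ha⟩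
            · refine ⟨t * a, ?_⟩
              rw [ha, hp', ← E.act_mul, map_mul]
              rfl
        have h9 := hε.2 b q hq
        rw [hiff] at h9
        exact h9
      have hD := h2 G B E jB hm _ _ ε₁ ε₂ (ε.comp B.subtype) hdisj hε₁ hε₂ hεB
      -- induction hypothesis
      have hCB : ∀ b, jB b ∈ M → b ∈ C.subgroupOf B := fun b hb => hC b hb
      have hBidx := ker_index η hη t ht B hB
      have hCidx : (C.subgroupOf B).index = 2 ^ n := by
        have e1 := Subgroup.relIndex_mul_index (hCH.trans hHB)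
        rw [hBidx, hidx, pow_succ] at e1
        exact Nat.eq_of_mul_eq_mul_right (by norm_num) e1
      have hCHB : C.subgroupOf B ≤ H.subgroupOf B := fun b hb => hCH hb
      have hψBC : ∀ h : H.subgroupOf B, (h : B) ∈ C.subgroupOf B → ψB h = 1 := by
        intro h hh
        rw [hψB h ⟨((h : B) : A), h.2⟩ rfl]
        exact hψ _ hh
      have I1 := ih B jB hjBinj hMB (C.subgroupOf B) hCB hCidx (H.subgroupOf B) ψB hCHB hψBC p
        ⟨a₀, ha₀B⟩ ha₀ ε₁ hε₁
      have I2 := ih B jB hjBinj hMB (C.subgroupOf B) hCB hCidx (H.subgroupOf B) ψB hCHB hψBC p'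
        ⟨t⁻¹ * a₀ * t, ha₀'⟩ hjp' ε₂ hε₂
      rw [← hy] at I1 I2
      -- induce
      set F : B → ℂ := fun b => 1 + ((ε b : ℂˣ) : ℂ) with hF
      set F₁ : B → ℂ := fun b => 1 + ((ε₁ b : ℂˣ) : ℂ) with hF₁
      set F₂ : B → ℂ := fun b => 1 + ((ε₂ b : ℂˣ) : ℂ) with hF₂
      have hE12 : MON.indL B F₂ = MON.indL B F₁ := by
        apply indL_conj B t
        intro b b' hb
        have : b' = cj b := Subtype.ext (hb.trans (hcj b).symm)
        rw [this, hF₂, hF₁]
        simp only [hε₂']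
      have K1 : MON.indL B F - MON.indL B F₁ - MON.indL B F₁ ∈ JJ E j := by
        have e1 := h7 G A E j B _ hD
        have e2 : (fun b : B => (1 + (((ε.comp B.subtype) b : ℂˣ) : ℂ)) -
            (1 + ((ε₁ b : ℂˣ) : ℂ)) - (1 + ((ε₂ b : ℂˣ) : ℂ))) = F - F₁ - F₂ := rfl
        rw [e2, map_sub, map_sub, hE12] at e1
        exact e1
      have K3 : MON.indL B (fun b => y b * F b) - MON.indL B (fun b => y b * F₁ b) -
          MON.indL B (fun b => y b * F₂ b) ∈ JJ E j := by
        have e1 := h7 G A E j B _ (hycls _ hD)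
        have e2 : (fun b : B => y b * ((1 + (((ε.comp B.subtype) b : ℂˣ) : ℂ)) -
            (1 + ((ε₁ b : ℂˣ) : ℂ)) - (1 + ((ε₂ b : ℂˣ) : ℂ)))) =
            (fun b => y b * F b) - (fun b => y b * F₁ b) - (fun b => y b * F₂ b) := by
          funext b
          change y b * (F b - F₁ b - F₂ b) = y b * F b - y b * F₁ b - y b * F₂ b
          ring
        rw [e2, map_sub, map_sub] at e1
        exact e1
      have K4 : (MON.indL B (fun b => y b * F₁ b) -
          fun a => y ⟨a₀, ha₀B⟩ * MON.indL B F₁ a) ∈ JJ E j := by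
        have e1 := h7 G A E j B _ I1
        have e2 : (fun b : B => (y b - y ⟨a₀, ha₀B⟩) * (1 + ((ε₁ b : ℂˣ) : ℂ))) =
            (fun b => y b * F₁ b) - (fun b => y ⟨a₀, ha₀B⟩ * F₁ b) := by
          funext b
          change (y b - y ⟨a₀, ha₀B⟩) * F₁ b = y b * F₁ b - y ⟨a₀, ha₀B⟩ * F₁ b
          ring
        rw [e2, map_sub, indL_smul] at e1
        exact e1
      have K5 : (MON.indL B (fun b => y b * F₂ b) -
          fun a => y ⟨t⁻¹ * a₀ * t, ha₀'⟩ * MON.indL B F₁ a) ∈ JJ E j := by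
        have e1 := h7 G A E j B _ I2
        have e2 : (fun b : B => (y b - y ⟨t⁻¹ * a₀ * t, ha₀'⟩) * (1 + ((ε₂ b : ℂˣ) : ℂ))) =
            (fun b => y b * F₂ b) - (fun b => y ⟨t⁻¹ * a₀ * t, ha₀'⟩ * F₂ b) := by
          funext b
          change (y b - y ⟨t⁻¹ * a₀ * t, ha₀'⟩) * F₂ b =
            y b * F₂ b - y ⟨t⁻¹ * a₀ * t, ha₀'⟩ * F₂ b
          ring
        rw [e2, map_sub, indL_smul, hE12] at e1
        exact e1
      have hone : ∀ a, MON.indL B (fun _ => (1 : ℂ)) a = 1 + ((η a : ℂˣ) : ℂ) := by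
        intro a
        by_cases ha : a ∈ B
        · have e1 := indL_two η hη t ht B hB (fun _ => (1 : ℂ)) (fun _ _ => rfl) ⟨a, ha⟩
            ⟨t⁻¹ * a * t, hinv _ ha⟩ rfl
          rw [(hB _).1 ha]
          change MON.indL B (fun _ => (1 : ℂ)) a = 1 + 1 at e1
          rw [e1]
          simp
        · rw [indL_zero η B hB _ a ha, (hη a).resolve_left (fun h => ha ((hB _).2 h))]
          simp
      have hFF : MON.indL B F = fun a => (1 + ((η a : ℂˣ) : ℂ)) * (1 + ((ε a : ℂˣ) : ℂ)) := by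
        have e1 := indL_mul B (fun _ => (1 : ℂ)) (fun a => 1 + ((ε a : ℂˣ) : ℂ)) hεcl
        simp only [one_mul, hone] at e1
        exact e1
      have K2 := h3 G A E j hj hm η hη p a₀ ha₀ ε hε
      have hsum : y ⟨a₀, ha₀B⟩ + y ⟨t⁻¹ * a₀ * t, ha₀'⟩ = indFun H (extZ ψ) a₀ := by
        rw [← hx]
        exact (indL_two η hη t ht B hB y hycl ⟨a₀, ha₀B⟩ ⟨t⁻¹ * a₀ * t, ha₀'⟩ rfl).symm
      have hsq : a₀ * a₀ = 1 := hj (by rw [map_mul, ha₀, E.c_sq, map_one])
      obtain ⟨b₁, hb₁⟩ := CMBT.char_invol ρ ⟨a₀, ha₀B⟩ (Subtype.ext hsq)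
      obtain ⟨b₂, hb₂⟩ := CMBT.char_invol ρ ⟨t⁻¹ * a₀ * t, ha₀'⟩ (by
        apply Subtype.ext
        change t⁻¹ * a₀ * t * (t⁻¹ * a₀ * t) = 1
        have : t⁻¹ * a₀ * t * (t⁻¹ * a₀ * t) = t⁻¹ * (a₀ * a₀) * t := by group
        rw [this, hsq]
        group)
      rw [← hyρ] at hb₁ hb₂
      obtain ⟨k, hk⟩ : ∃ k : ℤ, (k : ℂ) = (Module.finrank ℂ V : ℂ) - b₁ - b₂ :=
        ⟨(Module.finrank ℂ V : ℤ) - b₁ - b₂, by push_cast; ring⟩
      have K7 : (fun a => (k : ℂ) * ((((η a : ℂˣ) : ℂ) - ((η a₀ : ℂˣ) : ℂ)) *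
          (1 + ((ε a : ℂˣ) : ℂ)) - (MON.indL B F a - MON.indL B F₁ a - MON.indL B F₁ a))) ∈
          JJ E j := by
        have e1 := (JJ E j).smul_mem k ((JJ E j).sub_mem K2 K1)
        refine cast (congrArg (fun f => f ∈ JJ E j) ?_) e1
        funext a
        rw [Pi.smul_apply, zsmul_eq_mul]
        rfl
      have K6 := (JJ E j).add_mem ((JJ E j).add_mem K3 K4) ((JJ E j).add_mem K5 K7)
      refine cast (congrArg (fun f => f ∈ JJ E j) ?_) K6
      funext a
      have q1 : MON.indL B (fun b => y b * F b) a =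
          indFun H (extZ ψ) a * (1 + ((ε a : ℂˣ) : ℂ)) := congrFun hxe a
      have q2 := congrFun hFF a
      simp only [Pi.add_apply, Pi.sub_apply, q1, q2, hηa, ← hsum, hb₁, hb₂, hk]
      push_cast
      ring
    · -- the place does not split
      have hno : ∀ b, CCj E jB b → (ε.comp B.subtype) b = -1 := by
        rintro b ⟨q, hq⟩
        have hq' : j (b : A) = E.c q := hq
        apply (hε.2 b q hq').2
        rintro ⟨a, ha⟩
        have e1 : j (b : A) = j (a⁻¹ * a₀ * a) := by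
          rw [hq', ha, E.c_act, ← ha₀, map_mul, map_mul, map_inv]
        have e2 := hj e1
        have e3 : η (b : A) = 1 := (hB _).1 b.2
        rw [e2, map_mul, map_mul, map_inv, mul_comm (η a)⁻¹, mul_assoc, inv_mul_cancel, mul_one,
          hηa] at e3
        exact hne e3
      have hsg : IsSign (ε.comp B.subtype) := fun b => hε.1 b
      have e1 := h4 G B E jB (ε.comp B.subtype) hsg hno
      have e2 := h7 G A E j B _ (hycls _ e1)
      have e3 : indFun H (extZ ψ) a₀ = 0 := by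
        rw [← hx]
        exact indL_zero η B hB y a₀ (fun h => hne (by rw [← hηa]; exact (hB _).1 h))
      have e4 : MON.indL B (fun b => y b * (1 + ((ε b : ℂˣ) : ℂ))) ∈ JJ E j := e2
      rw [hxe] at e4
      simp only [e3, sub_zero]
      exact e4

end StarkC
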