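import Pool.Agent.StarkS.Stmts

/-!
SNEG: a sign character which is `-1` at all complex conjugations satisfies `1 + ε ∈ J`.
-/

open NumberField IsDedekindDomain
open scoped TensorProduct Classical

namespace StarkC

namespace SNEG

variable {A : Type} [Group A] [Fintype A]

omit [Fintype A] in
theorem extZ_one {H : Subgroup A} (g : A) (hg : g ∈ H) : extZ (1 : H →* ℂˣ) g = 1 := by
  have := CMB.extZ_apply (1 : H →* ℂˣ) (⟨g, hg⟩ : H)
  rw [MonoidHom.one_apply, Units.val_one] at this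
  exact this

theorem indFun_top (g : A) : indFun (⊤ : Subgroup A) (extZ (1 : (⊤ : Subgroup A) →* ℂˣ)) g = 1 := by
  rw [CMB.indFun_congr (⊤ : Subgroup A) (f' := fun _ => 1) (fun x hx => extZ_one x hx)]
  unfold indFun
  have h0 : (Fintype.card A : ℂ) ≠ 0 := by exact_mod_cast Fintype.card_ne_zero
  have h1 : Nat.card (⊤ : Subgroup A) = Fintype.card A := by
    rw [Subgroup.card_top, Nat.card_eq_fintype_card]
  rw [h1]
  simp only [Subgroup.mem_top, if_true]
  rw [Finset.sum_const, Finset.card_univ, nsmul_eq_mul, mul_one, div_self h0]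

end SNEG

theorem SNEG_thm : StarkC.Stmt_SNEG := by
  intro G A _ _ _ E j ε hε hneg
  have hne : (-1 : ℂˣ) ≠ 1 := by
    intro h
    have := congrArg (fun u : ℂˣ => (u : ℂ)) h
    norm_num at this
  unfold JJ
  by_cases h : ∃ g0, ε g0 ≠ 1
  · obtain ⟨g0, hg0⟩ := h
    have e : (fun a => 1 + ((ε a : ℂˣ) : ℂ)) = indFun ε.ker (extZ (1 : ε.ker →* ℂˣ)) := by
      rw [CMB.indFun_congr ε.ker (f' := fun _ => 1) (fun x hx => SNEG.extZ_one x hx)]
      funext a
      rw [CMB.half ε hε g0 hg0 a]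
    rw [e]
    refine CMB.mem_GS_of _ _ ?_
    intro a ha hcc
    rw [MonoidHom.mem_ker, hneg a hcc] at ha
    exact hne ha
  · have h1 : ∀ g, ε g = 1 := fun g => by
      by_contra hg
      exact h ⟨g, hg⟩
    have e : (fun a => 1 + ((ε a : ℂˣ) : ℂ)) =
        (2 : ℤ) • indFun (⊤ : Subgroup A) (extZ (1 : (⊤ : Subgroup A) →* ℂˣ)) := by
      funext a
      rw [Pi.smul_apply, SNEG.indFun_top, h1 a]
      norm_num
    rw [e]
    refine Submodule.smul_mem _ _ (CMB.mem_GS_of _ _ ?_)
    intro a _ hcc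
    exact hne ((hneg a hcc).symm.trans (h1 a))

end StarkC
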