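import Pool.Agent.StarkS.Stmts

/-!
# Stark's conjecture up to sign: a sign character which is `1` at all complex conjugations
-/

open scoped Classical

namespace StarkC

theorem SPOS_thm (h1 : Stmt_SNEG) (h2 : Stmt_SIDL) : Stmt_SPOS := by
  intro G A _ _ _ E j ε hM hε hcc
  obtain ⟨e, he, hec⟩ := hM
  have hcj : ∀ a, CCj E j a → (e.comp j) a = -1 := by
    rintro a ⟨p, hp⟩
    rw [MonoidHom.comp_apply, hp]
    exact hec p
  have hs : IsSign (e.comp j) := fun a => he (j a)
  have hs' : IsSign (ε * e.comp j) := by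
    intro a
    rw [MonoidHom.mul_apply]
    rcases hε a with h | h <;> rcases hs a with h' | h' <;> rw [h, h'] <;> simp
  have hm : ∀ a, CCj E j a → (ε * e.comp j) a = -1 := by
    intro a ha
    rw [MonoidHom.mul_apply, hcc a ha, hcj a ha, one_mul]
  have k1 := h1 G A E j (e.comp j) hs hcj
  have k2 := (h2 G A E j _ k1).1 ε
  have k3 := h1 G A E j (ε * e.comp j) hs' hm
  have k4 := (JJ E j).sub_mem k3 k2
  refine cast (congrArg (fun f => f ∈ JJ E j) ?_) k4
  funext a
  simp only [Pi.sub_apply, MonoidHom.mul_apply, Units.val_mul]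
  ring

end StarkC
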