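import Pool.Agent.StarkS.Stmts

/-! # Module SSUM: passage from one place to all places -/

open scoped Classical

namespace StarkC

namespace SSUM

variable {G A : Type} [Group G] [Group A]

theorem same_refl (E : Emb G) (j : A →* G) (p : E.P) : Same E j p p :=
  ⟨1, by rw [map_one, E.act_one]⟩

theorem same_symm (E : Emb G) (j : A →* G) {p q : E.P} (h : Same E j p q) : Same E j q p := by
  obtain ⟨a, rfl⟩ := h
  refine ⟨a⁻¹, ?_⟩
  rw [← E.act_mul, ← map_mul, mul_inv_cancel, map_one, E.act_one]

theorem same_trans (E : Emb G) (j : A →* G) {p q r : E.P} (h : Same E j p q)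
    (h' : Same E j q r) : Same E j p r := by
  obtain ⟨a, rfl⟩ := h
  obtain ⟨b, rfl⟩ := h'
  exact ⟨a * b, by rw [map_mul, E.act_mul]⟩

/-- the places covered by `S` -/
def U (E : Emb G) (j : A →* G) (S : Finset E.P) (q : E.P) : Prop :=
  ∃ p ∈ S, E.c p ∈ j.range ∧ Same E j p q

theorem isSign_mul {ε ε' : A →* ℂˣ} (h : IsSign ε) (h' : IsSign ε') : IsSign (ε * ε') := by
  intro a
  rw [MonoidHom.mul_apply]
  rcases h a with h1 | h1 <;> rcases h' a with h2 | h2 <;> simp [h1, h2]

end SSUM

open SSUM in
theorem SSUM_thm (h1 : Stmt_SADD) (h2 : Stmt_SPOS) (h3 : Stmt_SNEG) (h4 : Stmt_SIDL) :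
    Stmt_SSUM := by
  intro G A _ _ _ E _ j hM f hf hp
  obtain ⟨e, he, hec⟩ := hM
  have hM' : HasMinus E := ⟨e, he, hec⟩
  set e' : A →* ℂˣ := e.comp j with he'
  have hs' : IsSign e' := fun a => he (j a)
  have hc' : ∀ (a : A) (q : E.P), j a = E.c q → e' a = -1 := by
    intro a q h
    rw [he', MonoidHom.comp_apply, h, hec]
  -- the main induction
  have key : ∀ S : Finset E.P, ∃ ε : A →* ℂˣ, IsES E j (U E j S) ε ∧
      (fun a => f a * (1 + ((ε a : ℂˣ) : ℂ))) ∈ JJ E j := by
    intro S
    induction S using Finset.induction_on with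
    | empty =>
      refine ⟨e', ⟨hs', ?_⟩, ?_⟩
      · intro a q h
        refine ⟨?_, fun _ => hc' a q h⟩
        rintro ⟨p, hpm, _⟩
        simp at hpm
      · exact hf _ (h3 G A E j e' hs' (fun a ⟨q, hq⟩ => hc' a q hq))
    | insert p S hpS ih =>
      obtain ⟨ε, hε, hJ⟩ := ih
      by_cases hr : E.c p ∈ j.range
      · by_cases hcov : U E j S p
        · -- already covered
          have hiff : ∀ q, U E j (insert p S) q ↔ U E j S q := by
            intro q
            constructor
            · rintro ⟨p', hp', hr', hs⟩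
              rcases Finset.mem_insert.1 hp' with rfl | hp'
              · obtain ⟨p₂, hp₂, hr₂, hs₂⟩ := hcov
                exact ⟨p₂, hp₂, hr₂, same_trans E j hs₂ hs⟩
              · exact ⟨p', hp', hr', hs⟩
            · rintro ⟨p', hp', hr', hs⟩
              exact ⟨p', Finset.mem_insert_of_mem hp', hr', hs⟩
          refine ⟨ε, ⟨hε.1, ?_⟩, hJ⟩
          intro a q h
          rw [hiff q]
          exact hε.2 a q h
        · obtain ⟨εp, hεp, hJp⟩ := hp p hr
          have hdisj : ∀ q, E.c q ∈ j.range → U E j S q → ¬ Same E j p q := by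
            rintro q hq ⟨p', hp', hr', hs⟩ hpq
            exact hcov ⟨p', hp', hr', same_trans E j hs (same_symm E j hpq)⟩
          have hES : IsES E j (fun q => U E j S q ∨ Same E j p q) (e' * ε * εp) := by
            refine ⟨isSign_mul (isSign_mul hs' hε.1) hεp.1, ?_⟩
            intro a q h
            have hcq : E.c q ∈ j.range := ⟨a, h⟩
            have e1 := hc' a q h
            obtain ⟨e2, e3⟩ := hε.2 a q h
            obtain ⟨e4, e5⟩ := hεp.2 a q h
            rw [MonoidHom.mul_apply, MonoidHom.mul_apply, e1]
            refine ⟨?_, ?_⟩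
            · rintro (hU | hS)
              · rw [e2 hU, e5 (hdisj q hcq hU)]; simp
              · have : ¬ U E j S q := fun hU => hdisj q hcq hU hS
                rw [e3 this, e4 hS]; simp
            · intro hn
              rw [not_or] at hn
              rw [e3 hn.1, e5 hn.2]; simp
          refine ⟨e' * ε * εp, ⟨hES.1, ?_⟩, ?_⟩
          · intro a q h
            have hiff : U E j (insert p S) q ↔ (U E j S q ∨ Same E j p q) := by
              constructor
              · rintro ⟨p', hp', hr', hs⟩
                rcases Finset.mem_insert.1 hp' with rfl | hp'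
                · exact Or.inr hs
                · exact Or.inl ⟨p', hp', hr', hs⟩
              · rintro (⟨p', hp', hr', hs⟩ | hs)
                · exact ⟨p', Finset.mem_insert_of_mem hp', hr', hs⟩
                · exact ⟨p, Finset.mem_insert_self _ _, hr, hs⟩
            rw [hiff]
            exact hES.2 a q h
          · have hadd := h1 G A E j hM' (U E j S) (Same E j p) ε εp (e' * ε * εp) hdisj hε hεp hES
            have h5 := hf _ hadd
            have h6 := (JJ E j).add_mem ((JJ E j).add_mem h5 hJ) hJp
            convert h6 using 1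
            ext a
            simp only [Pi.add_apply]
            ring
      · have hiff : ∀ q, U E j (insert p S) q ↔ U E j S q := by
          intro q
          constructor
          · rintro ⟨p', hp', hr', hs⟩
            rcases Finset.mem_insert.1 hp' with rfl | hp'
            · exact absurd hr' hr
            · exact ⟨p', hp', hr', hs⟩
          · rintro ⟨p', hp', hr', hs⟩
            exact ⟨p', Finset.mem_insert_of_mem hp', hr', hs⟩
        refine ⟨ε, ⟨hε.1, ?_⟩, hJ⟩
        intro a q h
        rw [hiff q]
        exact hε.2 a q h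
  have : Fintype E.P := Fintype.ofFinite _
  obtain ⟨ε, hε, hJ⟩ := key Finset.univ
  have hpos : ∀ a, CCj E j a → ε a = 1 := by
    rintro a ⟨q, hq⟩
    exact (hε.2 a q hq).1 ⟨q, Finset.mem_univ _, ⟨a, hq⟩, same_refl E j q⟩
  have h7 := hf _ (h2 G A E j ε hM' hε.1 hpos)
  have h8 := (JJ E j).add_mem hJ h7
  convert h8 using 1
  ext a
  simp only [Pi.add_apply]
  ring

end StarkC
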