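import Pool.Agent.StarkS.Stmts
import Pool.Agent.StarkT.CMBT

/-!
# Stark's conjecture up to sign: module STWQ
-/

open NumberField IsDedekindDomain
open scoped TensorProduct Classical

namespace StarkC
namespace STWQ

open CMB

section

variable {G A : Type} [Group G] [Group A]

theorem ccj_conj {E : Emb G} {j : A →* G} {a : A} (h : CCj E j a) (x : A) :
    CCj E j (x⁻¹ * a * x) := by
  obtain ⟨p, hp⟩ := h
  refine ⟨E.act p (j x), ?_⟩
  rw [E.c_act, map_mul, map_mul, map_inv, hp]

theorem ccj_sq {E : Emb G} {j : A →* G} (hj : Function.Injective j) {a : A} (h : CCj E j a) :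
    a * a = 1 := by
  obtain ⟨p, hp⟩ := h
  apply hj
  rw [map_mul, hp, E.c_sq, map_one]

theorem vanish [Fintype A] {E : Emb G} {j : A →* G} {f : A → ℂ} (hf : f ∈ JJ E j) {a : A}
    (h : CCj E j a) : f a = 0 := by
  unfold JJ GS at hf
  induction hf using Submodule.span_induction with
  | mem f hf =>
    obtain ⟨t, rfl⟩ := hf
    show indFun _ _ a = 0
    unfold indFun
    rw [Finset.sum_eq_zero, zero_div]
    intro x _
    rw [if_neg]
    intro hx
    exact t.2 _ hx (ccj_conj h x)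
  | zero => rfl
  | add f g _ _ hf hg => rw [Pi.add_apply, hf, hg, add_zero]
  | smul n f _ hf => rw [Pi.smul_apply, hf, smul_zero]

theorem pull {Q : Type} [Group Q] [Fintype Q] [Fintype A] (s : A →* Q)
    (hs : Function.Surjective s) (H : Subgroup Q) (ψ : H →* ℂˣ) (a : A) :
    indFun H (extZ ψ) (s a) = indFun (H.comap s) (extZ (ψ.comp (s.subgroupComap H))) a := by
  rw [indFun_infl s hs]
  apply congrFun
  apply indFun_congr
  intro g hg
  have e1 := extZ_apply (ψ.comp (s.subgroupComap H)) (⟨g, hg⟩ : H.comap s)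
  have e2 := extZ_apply ψ (⟨s g, hg⟩ : H)
  exact e2.trans e1.symm

end

end STWQ

open CMB STWQ in
theorem STWQ_thm (h1 : Stmt_SCLF) (h2 : Stmt_SMNX) (h3 : Stmt_SIDL) (h4 : Stmt_BRA) :
    Stmt_STWQ := by
  intro G _ E M hminus hsigns R A Q _ _ _ _ _ j q r hj hMj hq hqM hqr hQ hcu V _ _ _ ρ p a₀ ha₀
    ε hε
  have hker : q.ker ≤ r.ker := fun a ha => hqr a ha
  obtain ⟨r', hr'⟩ : ∃ r' : Q →* R, ∀ a, r' (q a) = r a :=
    ⟨q.liftOfRightInverse (Function.surjInv hq) (Function.rightInverse_surjInv hq) ⟨r, hker⟩,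
      fun a => MonoidHom.liftOfRightInverse_comp_apply _ _ _ _ _⟩
  obtain ⟨C, hCn, hCc, hC2, n, hn⟩ := hQ
  let ρQ : Representation ℂ Q V := ρ.comp r'
  let P : Q → Prop := fun x => ∃ a, x = q a ∧ CCj E j a
  have hodd : Odd (Nat.card C) := by
    rw [← Nat.not_even_iff_odd, even_iff_two_dvd]
    exact hC2
  have hinv : ∀ c, P c → ∀ u ∈ C, ρQ (c⁻¹ * u * c) = ρQ u⁻¹ := by
    rintro c ⟨a, rfl, ha⟩ u hu
    have haa : q a * q a = 1 := by
      rw [← map_mul, ccj_sq hj ha, map_one]
    have hinva : (q a)⁻¹ = q a := inv_eq_of_mul_eq_one_left haa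
    have hv : (q a)⁻¹ * u * q a ∈ C := by
      have := hCn.conj_mem u hu (q a)⁻¹
      rwa [inv_inv] at this
    have huv : u * ((q a)⁻¹ * u * q a) = ((q a)⁻¹ * u * q a) * u := by
      have := hCc
      have := (IsCyclic.commGroup (α := C)).mul_comm ⟨u, hu⟩ ⟨_, hv⟩
      exact congrArg Subtype.val this
    have hwC : u * ((q a)⁻¹ * u * q a) ∈ C := C.mul_mem hu hv
    have hcomm : (u * ((q a)⁻¹ * u * q a)) * q a = q a * (u * ((q a)⁻¹ * u * q a)) := by
      calc (u * ((q a)⁻¹ * u * q a)) * q a = (((q a)⁻¹ * u * q a) * u) * q a := by rw [huv]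
        _ = q a * (u * ((q a)⁻¹ * u * q a)) := by
          rw [hinva]
          simp only [mul_assoc]
    obtain ⟨w', hw'⟩ := hq (u * ((q a)⁻¹ * u * q a))
    have hr1 := hcu a w' ha (by rw [map_mul, map_mul, hw']; exact hcomm)
    rw [← hr' w', hw'] at hr1
    have hpow : (r' (u * ((q a)⁻¹ * u * q a))) ^ (Nat.card C) = 1 := by
      rw [← map_pow]
      have h5 : (⟨_, hwC⟩ : C) ^ (Nat.card C) = 1 := pow_card_eq_one'
      have h6 : (u * ((q a)⁻¹ * u * q a)) ^ (Nat.card C) = 1 := congrArg Subtype.val h5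
      rw [h6, map_one]
    have hw1 : r' (u * ((q a)⁻¹ * u * q a)) = 1 := by
      rcases hr1 with h | h
      · exact h
      · have hra : r a * r a = 1 := by rw [← map_mul, ccj_sq hj ha, map_one]
        obtain ⟨k, hk⟩ := hodd
        rw [hk, h, pow_add, pow_mul, pow_one, sq, hra, one_pow, one_mul] at hpow
        rw [h, hpow]
    rw [map_mul] at hw1
    show ρ (r' _) = ρ (r' _)
    rw [map_inv, eq_inv_of_mul_eq_one_right hw1]
  obtain ⟨V', _, _, _, ρ', hρ'C, hGS⟩ := h1 Q P C hCc hodd V ρQ hinv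
  have hf1 : (fun a => ρQ.character (q a) - ρ'.character (q a)) ∈ JJ E j := by
    obtain ⟨m, H, ψ, nn, hH, hsum⟩ := of_mem_GS hGS
    have e : (fun a => ρQ.character (q a) - ρ'.character (q a)) =
        ∑ i, nn i • indFun ((H i).comap q) (extZ ((ψ i).comp (q.subgroupComap (H i)))) := by
      funext a
      rw [hsum (q a), Finset.sum_apply]
      refine Finset.sum_congr rfl fun i _ => ?_
      rw [Pi.smul_apply, zsmul_eq_mul, pull q hq]
    rw [e]
    refine Submodule.sum_mem _ fun i _ => Submodule.smul_mem _ _ ?_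
    refine mem_GS_of _ _ ?_
    intro a ha hcc
    exact hH i (q a) ha ⟨a, rfl, hcc⟩
  have hf1a : ρQ.character (q a₀) - ρ'.character (q a₀) = 0 := vanish hf1 ⟨p, ha₀⟩
  have hf1e : (fun a => (ρQ.character (q a) - ρ'.character (q a)) * (1 + ((ε a : ℂˣ) : ℂ))) ∈
      JJ E j := by
    have h5 := Submodule.add_mem _ hf1 ((h3 G A E j _ hf1).1 ε)
    refine (congrArg (fun f => f ∈ JJ E j) ?_).mp h5
    funext a
    show (ρQ.character (q a) - ρ'.character (q a)) +
      ((ε a : ℂˣ) : ℂ) * (ρQ.character (q a) - ρ'.character (q a)) = _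
    ring
  -- the quotient
  let ρ'' : Representation ℂ (Q ⧸ C) V' := QuotientGroup.lift C ρ' (fun u hu => hρ'C u hu)
  let s : A →* Q ⧸ C := (QuotientGroup.mk' C).comp q
  have hs : Function.Surjective s := (QuotientGroup.mk'_surjective C).comp hq
  have : Fintype (Q ⧸ C) := Fintype.ofFinite _
  obtain ⟨m, H, ψ, nn, hsum⟩ := h4 (Q ⧸ C) V' ρ''
  have hch : ∀ a, ρ'.character (q a) = ∑ i, (nn i : ℂ) *
      indFun ((H i).comap s) (extZ ((ψ i).comp (s.subgroupComap (H i)))) a := by
    intro a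
    have h5 : ρ'.character (q a) = ρ''.character (s a) := rfl
    rw [h5, hsum (s a)]
    refine Finset.sum_congr rfl fun i _ => ?_
    rw [pull s hs]
  have hsC : ∀ a, a ∈ C.comap q → s a = 1 := by
    intro a ha
    show ((q a : Q) : Q ⧸ C) = 1
    rw [QuotientGroup.eq_one_iff]
    exact ha
  have hx : ∀ i, (fun a => (indFun ((H i).comap s) (extZ ((ψ i).comp (s.subgroupComap (H i)))) a -
      indFun ((H i).comap s) (extZ ((ψ i).comp (s.subgroupComap (H i)))) a₀) *
      (1 + ((ε a : ℂˣ) : ℂ))) ∈ JJ E j := by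
    intro i
    refine h2 G E M hminus hsigns n A j hj hMj (C.comap q) ?_ ?_ _ _ ?_ ?_ p a₀ ha₀ ε hε
    · intro a ha
      rw [Subgroup.mem_comap, (hqM a).2 ha]
      exact C.one_mem
    · rw [Subgroup.index_comap_of_surjective C hq, hn]
    · intro a ha
      rw [Subgroup.mem_comap, hsC a ha]
      exact (H i).one_mem
    · intro h hh
      have h5 : s.subgroupComap (H i) h = 1 := Subtype.ext (hsC _ hh)
      rw [MonoidHom.comp_apply, h5, map_one]
  have h6 := Submodule.add_mem _ hf1e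
    (Submodule.sum_mem _ fun i (_ : i ∈ Finset.univ) => Submodule.smul_mem _ (nn i) (hx i))
  refine (congrArg (fun f => f ∈ JJ E j) ?_).mp h6
  funext a
  rw [Pi.add_apply, Finset.sum_apply]
  have h7 : ρ.character (r a) = ρQ.character (q a) := by
    show _ = ρ.character (r' (q a))
    rw [hr']
  have h8 : ρ.character (r a₀) = ρQ.character (q a₀) := by
    show _ = ρ.character (r' (q a₀))
    rw [hr']
  have h9 : ρQ.character (q a₀) = ρ'.character (q a₀) := sub_eq_zero.1 hf1a
  rw [h7, h8, h9]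
  have h10 : ∀ i, (nn i • fun a => (indFun ((H i).comap s)
      (extZ ((ψ i).comp (s.subgroupComap (H i)))) a -
      indFun ((H i).comap s) (extZ ((ψ i).comp (s.subgroupComap (H i)))) a₀) *
      (1 + ((ε a : ℂˣ) : ℂ))) a = ((nn i : ℂ) * indFun ((H i).comap s)
      (extZ ((ψ i).comp (s.subgroupComap (H i)))) a -
      (nn i : ℂ) * indFun ((H i).comap s) (extZ ((ψ i).comp (s.subgroupComap (H i)))) a₀) *
      (1 + ((ε a : ℂˣ) : ℂ)) := by
    intro i
    rw [Pi.smul_apply, zsmul_eq_mul]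
    ring
  rw [Finset.sum_congr rfl fun i _ => h10 i, ← Finset.sum_mul, Finset.sum_sub_distrib, ← hch,
    ← hch]
  ring

end StarkC
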