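import Pool.Agent.StarkS.Stmts
import Pool.Agent.Stark.IND

/-!
# INDS: induction from subfields for `M χ`, with exponents
-/

open NumberField IsDedekindDomain
open scoped TensorProduct Classical

namespace StarkC

namespace INDS

set_option linter.unusedSectionVars false

section

variable {K N : Type} [Field K] [NumberField K] [Field N] [NumberField N] [Algebra K N]
  [IsGalois K N]

theorem relLin_cast {F N : Type} [Field F] [NumberField F] [Field N] [NumberField N]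
    [Algebra F N] (R : Set (ℂ × ℂ)) (k : ℕ) (σ : ℂ ≃+* ℂ) (ψ : (N ≃ₐ[F] N) →* ℂˣ)
    (h : RelLin R k σ F N ψ)
    (S : Finset (HeightOneSpectrum (𝓞 F))) (T : Set (HeightOneSpectrum (𝓞 N)))
    (hT : aboveSet F N S = T) (φ : XQ N T ≃ₗ[ℚ] QU N T) (Θ : XC N T →ₗ[ℂ] XC N T)
    (hφ : IsPhiTheta F T φ Θ) :
    RelAt R k (S : Set (HeightOneSpectrum (𝓞 F))) T Θ (linRep ψ) (linRep (twist σ ψ)) := by
  subst hT
  exact h S φ Θ hφ

/-! ### Artin L-series -/

theorem logL_mul (hLA : Stmt_LA) (hLB : Stmt_LB) (S : Set (HeightOneSpectrum (𝓞 K))) (s : ℂ)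
    (hs : 1 < s.re) (c : ℂ) (χ : (N ≃ₐ[K] N) → ℂ) :
    logL (fun g => c * χ g) S s = c * logL χ S s := by
  have := IND.logL_sum (K := K) (N := N) hLA hLB S s hs 1 (fun _ => c) (fun _ => χ)
  simpa using this

theorem artin_comb (hLA : Stmt_LA) (hLB : Stmt_LB) (hLI : Stmt_LIND)
    (S : Set (HeightOneSpectrum (𝓞 K))) (χ : (N ≃ₐ[K] N) → ℂ)
    (M m : ℕ) (H : Fin m → Subgroup (N ≃ₐ[K] N)) (ψ : ∀ i, H i →* ℂˣ) (n : Fin m → ℤ)
    (k : Fin m → ℕ)
    (hχ : ∀ g, (M : ℂ) * χ g = ∑ i, (n i : ℂ) * ((k i : ℂ) * indFun (H i) (extZ (ψ i)) g))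
    (S' : ∀ i, Set (HeightOneSpectrum (𝓞 (IntermediateField.fixedField (H i)))))
    (hS' : ∀ i, aboveSet (IntermediateField.fixedField (H i)) N (S' i) = aboveSet K N S)
    (f : Fin m → ℂ → ℂ)
    (hf : ∀ i, IsArtinLMul (k i) (fun g => ((liftChar (H i) (ψ i) g : ℂˣ) : ℂ)) (S' i)
      (f i)) :
    IsArtinLMul M χ S (fun z => ∏ i, f i z ^ n i) := by
  constructor
  · intro z
    exact MeromorphicAt.fun_prod fun i _ => ((hf i).1 z).fun_zpow _
  · intro s hs
    have h1 : (M : ℂ) * logL χ S s =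
        ∑ i, ((n i : ℂ) * (k i : ℂ)) * logL (indFun (H i) (extZ (ψ i))) S s := by
      rw [← logL_mul hLA hLB S s hs]
      have h2 : (fun g => (M : ℂ) * χ g) =
          fun g => ∑ i, ((n i : ℂ) * (k i : ℂ)) * indFun (H i) (extZ (ψ i)) g := by
        funext g
        rw [hχ g]
        exact Finset.sum_congr rfl fun i _ => by ring
      rw [h2, IND.logL_sum hLA hLB S s hs]
    rw [h1, Complex.exp_sum]
    refine Finset.prod_congr rfl fun i _ => ?_
    rw [(hf i).2 s hs, ← Complex.exp_int_mul, hLI K N (H i) (ψ i) S (S' i) s (hS' i) hs]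
    congr 1
    ring

theorem lead_comb {m : ℕ} (n : Fin m → ℤ) (f : Fin m → ℂ → ℂ)
    (hf : ∀ i, MeromorphicAt (f i) 0) :
    meromorphicTrailingCoeffAt (fun z => ∏ i, f i z ^ n i) 0 =
      ∏ i, meromorphicTrailingCoeffAt (f i) 0 ^ n i :=
  IND.lead_comb n f hf

/-! ### Regulators -/

/-- The pairing of a class function with the traces of the powers of `Θ`. -/
noncomputable def pair {T : Set (HeightOneSpectrum (𝓞 N))} (hT : StableT K T)
    (Θ : XC N T →ₗ[ℂ] XC N T) (χ : (N ≃ₐ[K] N) → ℂ) (k : ℕ) : ℂ :=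
  (∑ g : N ≃ₐ[K] N, χ g * LinearMap.trace ℂ (XC N T) (repX K T hT g ∘ₗ (Θ ^ k))) /
    (Nat.card (N ≃ₐ[K] N) : ℂ)

theorem pair_comb
    {T : Set (HeightOneSpectrum (𝓞 N))} (hT : StableT K T)
    (Θ : XC N T →ₗ[ℂ] XC N T)
    (hc : ∀ g : N ≃ₐ[K] N, Θ ∘ₗ repX K T hT g = repX K T hT g ∘ₗ Θ)
    (χ : (N ≃ₐ[K] N) → ℂ) (M : ℕ)
    (m : ℕ) (H : Fin m → Subgroup (N ≃ₐ[K] N)) (ψ : ∀ i, H i →* ℂˣ) (n : Fin m → ℤ)
    (hχ : ∀ g, (M : ℂ) * χ g = ∑ i, (n i : ℂ) * indFun (H i) (extZ (ψ i)) g) (k : ℕ) :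
    (M : ℂ) * pair hT Θ χ k = ∑ i, (n i : ℂ) *
      pair (K := IntermediateField.fixedField (H i)) (IND.stable_sub _ hT) Θ
        (linRep (liftChar (H i) (ψ i))).character k := by
  set t : (N ≃ₐ[K] N) → ℂ := fun g => LinearMap.trace ℂ (XC N T) (repX K T hT g ∘ₗ (Θ ^ k))
    with ht
  have hck : ∀ g : N ≃ₐ[K] N, (Θ ^ k) ∘ₗ repX K T hT g = repX K T hT g ∘ₗ (Θ ^ k) := by
    intro g
    have h1 : Commute Θ (repX K T hT g) := hc g
    exact (h1.pow_left k).eq
  have hclass : ∀ x g, t (x * g * x⁻¹) = t g := by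
    intro x g
    simp only [ht]
    have h1 : repX K T hT (x * g * x⁻¹) ∘ₗ (Θ ^ k) =
        (repX K T hT x) * ((repX K T hT g ∘ₗ (Θ ^ k)) * repX K T hT x⁻¹) := by
      rw [map_mul, map_mul]
      show (repX K T hT x * repX K T hT g * repX K T hT x⁻¹) * (Θ ^ k) = _
      have h2 : (Θ ^ k) * repX K T hT x⁻¹ = repX K T hT x⁻¹ * (Θ ^ k) := hck x⁻¹
      rw [mul_assoc, ← h2]
      rfl
    rw [h1, LinearMap.trace_mul_comm, mul_assoc, ← map_mul]
    simp
  have h3 : (M : ℂ) * (∑ g : N ≃ₐ[K] N, χ g * t g) =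
      ∑ i, (n i : ℂ) * ∑ g, indFun (H i) (extZ (ψ i)) g * t g := by
    have h31 : (M : ℂ) * (∑ g : N ≃ₐ[K] N, χ g * t g) =
        ∑ g : N ≃ₐ[K] N, ((M : ℂ) * χ g) * t g := by
      rw [Finset.mul_sum]
      exact Finset.sum_congr rfl fun g _ => by ring
    rw [h31]
    simp only [hχ, Finset.sum_mul, Finset.mul_sum]
    rw [Finset.sum_comm]
    exact Finset.sum_congr rfl fun i _ => Finset.sum_congr rfl fun g _ => by ring
  show (M : ℂ) * ((∑ g : N ≃ₐ[K] N, χ g * t g) / _) = _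
  rw [← mul_div_assoc, h3, Finset.sum_div]
  refine Finset.sum_congr rfl fun i _ => ?_
  rw [mul_div_assoc, IND.sum_indFun_mul (H i) (extZ (ψ i)) t hclass]
  congr 1
  have h4 : (Nat.card (H i) : ℂ) =
      (Nat.card (N ≃ₐ[IntermediateField.fixedField (H i)] N) : ℂ) := by
    rw [Nat.card_congr (IntermediateField.subgroupEquivAlgEquiv (H i)).toEquiv]
  rw [h4, pair]
  congr 1
  refine Fintype.sum_equiv (IntermediateField.subgroupEquivAlgEquiv (H i)).toEquiv _ _
    fun h => ?_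
  have h5 : (linRep (liftChar (H i) (ψ i))).character
      ((IntermediateField.subgroupEquivAlgEquiv (H i)) h) = extZ (ψ i) (h : N ≃ₐ[K] N) := by
    rw [IND.linRep_character]
    simp [liftChar, extZ]
  have h7 : repX (IntermediateField.fixedField (H i)) T (IND.stable_sub _ hT)
      ((IntermediateField.subgroupEquivAlgEquiv (H i)) h) = repX K T hT (h : N ≃ₐ[K] N) := by
    rw [IND.repX_sub, MulEquiv.symm_apply_apply]
  show extZ (ψ i) (h : N ≃ₐ[K] N) * t h = (linRep (liftChar (H i) (ψ i))).character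
      ((IntermediateField.subgroupEquivAlgEquiv (H i)) h) *
      LinearMap.trace ℂ (XC N T) (repX (IntermediateField.fixedField (H i)) T
        (IND.stable_sub _ hT)
      ((IntermediateField.subgroupEquivAlgEquiv (H i)) h) ∘ₗ (Θ ^ k))
  rw [h5, h7]

theorem reg_comb (hTRD : Stmt_TRD) (hRGT : Stmt_RGT)
    {T : Set (HeightOneSpectrum (𝓞 N))} (hTf : T.Finite) (hT : StableT K T)
    (Θ : XC N T →ₗ[ℂ] XC N T) (hb : Function.Bijective Θ)
    (hc : ∀ g : N ≃ₐ[K] N, Θ ∘ₗ repX K T hT g = repX K T hT g ∘ₗ Θ)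
    (V : Type) [AddCommGroup V] [Module ℂ V] [Module.Finite ℂ V]
    (ρ : Representation ℂ (N ≃ₐ[K] N) V) (M : ℕ)
    (m : ℕ) (H : Fin m → Subgroup (N ≃ₐ[K] N)) (ψ : ∀ i, H i →* ℂˣ) (n : Fin m → ℤ)
    (hχ : ∀ g, (M : ℂ) * ρ.character g = ∑ i, (n i : ℂ) * indFun (H i) (extZ (ψ i)) g) :
    Reg T ρ Θ ^ M = ∏ i, Reg T (linRep (liftChar (H i) (ψ i))) Θ ^ n i := by
  have hci : ∀ i, ∀ g : N ≃ₐ[IntermediateField.fixedField (H i)] N,
      Θ ∘ₗ repX (IntermediateField.fixedField (H i)) T (IND.stable_sub _ hT) g =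
        repX (IntermediateField.fixedField (H i)) T (IND.stable_sub _ hT) g ∘ₗ Θ := by
    intro i g
    rw [IND.repX_sub]
    exact hc _
  set r : Fin (m + 1) → ℂ := Fin.cons (Reg T ρ Θ)
    (fun i => Reg T (linRep (liftChar (H i) (ψ i))) Θ) with hr
  set t : Fin (m + 1) → ℕ → ℂ := Fin.cons (pair hT Θ ρ.character)
    (fun i => pair (K := IntermediateField.fixedField (H i)) (IND.stable_sub _ hT) Θ
        (linRep (liftChar (H i) (ψ i))).character) with ht
  set e : Fin (m + 1) → ℤ := Fin.cons (-(M : ℤ)) n with he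
  have hex : ∀ j : Fin (m + 1), ∃ (W : Type) (_ : AddCommGroup W) (_ : Module ℂ W)
      (_ : Module.Finite ℂ W) (B : W →ₗ[ℂ] W), LinearMap.det B = r j ∧ LinearMap.det B ≠ 0 ∧
        ∀ k : ℕ, LinearMap.trace ℂ W (B ^ k) = t j k := by
    intro j
    refine Fin.cases ?_ (fun i => ?_) j
    · exact hRGT K N T hT Θ V ρ hTf hc hb
    · exact hRGT (IntermediateField.fixedField (H i)) N T (IND.stable_sub _ hT) Θ ℂ
        (linRep (liftChar (H i) (ψ i))) hTf (hci i) hb
  choose W hW1 hW2 hW3 B hdet hne htr using hex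
  have key := @hTRD (m + 1) PUnit.{1} _ _ _ 0 W hW1 hW2 hW3 B e hne ?_
  · have h0 : LinearMap.det (0 : PUnit.{1} →ₗ[ℂ] PUnit.{1}) = 1 :=
      LinearMap.det_eq_one_of_subsingleton _
    rw [h0, Fin.prod_univ_succ] at key
    simp only [hdet, hr, he, Fin.cons_zero, Fin.cons_succ] at key
    have hne0 : Reg T ρ Θ ≠ 0 := by
      have := hne 0
      rw [hdet 0] at this
      simpa [hr] using this
    have h1 : Reg T ρ Θ ^ (-(M : ℤ)) = (Reg T ρ Θ ^ M)⁻¹ := by
      rw [zpow_neg, zpow_natCast]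
    rw [h1] at key
    have h2 : Reg T ρ Θ ^ M ≠ 0 := pow_ne_zero _ hne0
    field_simp at key
    exact key
  · intro k
    rw [Fin.sum_univ_succ]
    simp only [htr, ht, he, Fin.cons_zero, Fin.cons_succ]
    have h1 : LinearMap.trace ℂ PUnit.{1} ((0 : PUnit.{1} →ₗ[ℂ] PUnit.{1}) ^ k) = 0 := by
      have : ((0 : PUnit.{1} →ₗ[ℂ] PUnit.{1}) ^ k) = 0 := Subsingleton.elim _ _
      rw [this, map_zero]
    rw [h1, ← pair_comb hT Θ hc ρ.character M m H ψ n hχ k]
    push_cast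
    ring

end

end INDS

theorem INDS_thm (hLA : Stmt_LA) (hLB : Stmt_LB) (hLI : Stmt_LIND) (hTRD : Stmt_TRD)
    (hRGT : Stmt_RGT) (hSTB : Stmt_STB) (hTHC : Stmt_THC) (hTHB : Stmt_THB) : Stmt_INDS := by
  intro R hR σ K N _ _ _ _ _ _ S φ Θ V V' _ _ _ _ _ _ ρ ρ' M m H ψ n k hφ hσ hχ hlin
  have hTf : (aboveSet K N (S : Set (HeightOneSpectrum (𝓞 K)))).Finite :=
    IND.aboveSet_finite _ S.finite_toSet
  have hT := hSTB K N (S : Set (HeightOneSpectrum (𝓞 K)))
  have hc := hTHC K N _ hT φ Θ hTf hφ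
  have hb := hTHB K N _ φ Θ hTf hφ
  have hS' := fun i => IND.exists_S' (IntermediateField.fixedField (H i))
    (S : Set (HeightOneSpectrum (𝓞 K))) S.finite_toSet
  choose S' hS' using hS'
  have hst := fun i => INDS.relLin_cast R (k i) σ (liftChar (H i) (ψ i)) (hlin i) (S' i) _ (hS' i)
    φ Θ (IND.isPhiTheta_sub _ hφ)
  choose f f' hf hf' hE using hst
  have hχ' : ∀ g, (M : ℂ) * ρ'.character g =
      ∑ i, (n i : ℂ) * ((k i : ℂ) * indFun (H i) (extZ (twist σ (ψ i))) g) := by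
    intro g
    have h1 : (M : ℂ) * ρ'.character g = σ ((M : ℂ) * ρ.character g) := by
      rw [hσ g, map_mul, map_natCast]
    rw [h1, hχ g, map_sum]
    refine Finset.sum_congr rfl fun i _ => ?_
    rw [map_mul, map_mul, map_intCast, map_natCast, IND.twist_indFun]
  have hlift : ∀ i, twist σ (liftChar (H i) (ψ i)) = liftChar (H i) (twist σ (ψ i)) :=
    fun i => rfl
  refine ⟨fun z => ∏ i, f i z ^ n i, fun z => ∏ i, f' i z ^ n i, ?_, ?_, ?_⟩
  · refine INDS.artin_comb hLA hLB hLI _ _ M m H ψ n k hχ (fun i => S' i) hS' f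
      fun i => ?_
    have := hf i
    rwa [IND.linRep_character] at this
  · refine INDS.artin_comb hLA hLB hLI _ _ M m H (fun i => twist σ (ψ i)) n k hχ'
      (fun i => S' i) hS' f' fun i => ?_
    have := hf' i
    rwa [IND.linRep_character, hlift] at this
  · have hreg : ∀ (V : Type) [AddCommGroup V] [Module ℂ V] [Module.Finite ℂ V]
        (ρ : Representation ℂ (N ≃ₐ[K] N) V) (ψ : ∀ i, H i →* ℂˣ),
        (∀ g, (M : ℂ) * ρ.character g =
          ∑ i, (n i : ℂ) * ((k i : ℂ) * indFun (H i) (extZ (ψ i)) g)) →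
        Reg (aboveSet K N (S : Set (HeightOneSpectrum (𝓞 K)))) ρ Θ ^ M =
          ∏ i, (Reg (aboveSet K N (S : Set (HeightOneSpectrum (𝓞 K))))
            (linRep (liftChar (H i) (ψ i))) Θ ^ k i) ^ n i := by
      intro V _ _ _ ρ ψ hχ
      rw [INDS.reg_comb hTRD hRGT hTf hT Θ hb hc V ρ M m H ψ (fun i => n i * (k i : ℤ))
        (fun g => by
          rw [hχ g]
          refine Finset.sum_congr rfl fun i _ => ?_
          push_cast
          ring)]
      refine Finset.prod_congr rfl fun i _ => ?_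
      rw [mul_comm, zpow_mul, zpow_natCast]
    have hpow : ∀ (x : ℂ × ℂ) (a : ℕ), x ∈ R → x ^ a ∈ R := by
      intro x a hx
      induction a with
      | zero =>
        rw [pow_zero]
        have := hR.rat 1
        rwa [Rat.cast_one] at this
      | succ a ih => rw [pow_succ]; exact hR.mul _ ih _ hx
    have hzpow : ∀ (x : ℂ × ℂ) (a : ℤ), x ∈ R → (x.1 ^ a, x.2 ^ a) ∈ R := by
      intro x a hx
      rcases Int.eq_nat_or_neg a with ⟨b, rfl | rfl⟩
      · rw [zpow_natCast, zpow_natCast]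
        exact hpow x b hx
      · rw [zpow_neg, zpow_neg, zpow_natCast, zpow_natCast]
        exact hR.inv _ (hpow x b hx)
    have hprod : ∀ (a b : Fin m → ℂ), (∀ i, (a i, b i) ∈ R) → (∏ i, a i, ∏ i, b i) ∈ R := by
      intro a b hab
      have : ∀ s : Finset (Fin m), (∏ i ∈ s, a i, ∏ i ∈ s, b i) ∈ R := by
        intro s
        induction s using Finset.induction_on with
        | empty =>
          have := hR.rat 1
          simpa using this
        | insert i s hi ih =>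
          rw [Finset.prod_insert hi, Finset.prod_insert hi]
          exact hR.mul _ (hab i) _ ih
      exact this _
    rw [INDS.lead_comb _ f fun i => (hf i).1 0, INDS.lead_comb _ f' fun i => (hf' i).1 0,
      hreg V ρ ψ hχ, hreg V' ρ' (fun i => twist σ (ψ i)) hχ',
      ← Finset.prod_div_distrib, ← Finset.prod_div_distrib]
    refine hprod _ _ fun i => ?_
    rw [← div_zpow, ← div_zpow]
    exact hzpow _ _ (hE i)

end StarkC
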