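import Pool.Agent.StarkS.Stmts
import Pool.Agent.Stark.MAIN
import Pool.Agent.Stark.GOOD

/-!
# The reduction to totally complex base fields with an exponent, for a general relation
-/

open NumberField IsDedekindDomain
open scoped TensorProduct Classical

namespace StarkC

namespace RMAINS

theorem liftChar_one {K N : Type} [Field K] [Field N] [Algebra K N] [FiniteDimensional K N]
    (H : Subgroup (N ≃ₐ[K] N)) : liftChar H (1 : H →* ℂˣ) = 1 := by
  ext g
  rfl

end RMAINS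

theorem RMAINS_thm (hC : Stmt_CMBS) (hT : Stmt_TRIVS) (hD : Stmt_INDS) (hI : Stmt_INFL)
    (hL : Stmt_LINF) : Stmt_RMAINS := by
  intro R hR σ e hTC K L _ _ _ _ _ _ S φ Θ V V' _ _ _ _ _ _ ρ ρ' hφ hσ
  obtain ⟨N, _, _, _, _, _, _, m, H, ψ, n, k, hgood, hchar⟩ := hC K L V ρ
  obtain ⟨φ', Θ', hφ', hReg⟩ := hI K L N S φ Θ hφ
  have hlin : ∀ i, RelLin R (e * k i) σ (IntermediateField.fixedField (H i)) N
      (liftChar (H i) (ψ i)) := by
    intro i
    rcases hgood i with ⟨h, hk⟩ | ⟨h, hk⟩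
    · rw [hk, mul_one]
      exact hTC (IntermediateField.fixedField (H i)) N (liftChar (H i) (ψ i))
        (GOOD.totallyComplex (H i) h)
    · rw [h, RMAINS.liftChar_one, hk, mul_comm]
      exact hT R hR σ e hTC (IntermediateField.fixedField (H i)) N
  have hchar' : ∀ g, ((2 * e : ℕ) : ℂ) * ρ.character (AlgEquiv.restrictNormalHom L g) =
      ∑ i, (n i : ℂ) * (((e * k i : ℕ) : ℂ) * indFun (H i) (extZ (ψ i)) g) := by
    intro g
    have h1 := hchar g
    have h2 : ((2 * e : ℕ) : ℂ) * ρ.character (AlgEquiv.restrictNormalHom L g) =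
        (e : ℂ) * ((2 : ℂ) * ρ.character (AlgEquiv.restrictNormalHom L g)) := by
      push_cast
      ring
    rw [h2, h1, Finset.mul_sum]
    refine Finset.sum_congr rfl fun i _ => ?_
    push_cast
    ring
  obtain ⟨f, f', hf, hf', hE⟩ := hD R hR σ K N S φ' Θ' V V'
    (ρ.comp (AlgEquiv.restrictNormalHom L)) (ρ'.comp (AlgEquiv.restrictNormalHom L)) (2 * e) m H ψ
    n (fun i => e * k i) hφ' (fun g => hσ _) hchar' hlin
  refine ⟨f, f', ⟨hf.1, fun s hs => ?_⟩, ⟨hf'.1, fun s hs => ?_⟩, ?_⟩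
  · rw [hf.2 s hs, MAIN.logL_infl hL]
  · rw [hf'.2 s hs, MAIN.logL_infl hL]
  · rw [hReg V ρ, hReg V' ρ'] at hE
    exact hE

end StarkC
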