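import Pool.Agent.StarkS.Stmts
import Pool.Agent.StarkT.TMAIN

/-!
# Stark's conjecture up to sign: the final theorem
-/

open NumberField IsDedekindDomain
open scoped TensorProduct Classical

namespace StarkC

/-- Stark's assertion for `e ψ`, `ψ` linear over totally complex base fields. -/
def StarkMulTC (e : ℕ) : Prop :=
  ∀ (K L : Type) [Field K] [NumberField K] [Field L] [NumberField L] [Algebra K L] [IsGalois K L]
    (ψ : (L ≃ₐ[K] L) →* ℂˣ), IsTotallyComplex K →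
    ∀ (S : Finset (HeightOneSpectrum (𝓞 K)))
      (φ : XQ L (aboveSet K L S) ≃ₗ[ℚ] QU L (aboveSet K L S))
      (Θ : XC L (aboveSet K L S) →ₗ[ℂ] XC L (aboveSet K L S)) (σ : ℂ ≃+* ℂ),
      IsPhiTheta K (aboveSet K L S) φ Θ →
      StarkMulAt e (S : Set (HeightOneSpectrum (𝓞 K))) (aboveSet K L S) Θ
        (linRep ψ) (linRep (twist σ ψ)) σ

/-- Stark's assertion for `M χ`, all characters. -/
def StarkMulAll (M : ℕ) : Prop :=
  ∀ (K L : Type) [Field K] [NumberField K] [Field L] [NumberField L] [Algebra K L] [IsGalois K L]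
    (S : Finset (HeightOneSpectrum (𝓞 K)))
    (φ : XQ L (aboveSet K L S) ≃ₗ[ℚ] QU L (aboveSet K L S))
    (Θ : XC L (aboveSet K L S) →ₗ[ℂ] XC L (aboveSet K L S))
    (V V' : Type) [AddCommGroup V] [Module ℂ V] [Module.Finite ℂ V]
    [AddCommGroup V'] [Module ℂ V'] [Module.Finite ℂ V']
    (ρ : Representation ℂ (L ≃ₐ[K] L) V) (ρ' : Representation ℂ (L ≃ₐ[K] L) V') (σ : ℂ ≃+* ℂ),
    IsPhiTheta K (aboveSet K L S) φ Θ → (∀ g, ρ'.character g = σ (ρ.character g)) →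
    StarkMulAt M (S : Set (HeightOneSpectrum (𝓞 K))) (aboveSet K L S) Θ ρ ρ' σ

theorem TMAINS (hR : Stmt_RMAINS) (e : ℕ) (h : StarkMulTC e) : StarkMulAll (2 * e) := by
  intro K L _ _ _ _ _ _ S φ Θ V V' _ _ _ _ _ _ ρ ρ' σ hφ hσ
  have hTC : RelTCe (TMAIN.relS σ) e σ := by
    intro K L _ _ _ _ _ _ ψ hK S φ Θ hφ
    exact h K L ψ hK S φ Θ σ hφ
  exact hR (TMAIN.relS σ) (TMAIN.isRel_relS σ) σ e hTC K L S φ Θ V V' ρ ρ' hφ hσ

theorem starkMulTC_one (h : StarkTotallyComplex) : StarkMulTC 1 := by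
  intro K L _ _ _ _ _ _ ψ hK S φ Θ σ hφ
  exact TMAIN.starkMulAt_one _ _ _ _ _ _ (h K L ψ hK S φ Θ σ hφ)

theorem TMAINS_sign (hR : Stmt_RMAINS) (h : StarkTotallyComplex) : StarkMulAll 2 :=
  TMAINS hR 1 (starkMulTC_one h)

end StarkC
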