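import Pool.Agent.StarkS.PDefsS
import Pool.Agent.StarkS.TMAINS
import Pool.Agent.StarkT.PBridgeT

/-!
# Bridge between the two forms of the definitions: multiples
-/

open NumberField IsDedekindDomain
open scoped TensorProduct Classical

namespace StarkB

section

variable {K L : Type} [Field K] [NumberField K] [Field L] [NumberField L] [Algebra K L]
  [IsGalois K L]

theorem starkRepMul_iff (M : ℕ)
    {V V' : Type} [AddCommGroup V] [Module ℂ V] [Module.Finite ℂ V] [AddCommGroup V']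
    [Module ℂ V'] [Module.Finite ℂ V']
    (ρ : Representation ℂ (L ≃ₐ[K] L) V) (ρ' : Representation ℂ (L ≃ₐ[K] L) V')
    (σ : ℂ ≃+* ℂ) :
    StarkP.StarkRep (StarkP.mulRep M ρ) (StarkP.mulRep M ρ') σ ↔
    ∀ (S : Finset (HeightOneSpectrum (𝓞 K)))
      (φ : StarkC.XQ L (StarkC.aboveSet K L S) ≃ₗ[ℚ] StarkC.QU L (StarkC.aboveSet K L S))
      (Θ : StarkC.XC L (StarkC.aboveSet K L S) →ₗ[ℂ] StarkC.XC L (StarkC.aboveSet K L S)),
      StarkC.IsPhiTheta K (StarkC.aboveSet K L S) φ Θ →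
      StarkC.StarkMulAt M (S : Set (HeightOneSpectrum (𝓞 K)))
        (StarkC.aboveSet K L S) Θ ρ ρ' σ := by
  unfold StarkP.StarkRep
  refine forall_congr' fun S => ?_
  have h := starkMul_iff (fun M' => M' = M) S ρ ρ' σ
  rw [aboveSet_eq]
  constructor
  · intro h1 φ Θ hφ
    obtain ⟨M', rfl, h3⟩ := h.1 (fun Θ' hΘ' => ⟨M, rfl, h1 Θ' hΘ'⟩) φ Θ hφ
    exact h3
  · intro h1 Θ' hΘ'
    obtain ⟨M', rfl, h3⟩ := h.2 (fun φ Θ hφ => ⟨M, rfl, h1 φ Θ hφ⟩) Θ' hΘ'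
    exact h3

end

theorem starkConjectureMul_iff (M : ℕ) :
    StarkP.StarkConjectureMul M ↔ StarkC.StarkMulAll M := by
  constructor
  · intro h K L _ _ _ _ _ _ S φ Θ V V' _ _ _ _ _ _ ρ ρ' σ hφ hχ
    exact (starkRepMul_iff M ρ ρ' σ).1 (h K L V V' ρ ρ' σ hχ) S φ Θ hφ
  · intro h K L V V' _ _ _ _ _ _ _ _ _ _ _ _ ρ ρ' σ hχ
    exact (starkRepMul_iff M ρ ρ' σ).2 fun S φ Θ hφ => h K L S φ Θ V V' ρ ρ' σ hφ hχ

theorem starkTotallyComplexMul_iff (M : ℕ) :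
    StarkP.StarkTotallyComplexMul M ↔ StarkC.StarkMulTC M := by
  constructor
  · intro h K L _ _ _ _ _ _ ψ hK S φ Θ σ hφ
    exact (starkRepMul_iff M (StarkP.linRep ψ) (StarkP.linRep (StarkP.twist σ ψ)) σ).1
      (h K L hK ψ σ) S φ Θ hφ
  · intro h K L _ _ _ _ _ _ hK ψ σ
    exact (starkRepMul_iff M (StarkP.linRep ψ) (StarkP.linRep (StarkP.twist σ ψ)) σ).2
      fun S φ Θ hφ => h K L ψ hK S φ Θ σ hφ

theorem starkTotallyComplex_iff :
    StarkP.StarkTotallyComplex ↔ StarkC.StarkTotallyComplex := by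
  constructor
  · intro h K L _ _ _ _ _ _ ψ hK
    exact (starkLinear_iff ψ).1 (h K L hK ψ)
  · intro h K L _ _ _ _ _ _ hK ψ
    exact (starkLinear_iff ψ).2 (h K L ψ hK)

end StarkB
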