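import Pool.Agent.StarkS.ALLS
import Pool.Agent.StarkS.PBridgeS

/-!
# Stark's conjecture up to sign: the theorems over the printed definitions
-/

namespace StarkB

theorem sign : StarkP.StarkTotallyComplex → StarkP.StarkConjectureMul 2 := by
  rw [starkTotallyComplex_iff, starkConjectureMul_iff]
  exact StarkC.ALLS.sign

theorem multiples (e : ℕ) :
    StarkP.StarkTotallyComplexMul e → StarkP.StarkConjectureMul (2 * e) := by
  rw [starkTotallyComplexMul_iff, starkConjectureMul_iff]
  exact StarkC.ALLS.main e

theorem two : StarkP.StarkConjectureTwo ↔ StarkP.StarkTotallyComplexTwo := by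
  rw [starkConjectureTwo_iff, starkTotallyComplexTwo_iff]
  exact StarkC.ALLT.tmain_all.1

end StarkB
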