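import Pool.Agent.StarkT.PDefsT

/-!
# Stark's conjecture for multiples of characters: definitions
-/

open NumberField IsDedekindDomain
open scoped Classical

namespace StarkP

/-- Stark's assertion for the multiples `M χ` of the characters of `Gal(L/K)`: all `S`, `φ`, `σ`
and all characters `χ`, `χ^σ` of representations on the spaces `V`, `V'`. -/
def StarkSpacesMul (M : ℕ) (K L V V' : Type) [Field K] [NumberField K] [Field L] [NumberField L]
    [Algebra K L] [AddCommGroup V] [Module ℂ V] [AddCommGroup V'] [Module ℂ V'] : Prop :=
  ∀ (ρ : Representation ℂ (L ≃ₐ[K] L) V) (ρ' : Representation ℂ (L ≃ₐ[K] L) V') (σ : ℂ ≃+* ℂ),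
    (∀ g, ρ'.character g = σ (ρ.character g)) → StarkRep (mulRep M ρ) (mulRep M ρ') σ

/-- **Stark's conjecture for the multiples `M χ`**: for all finite Galois extensions of number
fields, all `S`, `φ`, all automorphisms `σ` of `ℂ` and all characters `χ`. -/
def StarkConjectureMul (M : ℕ) : Prop :=
  ∀ (K L V V' : Type) [Field K] [NumberField K] [Field L] [NumberField L] [Algebra K L]
    [IsGalois K L] [AddCommGroup V] [Module ℂ V] [Module.Finite ℂ V]
    [AddCommGroup V'] [Module ℂ V'] [Module.Finite ℂ V'], StarkSpacesMul M K L V V'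

/-- Stark's assertion for the multiples `M ψ` of all linear characters `ψ` of `Gal(L/K)` and all
`σ`, if `K` is totally complex. -/
def StarkLinearMulTC (M : ℕ) (K L : Type) [Field K] [NumberField K] [Field L] [NumberField L]
    [Algebra K L] : Prop :=
  IsTotallyComplex K → ∀ (ψ : (L ≃ₐ[K] L) →* ℂˣ) (σ : ℂ ≃+* ℂ),
    StarkRep (mulRep M (linRep ψ)) (mulRep M (linRep (twist σ ψ))) σ

/-- Stark's conjecture for the multiples `M ψ` of the linear characters `ψ` over totally complex
base fields. -/
def StarkTotallyComplexMul (M : ℕ) : Prop :=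
  ∀ (K L : Type) [Field K] [NumberField K] [Field L] [NumberField L] [Algebra K L] [IsGalois K L],
    StarkLinearMulTC M K L

/-- Stark's assertion for the linear characters `ψ` of `Gal(L/K)`, if `K` is totally complex. -/
def StarkLinearTCAll (K L : Type) [Field K] [NumberField K] [Field L] [NumberField L]
    [Algebra K L] : Prop :=
  IsTotallyComplex K → ∀ ψ : (L ≃ₐ[K] L) →* ℂˣ, StarkLinear K L ψ

/-- Stark's conjecture for the linear characters over totally complex base fields. -/
def StarkTotallyComplex : Prop :=
  ∀ (K L : Type) [Field K] [NumberField K] [Field L] [NumberField L] [Algebra K L] [IsGalois K L],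
    StarkLinearTCAll K L

end StarkP
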